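import Pool.Agent.N229.SC.Stm

/-!
Project SC (helper229), problem MP_83fd13_an, part A1: coefficients (helper901).
-/

set_option autoImplicit false

open Set Filter Topology

namespace Pool.Agent.N229.SC

open Pool.Agent.W743.HP (L1 ue)

section

variable {w : ℤ → ℝ}

theorem a1_add (a b : Al w) (j : ℤ) : cf (a + b) j = cf a j + cf b j := by
  change ((show L1 ℤ from a) + (show L1 ℤ from b) : L1 ℤ) j / w j = _
  rw [lp.coeFn_add, Pi.add_apply, add_div]
  rfl

theorem a1_sub (a b : Al w) (j : ℤ) : cf (a - b) j = cf a j - cf b j := by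
  change ((show L1 ℤ from a) - (show L1 ℤ from b) : L1 ℤ) j / w j = _
  rw [lp.coeFn_sub, Pi.sub_apply, sub_div]
  rfl

theorem a1_neg (a : Al w) (j : ℤ) : cf (-a) j = -cf a j := by
  change (-(show L1 ℤ from a) : L1 ℤ) j / w j = _
  rw [lp.coeFn_neg, Pi.neg_apply, neg_div]
  rfl

theorem a1_zero (j : ℤ) : cf (0 : Al w) j = 0 := by
  change (0 : L1 ℤ) j / w j = _
  rw [lp.coeFn_zero, Pi.zero_apply, zero_div]

theorem a1_smul (r : ℝ) (a : Al w) (j : ℤ) : cf (r • a) j = r * cf a j := by
  change (r • (show L1 ℤ from a) : L1 ℤ) j / w j = _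
  rw [lp.coeFn_smul, Pi.smul_apply, smul_eq_mul, mul_div_assoc]
  rfl

theorem a1_mon [Wt w] (i j : ℤ) : cf (mon w i) j = if i = j then 1 else 0 := by
  rw [mon, a1_smul]
  change w i * ((ue i : L1 ℤ) j / w j) = _
  unfold ue
  split_ifs with h
  · subst h
    rw [lp.single_apply_self, mul_one_div, div_self (Wt.pos w i).ne']
  · rw [lp.single_apply_ne _ _ _ (Ne.symm h), zero_div, mul_zero]

theorem a1_norm [Wt w] (a : Al w) : HasSum (fun j => |cf a j| * w j) ‖a‖ := by
  have h := Pool.Agent.W743.HP.L1.hasSum_norm (show L1 ℤ from a)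
  refine h.congr_fun fun j => ?_
  have h1 := Wt.pos w j
  change |(show L1 ℤ from a) j / w j| * w j = _
  rw [abs_div, abs_of_pos h1, div_mul_cancel₀ _ h1.ne']

theorem a1_le [Wt w] (a : Al w) (j : ℤ) : |cf a j| * w j ≤ ‖a‖ :=
  le_hasSum (a1_norm a) j fun i _ => mul_nonneg (abs_nonneg _) (Wt.pos w i).le

theorem a1_norm_mon [Wt w] (j : ℤ) : ‖mon w j‖ ≤ 1 * w j := by rw [norm_mon, one_mul]

theorem a1_hasSum [Wt w] (a : Al w) : HasSum (fun j => cf a j • mon w j) a := by
  have h := lft_hasSum (fun j => mon w j) 1 a1_norm_mon a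
  have h1 : lft (fun j => mon w j) 1 a1_norm_mon = ContinuousLinearMap.id ℝ (Al w) :=
    ext_mon fun j => by rw [lft_mon, ContinuousLinearMap.id_apply]
  rw [h1, ContinuousLinearMap.id_apply] at h
  exact h

theorem a1_ext [Wt w] (a b : Al w) (h : ∀ j, cf a j = cf b j) : a = b := by
  have h1 := a1_hasSum a
  have h2 := a1_hasSum b
  simp only [h] at h1
  exact h1.unique h2

theorem a1_aux [Wt w] (k j : ℤ) : ‖(if j = k then (1 : ℝ) else 0)‖ ≤ 1 * w j := by
  have h1 := Wt.one_le (w := w) j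
  split_ifs
  · rw [norm_one, one_mul]; exact h1
  · rw [norm_zero, one_mul]; linarith

/-- the coefficient as a functional -/
noncomputable def a1L (w : ℤ → ℝ) [Wt w] (k : ℤ) : Al w →L[ℝ] ℝ :=
  lft (fun j => if j = k then (1 : ℝ) else 0) 1 (a1_aux k)

theorem a1L_apply [Wt w] (k : ℤ) (a : Al w) : a1L w k a = cf a k := by
  have h := lft_hasSum (fun j => if j = k then (1 : ℝ) else 0) 1 (a1_aux (w := w) k) a
  have h1 : HasSum (fun j => cf a j • (if j = k then (1 : ℝ) else 0)) (cf a k) := by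
    have h2 := hasSum_single (f := fun j => cf a j • (if j = k then (1 : ℝ) else 0)) k
      (fun j hj => by rw [if_neg hj, smul_zero])
    rw [if_pos rfl, smul_eq_mul, mul_one] at h2
    exact h2
  exact h.unique h1

theorem a1_mul [Wt w] (a b : Al w) (k : ℤ) :
    HasSum (fun j => cf a j * cf b (k - j)) (cf (a * b) k) := by
  have h := ((a1_hasSum a).mapL ((mulL w).flip b)).mapL (a1L w k)
  rw [ContinuousLinearMap.flip_apply, ← mul_def, a1L_apply] at h
  refine h.congr_fun fun j => ?_
  rw [map_smul, map_smul, ContinuousLinearMap.flip_apply, smul_eq_mul]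
  congr 1
  have h1 : (a1L w k).comp (mulL w (mon w j)) = a1L w (k - j) := by
    refine ext_mon fun i => ?_
    rw [ContinuousLinearMap.comp_apply, mulL_mon, a1L_apply, a1L_apply, a1_mon, a1_mon]
    by_cases h2 : j + i = k
    · rw [if_pos h2, if_pos (by omega)]
    · rw [if_neg h2, if_neg (by omega)]
  have h2 := DFunLike.congr_fun h1 b
  rw [ContinuousLinearMap.comp_apply, a1L_apply (k - j)] at h2
  exact h2.symm

theorem a1_supp [Wt w] (k l : ℤ) (a b : Al w) (ha : ∀ j < k, cf a j = 0)
    (hb : ∀ j < l, cf b j = 0) :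
    (∀ j < k + l, cf (a * b) j = 0) ∧ cf (a * b) (k + l) = cf a k * cf b l := by
  constructor
  · intro m hm
    have h := a1_mul a b m
    have h1 : (fun j => cf a j * cf b (m - j)) = fun _ => (0 : ℝ) := by
      funext j
      by_cases hj : j < k
      · rw [ha j hj, zero_mul]
      · rw [hb (m - j) (by omega), mul_zero]
    rw [h1] at h
    exact h.unique hasSum_zero
  · have h := a1_mul a b (k + l)
    have h1 := hasSum_single (f := fun j => cf a j * cf b (k + l - j)) k (fun j hj => by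
      by_cases hjk : j < k
      · rw [ha j hjk, zero_mul]
      · rw [hb (k + l - j) (by omega), mul_zero])
    rw [add_sub_cancel_left] at h1
    exact h.unique h1

end

theorem proof_A1 : S_A1 := by
  intro w _
  exact ⟨a1_add, a1_sub, a1_neg, a1_zero, a1_smul, a1_mon, a1_le, a1_norm, a1_hasSum, a1_ext, a1_mul,
    a1_supp, fun j => ⟨a1L w j, a1L_apply j⟩⟩

end Pool.Agent.N229.SC
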