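import Pool.Agent.N229.SC.Stm

/-!
SC/A3 (helper434): the exponential and the series `TT`.
-/

set_option autoImplicit false
set_option linter.unusedSectionVars false

open Set Filter Topology

namespace Pool.Agent.N229.SC

/-! ### The exponential series in a commutative Banach algebra -/

section
variable {B : Type} [NormedCommRing B] [NormedAlgebra ℝ B] [CompleteSpace B] [NormOneClass B]

/-- the terms of the exponential series -/
noncomputable def a3t (x : B) (k : ℕ) : B := ((k.factorial : ℝ)⁻¹) • x ^ k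

theorem a3_rexp (r : ℝ) : HasSum (fun k : ℕ => (k.factorial : ℝ)⁻¹ * r ^ k) (Real.exp r) := by
  have h := NormedSpace.expSeries_div_hasSum_exp (𝔸 := ℝ) r
  rw [← Real.exp_eq_exp_ℝ] at h
  refine h.congr_fun fun k => ?_
  rw [div_eq_inv_mul]

theorem a3_rexp1 (r : ℝ) :
    HasSum (fun k : ℕ => ((k + 1).factorial : ℝ)⁻¹ * r ^ (k + 1)) (Real.exp r - 1) := by
  have h := (hasSum_nat_add_iff' 1).mpr (a3_rexp r)
  simpa using h

theorem a3_rexp2 (r : ℝ) :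
    HasSum (fun k : ℕ => ((k + 2).factorial : ℝ)⁻¹ * r ^ (k + 2)) (Real.exp r - 1 - r) := by
  have h := (hasSum_nat_add_iff' 2).mpr (a3_rexp r)
  have e : ∑ i ∈ Finset.range 2, ((i.factorial : ℝ)⁻¹ * r ^ i) = 1 + r := by
    simp [Finset.sum_range_succ]
  rw [e] at h
  rwa [← sub_sub] at h

theorem a3_tnorm (x : B) (k : ℕ) : ‖a3t x k‖ ≤ (k.factorial : ℝ)⁻¹ * ‖x‖ ^ k := by
  unfold a3t
  rw [norm_smul, Real.norm_eq_abs, abs_of_nonneg (by positivity)]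
  exact mul_le_mul_of_nonneg_left (norm_pow_le x k) (by positivity)

theorem a3_summable (x : B) : Summable (a3t x) :=
  Summable.of_norm_bounded (a3_rexp ‖x‖).summable (a3_tnorm x)

theorem a3_hasSum (x : B) : HasSum (a3t x) (∑' k, a3t x k) := (a3_summable x).hasSum

theorem a3_norm (x : B) : ‖∑' k, a3t x k‖ ≤ Real.exp ‖x‖ :=
  (a3_hasSum x).norm_le_of_bounded (a3_rexp ‖x‖) (a3_tnorm x)

theorem a3_norm1 (x : B) : ‖(∑' k, a3t x k) - 1‖ ≤ Real.exp ‖x‖ - 1 := by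
  have h := (hasSum_nat_add_iff' 1).mpr (a3_hasSum x)
  have e : ∑ i ∈ Finset.range 1, a3t x i = 1 := by simp [a3t]
  rw [e] at h
  exact h.norm_le_of_bounded (a3_rexp1 ‖x‖) fun k => a3_tnorm x (k + 1)

theorem a3_norm2 (x : B) : ‖(∑' k, a3t x k) - 1 - x‖ ≤ Real.exp ‖x‖ - 1 - ‖x‖ := by
  have h := (hasSum_nat_add_iff' 2).mpr (a3_hasSum x)
  have e : ∑ i ∈ Finset.range 2, a3t x i = 1 + x := by simp [a3t, Finset.sum_range_succ]
  rw [e, ← sub_sub] at h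
  exact h.norm_le_of_bounded (a3_rexp2 ‖x‖) fun k => a3_tnorm x (k + 2)

theorem a3_pow_sub (x y : B) (r : ℝ) (hx : ‖x‖ ≤ r) (hy : ‖y‖ ≤ r) (k : ℕ) :
    ‖x ^ (k + 1) - y ^ (k + 1)‖ ≤ ((k : ℝ) + 1) * r ^ k * ‖x - y‖ := by
  have hr : 0 ≤ r := (norm_nonneg _).trans hx
  induction k with
  | zero => simp
  | succ k ih =>
    have e : x ^ (k + 1 + 1) - y ^ (k + 1 + 1) =
        x * (x ^ (k + 1) - y ^ (k + 1)) + (x - y) * y ^ (k + 1) := by ring
    rw [e]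
    have h1 : ‖x * (x ^ (k + 1) - y ^ (k + 1))‖ ≤ r * (((k : ℝ) + 1) * r ^ k * ‖x - y‖) :=
      (norm_mul_le _ _).trans (mul_le_mul hx ih (norm_nonneg _) hr)
    have h2 : ‖(x - y) * y ^ (k + 1)‖ ≤ ‖x - y‖ * r ^ (k + 1) := by
      refine (norm_mul_le _ _).trans (mul_le_mul_of_nonneg_left ?_ (norm_nonneg _))
      exact (norm_pow_le y (k + 1)).trans (pow_le_pow_left₀ (norm_nonneg _) hy _)
    refine (norm_add_le _ _).trans ((add_le_add h1 h2).trans (le_of_eq ?_))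
    push_cast
    ring

theorem a3_lip (x y : B) (r : ℝ) (hx : ‖x‖ ≤ r) (hy : ‖y‖ ≤ r) :
    ‖(∑' k, a3t x k) - ∑' k, a3t y k‖ ≤ Real.exp r * ‖x - y‖ := by
  have h0 := (a3_hasSum x).sub (a3_hasSum y)
  have h := (hasSum_nat_add_iff' 1).mpr h0
  have e : ∑ i ∈ Finset.range 1, (a3t x i - a3t y i) = 0 := by simp [a3t]
  rw [e, sub_zero] at h
  refine h.norm_le_of_bounded ((a3_rexp r).mul_right ‖x - y‖) fun k => ?_
  unfold a3t
  rw [← smul_sub, norm_smul, Real.norm_eq_abs, abs_of_nonneg (by positivity)]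
  refine (mul_le_mul_of_nonneg_left (a3_pow_sub x y r hx hy k) (by positivity)).trans (le_of_eq ?_)
  rw [Nat.factorial_succ]
  push_cast
  have h1 : (k.factorial : ℝ) ≠ 0 := by positivity
  field_simp

theorem a3_add (x y : B) : ∑' k, a3t (x + y) k = (∑' k, a3t x k) * ∑' k, a3t y k := by
  let _ : NormedAlgebra ℚ B := NormedAlgebra.restrictScalars ℚ ℝ B
  have h := NormedSpace.exp_add (𝔸 := B) (x := x) (y := y)
  rw [NormedSpace.exp_eq_tsum ℝ (𝔸 := B)] at h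
  exact h

/-! ### The series `TT` -/

/-- the terms of the series -/
noncomputable def a3u (ξ : B) (c : ℕ → B) (i : ℕ) : B :=
  ((-1) ^ i * (i.factorial : ℝ)⁻¹) • (ξ ^ i * c i)

theorem a3_coef (i : ℕ) : |(-1 : ℝ) ^ i * (i.factorial : ℝ)⁻¹| = (i.factorial : ℝ)⁻¹ := by
  rw [abs_mul, abs_pow, abs_neg, abs_one, one_pow, one_mul, abs_of_nonneg (by positivity)]

theorem a3_M {c : ℕ → B} {M : ℝ} (hc : ∀ i, ‖c i‖ ≤ M * (3 ^ i * i.factorial)) : 0 ≤ M := by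
  have h := hc 0
  simp at h
  exact (norm_nonneg _).trans h

theorem a3_unorm (ξ : B) {c : ℕ → B} {M : ℝ} (hc : ∀ i, ‖c i‖ ≤ M * (3 ^ i * i.factorial))
    (i : ℕ) : ‖a3u ξ c i‖ ≤ M * (3 * ‖ξ‖) ^ i := by
  unfold a3u
  rw [norm_smul, Real.norm_eq_abs, a3_coef]
  have h1 : ‖ξ ^ i * c i‖ ≤ ‖ξ‖ ^ i * (M * (3 ^ i * i.factorial)) :=
    (norm_mul_le _ _).trans (mul_le_mul (norm_pow_le ξ i) (hc i) (norm_nonneg _) (by positivity))
  refine (mul_le_mul_of_nonneg_left h1 (by positivity)).trans (le_of_eq ?_)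
  have h2 : (i.factorial : ℝ) ≠ 0 := by positivity
  rw [mul_pow]
  field_simp

theorem a3_usummable (ξ : B) {c : ℕ → B} {M : ℝ} (hc : ∀ i, ‖c i‖ ≤ M * (3 ^ i * i.factorial))
    (hξ : ‖ξ‖ ≤ 1 / 30) : Summable (a3u ξ c) := by
  have h1 := norm_nonneg ξ
  refine Summable.of_norm_bounded ?_ (a3_unorm ξ hc)
  exact (summable_geometric_of_lt_one (by positivity) (by linarith)).mul_left M

theorem a3_tail (ξ : B) {c : ℕ → B} {M : ℝ} (hc : ∀ i, ‖c i‖ ≤ M * (3 ^ i * i.factorial))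
    (hξ : ‖ξ‖ ≤ 1 / 30) (m : ℕ) :
    ‖(∑' i, a3u ξ c i) - ∑ i ∈ Finset.range m, a3u ξ c i‖ ≤ 10 / 9 * M * (3 * ‖ξ‖) ^ m := by
  have h1 := norm_nonneg ξ
  have hM := a3_M hc
  have h := (hasSum_nat_add_iff' m).mpr (a3_usummable ξ hc hξ).hasSum
  have hg := (hasSum_geometric_of_lt_one (r := 3 * ‖ξ‖) (by positivity) (by linarith)).mul_left
    (M * (3 * ‖ξ‖) ^ m)
  refine (h.norm_le_of_bounded hg fun k => ?_).trans ?_
  · refine (a3_unorm ξ hc (k + m)).trans (le_of_eq ?_)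
    rw [pow_add]
    ring
  · have h2 : (1 - 3 * ‖ξ‖)⁻¹ ≤ 10 / 9 := by
      rw [inv_le_comm₀ (by linarith) (by norm_num)]
      norm_num
      linarith
    calc M * (3 * ‖ξ‖) ^ m * (1 - 3 * ‖ξ‖)⁻¹ ≤ M * (3 * ‖ξ‖) ^ m * (10 / 9) :=
          mul_le_mul_of_nonneg_left h2 (by positivity)
      _ = _ := by ring

theorem a3_two (k : ℕ) : (k : ℝ) + 2 ≤ 2 * (3 / 2) ^ k := by
  induction k with
  | zero => norm_num
  | succ k ih =>
    rw [pow_succ]
    push_cast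
    have : (0 : ℝ) ≤ k := Nat.cast_nonneg k
    nlinarith

theorem a3_tlip (ξ η : B) {c : ℕ → B} {M δ : ℝ} (hc : ∀ i, ‖c i‖ ≤ M * (3 ^ i * i.factorial))
    (hδ0 : 0 ≤ δ) (hδ : δ ≤ 1 / 30) (hξ : ‖ξ‖ ≤ δ) (hη : ‖η‖ ≤ δ) :
    ‖(∑' i, a3u ξ c i) - ∑' i, a3u η c i‖ ≤ ‖ξ - η‖ * (‖c 1‖ + 25 * M * δ) := by
  have hM := a3_M hc
  have h0 := (a3_usummable ξ hc (hξ.trans hδ)).hasSum.sub (a3_usummable η hc (hη.trans hδ)).hasSum
  have h := (hasSum_nat_add_iff' 2).mpr h0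
  have e : ∑ i ∈ Finset.range 2, (a3u ξ c i - a3u η c i) = -((ξ - η) * c 1) := by
    simp only [Finset.sum_range_succ, Finset.sum_range_zero, a3u]
    simp only [pow_zero, Nat.factorial, Nat.cast_one, inv_one, mul_one, one_smul, one_mul,
      sub_self, pow_one, neg_smul, zero_add]
    rw [sub_mul]
    abel
  have hN := norm_nonneg (ξ - η)
  have hg := (hasSum_geometric_of_lt_one (r := 9 * δ / 2) (by positivity) (by linarith)).mul_left
    (M * ‖ξ - η‖ * (18 * δ))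
  have h1 := h.norm_le_of_bounded hg fun k => ?_
  · rw [e] at h1
    have h2 : (1 - 9 * δ / 2)⁻¹ ≤ 25 / 18 := by
      rw [inv_le_comm₀ (by linarith) (by norm_num)]
      norm_num
      linarith
    have h3 : M * ‖ξ - η‖ * (18 * δ) * (1 - 9 * δ / 2)⁻¹ ≤ M * ‖ξ - η‖ * (18 * δ) * (25 / 18) :=
      mul_le_mul_of_nonneg_left h2 (by positivity)
    have h4 : ‖(ξ - η) * c 1‖ ≤ ‖ξ - η‖ * ‖c 1‖ := norm_mul_le _ _
    set Δ := (∑' i, a3u ξ c i) - ∑' i, a3u η c i with hΔ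
    have h5 : ‖Δ‖ ≤ ‖Δ - -((ξ - η) * c 1)‖ + ‖(ξ - η) * c 1‖ := by
      calc ‖Δ‖ = ‖(Δ - -((ξ - η) * c 1)) - (ξ - η) * c 1‖ := by congr 1; ring
        _ ≤ _ := norm_sub_le _ _
    nlinarith
  · unfold a3u
    rw [← smul_sub, ← sub_mul, norm_smul, Real.norm_eq_abs, a3_coef]
    have h2 := a3_pow_sub ξ η δ hξ hη (k + 1)
    have h3 : ‖(ξ ^ (k + 2) - η ^ (k + 2)) * c (k + 2)‖ ≤
        ((((k + 1 : ℕ) : ℝ) + 1) * δ ^ (k + 1) * ‖ξ - η‖) *
          (M * (3 ^ (k + 2) * (k + 2).factorial)) :=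
      (norm_mul_le _ _).trans (mul_le_mul h2 (hc (k + 2)) (norm_nonneg _) (by positivity))
    refine (mul_le_mul_of_nonneg_left h3 (by positivity)).trans ?_
    have h4 : ((k + 2).factorial : ℝ) ≠ 0 := by positivity
    have h5 : ((k + 2).factorial : ℝ)⁻¹ * (((((k + 1 : ℕ) : ℝ) + 1) * δ ^ (k + 1) * ‖ξ - η‖) *
          (M * (3 ^ (k + 2) * (k + 2).factorial))) =
        (M * ‖ξ - η‖ * (9 * δ) * (3 * δ) ^ k) * ((k : ℝ) + 2) := by
      rw [mul_pow]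
      push_cast
      field_simp
      ring
    rw [h5]
    refine (mul_le_mul_of_nonneg_left (a3_two k) (by positivity)).trans (le_of_eq ?_)
    have h6 : (9 * δ / 2) ^ k = (3 * δ) ^ k * (3 / 2) ^ k := by
      rw [← mul_pow]
      congr 1
      ring
    rw [h6]
    ring

theorem a3_uadd (ξ : B) {c c' : ℕ → B} {M : ℝ} (hc : ∀ i, ‖c i‖ ≤ M * (3 ^ i * i.factorial))
    (hc' : ∀ i, ‖c' i‖ ≤ M * (3 ^ i * i.factorial)) (hξ : ‖ξ‖ ≤ 1 / 30) :
    (∑' i, a3u ξ (fun i => c i + c' i) i) = (∑' i, a3u ξ c i) + ∑' i, a3u ξ c' i := by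
  rw [← (a3_usummable ξ hc hξ).tsum_add (a3_usummable ξ hc' hξ)]
  refine tsum_congr fun i => ?_
  unfold a3u
  rw [mul_add, smul_add]

theorem a3_usub (ξ : B) {c c' : ℕ → B} {M : ℝ} (hc : ∀ i, ‖c i‖ ≤ M * (3 ^ i * i.factorial))
    (hc' : ∀ i, ‖c' i‖ ≤ M * (3 ^ i * i.factorial)) (hξ : ‖ξ‖ ≤ 1 / 30) :
    (∑' i, a3u ξ (fun i => c i - c' i) i) = (∑' i, a3u ξ c i) - ∑' i, a3u ξ c' i := by
  rw [← (a3_usummable ξ hc hξ).tsum_sub (a3_usummable ξ hc' hξ)]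
  refine tsum_congr fun i => ?_
  unfold a3u
  rw [mul_sub, smul_sub]

theorem a3_usmul (ξ : B) {c : ℕ → B} {M : ℝ} (hc : ∀ i, ‖c i‖ ≤ M * (3 ^ i * i.factorial))
    (hξ : ‖ξ‖ ≤ 1 / 30) (r : ℝ) :
    (∑' i, a3u ξ (fun i => r • c i) i) = r • ∑' i, a3u ξ c i := by
  rw [← (a3_usummable ξ hc hξ).tsum_const_smul r]
  refine tsum_congr fun i => ?_
  unfold a3u
  rw [mul_smul_comm, smul_comm]

end

/-! ### The algebra `W` -/

theorem a3_conj_pow (h2 : S_A2) (x : W) (k : ℕ) : conj (x ^ k) = conj x ^ k := by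
  obtain ⟨-, ⟨-, hm, h1, -, -⟩, -⟩ := h2
  induction k with
  | zero => rw [pow_zero, pow_zero, h1]
  | succ k ih => rw [pow_succ, hm, ih, pow_succ]

theorem a3_inc_pow (h2 : S_A2) (x : W) (k : ℕ) : inc (x ^ k) = inc x ^ k := by
  obtain ⟨⟨-, hm, h1, -, -⟩, -⟩ := h2
  induction k with
  | zero => rw [pow_zero, pow_zero, h1]
  | succ k ih => rw [pow_succ, hm, ih, pow_succ]

theorem a3_conj_ex (h2 : S_A2) (x : W) : conj (ex x) = ex (conj x) := by
  have h := conj.hasSum (a3_hasSum x)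
  have h' : HasSum (a3t (conj x)) (conj (∑' k, a3t x k)) := by
    refine h.congr_fun fun k => ?_
    rw [a3t, a3t, map_smul, a3_conj_pow h2]
  exact h'.unique (a3_hasSum (conj x))

theorem a3_der_one (h2 : S_A2) : der 1 = 0 := by
  obtain ⟨⟨-, -, h1, -, -⟩, -, -, ⟨-, -, hd⟩, -⟩ := h2
  have h := hd 1 1
  rw [mul_one, h1, mul_one, one_mul] at h
  exact left_eq_add.mp h

theorem a3_der_pow (h2 : S_A2) (x : W) (k : ℕ) :
    der (x ^ (k + 1)) = ((k : ℝ) + 1) • (inc x ^ k * der x) := by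
  have hi := a3_inc_pow h2 x
  obtain ⟨-, -, -, ⟨-, -, hd⟩, -⟩ := h2
  induction k with
  | zero => simp
  | succ k ih =>
    rw [pow_succ x (k + 1), hd, ih, hi, smul_mul_assoc]
    rw [show inc x ^ k * der x * inc x = inc x ^ (k + 1) * der x by ring]
    push_cast
    module

theorem a3_der_ex (h2 : S_A2) (x : W) : der (ex x) = inc (ex x) * der x := by
  have h := (hasSum_nat_add_iff' 1).mpr (der.hasSum (a3_hasSum x))
  have e : ∑ i ∈ Finset.range 1, der (a3t x i) = 0 := by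
    simp [a3t, a3_der_one h2]
  rw [e, sub_zero] at h
  have h' := (inc.hasSum (a3_hasSum x)).mul_right (der x)
  refine h.unique (h'.congr_fun fun k => ?_)
  rw [a3t, a3t, map_smul, map_smul, a3_der_pow h2, a3_inc_pow h2, smul_mul_assoc, smul_smul]
  congr 1
  rw [Nat.factorial_succ]
  push_cast
  have h1 : (k.factorial : ℝ) ≠ 0 := by positivity
  field_simp

theorem a3_cf_mul (h1 : S_A1) (a b : W) (ha : ∀ j < 0, cf a j = 0) (hb : ∀ j < 0, cf b j = 0) :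
    (∀ j < 0, cf (a * b) j = 0) ∧ cf (a * b) 0 = cf a 0 * cf b 0 ∧
      cf (a * b) 1 = cf a 0 * cf b 1 + cf a 1 * cf b 0 := by
  obtain ⟨-, -, -, -, -, -, -, -, -, -, hp, hs, -⟩ := h1 wW
  obtain ⟨h3, h4⟩ := hs 0 0 a b ha hb
  refine ⟨fun j hj => h3 j (by simpa using hj), by simpa using h4, ?_⟩
  have h5 : HasSum (fun j : ℤ => cf a j * cf b (1 - j))
      (∑ j ∈ ({0, 1} : Finset ℤ), cf a j * cf b (1 - j)) := by
    apply hasSum_sum_of_ne_finset_zero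
    intro j hj
    simp only [Finset.mem_insert, Finset.mem_singleton, not_or] at hj
    rcases lt_or_ge j 0 with h6 | h6
    · rw [ha j h6, zero_mul]
    · rw [hb (1 - j) (by omega), mul_zero]
  rw [(hp a b 1).unique h5]
  rw [Finset.sum_pair (by norm_num)]
  simp

theorem a3_cf_pow (h1 : S_A1) (x : W) (hx : ∀ j < 0, cf x j = 0) (k : ℕ) :
    (∀ j < 0, cf (x ^ k) j = 0) ∧ cf (x ^ k) 0 = cf x 0 ^ k ∧
      cf (x ^ k) 1 = k * cf x 0 ^ (k - 1) * cf x 1 := by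
  induction k with
  | zero =>
    obtain ⟨-, -, -, -, -, hm, -⟩ := h1 wW
    have h : ∀ j : ℤ, cf (1 : W) j = if 0 = j then 1 else 0 := fun j => hm 0 j
    refine ⟨fun j hj => ?_, ?_, ?_⟩
    · rw [pow_zero, h, if_neg (by omega)]
    · rw [pow_zero, h, if_pos rfl, pow_zero]
    · rw [pow_zero, h, if_neg (by norm_num)]
      simp
  | succ k ih =>
    obtain ⟨h3, h4, h5⟩ := ih
    obtain ⟨h6, h7, h8⟩ := a3_cf_mul h1 (x ^ k) x h3 hx
    refine ⟨by rw [pow_succ]; exact h6, by rw [pow_succ, h7, h4, pow_succ], ?_⟩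
    rw [pow_succ, h8, h4, h5]
    rcases k with _ | k
    · simp
    · simp only [Nat.add_sub_cancel, pow_succ]
      push_cast
      ring

theorem a3_cf_ex (h1 : S_A1) (x : W) (hx : ∀ j < 0, cf x j = 0) :
    (∀ j < 0, cf (ex x) j = 0) ∧ cf (ex x) 0 = Real.exp (cf x 0) ∧
      cf (ex x) 1 = Real.exp (cf x 0) * cf x 1 := by
  have hp := a3_cf_pow h1 x hx
  obtain ⟨-, -, -, -, hsm, -, -, -, -, -, -, -, hL⟩ := h1 wW
  have hS : ∀ j : ℤ, HasSum (fun k : ℕ => (k.factorial : ℝ)⁻¹ * cf (x ^ k) j) (cf (ex x) j) := by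
    intro j
    obtain ⟨L, hL⟩ := hL j
    have h := L.hasSum (a3_hasSum x)
    rw [hL] at h
    refine h.congr_fun fun k => ?_
    rw [hL, a3t, hsm]
  refine ⟨fun j hj => ?_, ?_, ?_⟩
  · have h := hS j
    have e : (fun k : ℕ => (k.factorial : ℝ)⁻¹ * cf (x ^ k) j) = fun _ => 0 := by
      funext k
      rw [(hp k).1 j hj, mul_zero]
    rw [e] at h
    exact h.unique hasSum_zero
  · have h := hS 0
    have e : (fun k : ℕ => (k.factorial : ℝ)⁻¹ * cf (x ^ k) 0) =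
        fun k => (k.factorial : ℝ)⁻¹ * cf x 0 ^ k := by
      funext k
      rw [(hp k).2.1]
    rw [e] at h
    exact h.unique (a3_rexp _)
  · have h := (hasSum_nat_add_iff' 1).mpr (hS 1)
    have e0 : ∑ i ∈ Finset.range 1, ((i.factorial : ℝ)⁻¹ * cf (x ^ i) 1) = 0 := by
      rw [Finset.sum_range_one, (hp 0).2.2]
      simp
    have e : (fun k : ℕ => ((k + 1).factorial : ℝ)⁻¹ * cf (x ^ (k + 1)) 1) =
        fun k => (k.factorial : ℝ)⁻¹ * cf x 0 ^ k * cf x 1 := by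
      funext k
      rw [(hp (k + 1)).2.2, Nat.factorial_succ, Nat.add_sub_cancel]
      push_cast
      have h1 : (k.factorial : ℝ) ≠ 0 := by positivity
      field_simp
    rw [e0, sub_zero, e] at h
    exact h.unique ((a3_rexp _).mul_right _)

/-- SC-A3 -/
theorem proof_A3 (hA1 : S_A1) (hA2 : S_A2) : S_A3 := by
  refine ⟨⟨fun x => a3_hasSum x, ?_, fun x => a3_norm x, fun x => a3_norm1 x,
    fun x => a3_norm2 x, fun x y r hx hy => a3_lip x y r hx hy, fun x y => a3_add x y,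
    a3_conj_ex hA2, a3_der_ex hA2, a3_cf_ex hA1⟩, ?_, ?_, ?_⟩
  · have h := a3_norm1 (0 : W)
    rw [norm_zero, Real.exp_zero, sub_self] at h
    have h2 : (∑' k, a3t (0 : W) k) - 1 = 0 := norm_le_zero_iff.mp h
    exact sub_eq_zero.mp h2
  · intro ξ c M hc hξ
    exact ⟨a3_usummable ξ hc hξ, a3_tail ξ hc hξ⟩
  · intro ξ η c M δ hc hδ0 hδ hξ hη
    exact a3_tlip ξ η hc hδ0 hδ hξ hη
  · intro ξ c c' M hc hc' hξ
    exact ⟨a3_uadd ξ hc hc' hξ, a3_usub ξ hc hc' hξ, a3_usmul ξ hc hξ⟩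

end Pool.Agent.N229.SC
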