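import Pool.Agent.W743.HP.Defs

/-!
Project SC (helper229), problem MP_83fd13_an: weighted Wiener algebras on `ℤ`.
-/

set_option autoImplicit false

open Set Filter Topology

namespace Pool.Agent.N229.SC

open Pool.Agent.W743.HP (L1 ue lift lift₂ lift_ue lift₂_ue norm_ue L1.ext_ue lift_apply lift_hasSum
  norm_lift_le)

/-- A symmetric submultiplicative weight. -/
class Wt (w : ℤ → ℝ) : Prop where
  one_le : ∀ j, 1 ≤ w j
  zero : w 0 = 1
  neg : ∀ j, w (-j) = w j
  mul : ∀ i j, w (i + j) ≤ w i * w j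

theorem Wt.pos (w : ℤ → ℝ) [Wt w] (j : ℤ) : 0 < w j := lt_of_lt_of_le one_pos (Wt.one_le j)

/-- The weighted Wiener algebra of all `∑ a_j t^j` with `∑ |a_j| w_j < ∞` (the underlying
sequence is `a_j w_j`). -/
def Al (_w : ℤ → ℝ) : Type := L1 ℤ

section
variable {w : ℤ → ℝ}

noncomputable instance : NormedAddCommGroup (Al w) := inferInstanceAs (NormedAddCommGroup (L1 ℤ))
noncomputable instance : NormedSpace ℝ (Al w) := inferInstanceAs (NormedSpace ℝ (L1 ℤ))
instance : CompleteSpace (Al w) := inferInstanceAs (CompleteSpace (L1 ℤ))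

/-- The coefficient of `t^j`. -/
noncomputable def cf (a : Al w) (j : ℤ) : ℝ := (show L1 ℤ from a) j / w j

/-- The unit vector of index `j`. -/
noncomputable def e1 (w : ℤ → ℝ) (j : ℤ) : Al w := (ue j : L1 ℤ)

/-- The monomial `t^j`. -/
noncomputable def mon (w : ℤ → ℝ) (j : ℤ) : Al w := w j • e1 w j

theorem norm_mulAux [Wt w] (i j : ℤ) :
    ‖(w (i + j) / (w i * w j)) • (ue (i + j) : L1 ℤ)‖ ≤ 1 := by
  have h1 := Wt.pos w i
  have h2 := Wt.pos w j
  have h3 := Wt.pos w (i + j)
  rw [norm_smul, norm_ue, mul_one, Real.norm_eq_abs, abs_of_nonneg (by positivity),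
    div_le_one (by positivity)]
  exact Wt.mul i j

/-- The product as a bilinear map. -/
noncomputable def mulL (w : ℤ → ℝ) [Wt w] : Al w →L[ℝ] Al w →L[ℝ] Al w :=
  (lift₂ (fun i j : ℤ => (w (i + j) / (w i * w j)) • (ue (i + j) : L1 ℤ)) 1 zero_le_one
    norm_mulAux : L1 ℤ →L[ℝ] L1 ℤ →L[ℝ] L1 ℤ)

theorem norm_mon [Wt w] (j : ℤ) : ‖mon w j‖ = w j := by
  show ‖w j • (ue j : L1 ℤ)‖ = w j
  rw [norm_smul, norm_ue, mul_one, Real.norm_eq_abs, abs_of_pos (Wt.pos w j)]

/-- The continuous linear map with `t^j ↦ φ j`. -/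
noncomputable def lft {Y : Type} [NormedAddCommGroup Y] [NormedSpace ℝ Y] [CompleteSpace Y]
    [Wt w] (φ : ℤ → Y) (C : ℝ) (h : ∀ j, ‖φ j‖ ≤ C * w j) : Al w →L[ℝ] Y :=
  (lift (fun j => (w j)⁻¹ • φ j) C fun j => by
    have h1 := Wt.pos w j
    rw [norm_smul, Real.norm_eq_abs, abs_of_pos (inv_pos.mpr h1), inv_mul_le_iff₀ h1, mul_comm]
    exact h j : L1 ℤ →L[ℝ] Y)

section
variable {Y : Type} [NormedAddCommGroup Y] [NormedSpace ℝ Y] [CompleteSpace Y]

theorem lft_mon [Wt w] (φ : ℤ → Y) (C : ℝ) (h : ∀ j, ‖φ j‖ ≤ C * w j) (j : ℤ) :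
    lft φ C h (mon w j) = φ j := by
  show lift _ C _ (w j • (ue j : L1 ℤ)) = φ j
  rw [map_smul, lift_ue, smul_smul, mul_inv_cancel₀ (Wt.pos w j).ne', one_smul]

theorem norm_lft_le [Wt w] (φ : ℤ → Y) (C : ℝ) (hC : 0 ≤ C) (h : ∀ j, ‖φ j‖ ≤ C * w j) :
    ‖lft φ C h‖ ≤ C := norm_lift_le _ C hC _

theorem lft_hasSum [Wt w] (φ : ℤ → Y) (C : ℝ) (h : ∀ j, ‖φ j‖ ≤ C * w j) (a : Al w) :
    HasSum (fun j => cf a j • φ j) (lft φ C h a) := by
  have h1 := lift_hasSum (fun j => (w j)⁻¹ • φ j) C (fun j => by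
    have h1 := Wt.pos w j
    rw [norm_smul, Real.norm_eq_abs, abs_of_pos (inv_pos.mpr h1), inv_mul_le_iff₀ h1, mul_comm]
    exact h j) (show L1 ℤ from a)
  refine h1.congr_fun fun j => ?_
  rw [smul_smul]
  rfl

omit [CompleteSpace Y] in
theorem ext_mon [Wt w] {F G : Al w →L[ℝ] Y} (h : ∀ j, F (mon w j) = G (mon w j)) : F = G := by
  refine L1.ext_ue (A := (F : L1 ℤ →L[ℝ] Y)) (B := (G : L1 ℤ →L[ℝ] Y)) fun j => ?_
  have h1 := h j
  rw [mon, map_smul, map_smul] at h1
  exact smul_right_injective Y (Wt.pos w j).ne' h1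

end

theorem mulL_mon [Wt w] (i j : ℤ) : mulL w (mon w i) (mon w j) = mon w (i + j) := by
  have h3 : mulL w (e1 w i) (e1 w j) = (w (i + j) / (w i * w j)) • e1 w (i + j) :=
    lift₂_ue (fun i j : ℤ => (w (i + j) / (w i * w j)) • (ue (i + j) : L1 ℤ)) 1 zero_le_one
      norm_mulAux i j
  rw [mon, mon, map_smul, map_smul, ContinuousLinearMap.smul_apply]
  rw [h3, smul_smul, smul_smul, mon]
  have h4 := (Wt.pos w i).ne'
  have h5 := (Wt.pos w j).ne'
  congr 1
  field_simp

theorem mulL_comm [Wt w] (a b : Al w) : mulL w a b = mulL w b a := by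
  have h : mulL w = (mulL w).flip := by
    refine ext_mon fun i => ext_mon fun j => ?_
    rw [ContinuousLinearMap.flip_apply, mulL_mon, mulL_mon, add_comm]
  rw [h, ContinuousLinearMap.flip_apply, ← h]

theorem mulL_assoc [Wt w] (a b c : Al w) : mulL w (mulL w a b) c = mulL w a (mulL w b c) := by
  have h1 : ∀ (i j : ℤ) (c : Al w), mulL w (mulL w (mon w i) (mon w j)) c =
      mulL w (mon w i) (mulL w (mon w j) c) := by
    intro i j c
    have : mulL w (mulL w (mon w i) (mon w j)) = (mulL w (mon w i)).comp (mulL w (mon w j)) := by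
      refine ext_mon fun k => ?_
      rw [ContinuousLinearMap.comp_apply, mulL_mon, mulL_mon, mulL_mon, mulL_mon, add_assoc]
    rw [this, ContinuousLinearMap.comp_apply]
  have h2 : ∀ (i : ℤ) (b c : Al w), mulL w (mulL w (mon w i) b) c =
      mulL w (mon w i) (mulL w b c) := by
    intro i b c
    have : ((mulL w).flip c).comp (mulL w (mon w i)) =
        (mulL w (mon w i)).comp ((mulL w).flip c) := by
      refine ext_mon fun k => ?_
      simp only [ContinuousLinearMap.comp_apply, ContinuousLinearMap.flip_apply]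
      exact h1 i k c
    have h3 := DFunLike.congr_fun this b
    simpa only [ContinuousLinearMap.comp_apply, ContinuousLinearMap.flip_apply] using h3
  have : ((mulL w).flip c).comp ((mulL w).flip b) = (mulL w).flip (mulL w b c) := by
    refine ext_mon fun k => ?_
    simp only [ContinuousLinearMap.comp_apply, ContinuousLinearMap.flip_apply]
    exact h2 k b c
  have h3 := DFunLike.congr_fun this a
  simpa only [ContinuousLinearMap.comp_apply, ContinuousLinearMap.flip_apply] using h3

theorem mulL_one [Wt w] (a : Al w) : mulL w (mon w 0) a = a := by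
  have : mulL w (mon w 0) = ContinuousLinearMap.id ℝ (Al w) := by
    refine ext_mon fun k => ?_
    rw [mulL_mon, zero_add, ContinuousLinearMap.id_apply]
  rw [this, ContinuousLinearMap.id_apply]

noncomputable instance instCommRing [Wt w] : CommRing (Al w) where
  __ := (inferInstance : AddCommGroup (Al w))
  mul a b := mulL w a b
  one := mon w 0
  left_distrib a b c := by
    show mulL w a (b + c) = mulL w a b + mulL w a c
    rw [map_add]
  right_distrib a b c := by
    show mulL w (a + b) c = mulL w a c + mulL w b c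
    rw [map_add, ContinuousLinearMap.add_apply]
  zero_mul a := by
    show mulL w 0 a = 0
    rw [map_zero, ContinuousLinearMap.zero_apply]
  mul_zero a := by
    show mulL w a 0 = 0
    rw [map_zero]
  mul_assoc a b c := mulL_assoc a b c
  one_mul a := mulL_one a
  mul_one a := by
    show mulL w a (mon w 0) = a
    rw [mulL_comm, mulL_one]
  mul_comm a b := mulL_comm a b

theorem mul_def [Wt w] (a b : Al w) : a * b = mulL w a b := rfl

theorem one_def [Wt w] : (1 : Al w) = mon w 0 := rfl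

noncomputable instance instNormedCommRing [Wt w] : NormedCommRing (Al w) where
  __ := (inferInstance : NormedAddCommGroup (Al w))
  __ := (instCommRing : CommRing (Al w))
  norm_mul_le a b := by
    have h := (mulL w).le_opNorm₂ a b
    have h2 : ‖mulL w‖ ≤ 1 := norm_lift_le _ 1 zero_le_one fun i =>
      norm_lift_le _ 1 zero_le_one (norm_mulAux i)
    calc ‖a * b‖ = ‖mulL w a b‖ := rfl
      _ ≤ ‖mulL w‖ * ‖a‖ * ‖b‖ := h
      _ ≤ 1 * ‖a‖ * ‖b‖ := by gcongr
      _ = ‖a‖ * ‖b‖ := by rw [one_mul]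

instance instNormOne [Wt w] : NormOneClass (Al w) := ⟨by rw [one_def, norm_mon, Wt.zero (w := w)]⟩

noncomputable instance instAlgebra [Wt w] : Algebra ℝ (Al w) := Algebra.ofModule
  (by
    intro r x y
    show mulL w (r • x) y = r • mulL w x y
    rw [map_smul, ContinuousLinearMap.smul_apply])
  (by
    intro r x y
    show mulL w x (r • y) = r • mulL w x y
    rw [map_smul])

noncomputable instance instNormedAlgebra [Wt w] : NormedAlgebra ℝ (Al w) where
  norm_smul_le := norm_smul_le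

theorem mon_mul_mon [Wt w] (i j : ℤ) : mon w i * mon w j = mon w (i + j) := mulL_mon i j

end

end Pool.Agent.N229.SC
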