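import Pool.Agent.N229.SC.Stm

/-!
Project SC (helper229), problem MP_83fd13_an: the functions of `h` (SC-B1).
-/

set_option autoImplicit false

open Set Filter Topology MeasureTheory

namespace Pool.Agent.N229.SC

private theorem b1_exp1 {x : ℝ} (h0 : 0 ≤ x) (h1 : x ≤ 1) : Real.exp x - 1 ≤ x * (1 + x) := by
  have h := Real.abs_exp_sub_one_sub_id_le (x := x) (by rw [abs_of_nonneg h0]; exact h1)
  have h2 := (abs_le.1 h).2
  nlinarith

private theorem b1_exp2 {x : ℝ} (h0 : 0 ≤ x) (h1 : x ≤ 1) : Real.exp x - 1 - x ≤ x ^ 2 := by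
  have h := Real.abs_exp_sub_one_sub_id_le (x := x) (by rw [abs_of_nonneg h0]; exact h1)
  exact (abs_le.1 h).2

private theorem b1_exp3 {x : ℝ} (h0 : 0 ≤ x) (h1 : x ≤ 1) :
    Real.exp x - 1 - x ≤ x ^ 2 / 2 * (1 + x) := by
  have h := Real.exp_bound (x := x) (by rw [abs_of_nonneg h0]; exact h1) (n := 3) (by norm_num)
  have h2 := (abs_le.1 h).2
  rw [abs_of_nonneg h0] at h2
  norm_num [Finset.sum_range_succ, Nat.factorial] at h2
  nlinarith [pow_nonneg h0 3]

private theorem b1_wW1 : wW 1 = 1126125 / 1000000 := by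
  norm_num [wW, Rad]

section

variable {P : Par}

private theorem b1_nu (hP : Good P) : 0 < P.nu := lt_of_lt_of_le (by norm_num) hP.nu1

private theorem b1_rho (hP : Good P) : 0 < P.ρ := lt_of_lt_of_le (by norm_num) hP.rho

private theorem b1_Phi (hA2 : S_A2) (hP : Good P) (h : W) : ‖Phi P h‖ ≤ P.nu * ‖h‖ := by
  obtain ⟨-, -, ⟨-, hh⟩, -⟩ := hA2
  unfold Phi
  rw [norm_smul, Real.norm_eq_abs, abs_of_pos (b1_nu hP)]
  exact mul_le_mul_of_nonneg_left (hh h) (b1_nu hP).le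

private theorem b1_Phi_sub (P : Par) (h h' : W) : Phi P h - Phi P h' = Phi P (h - h') := by
  unfold Phi
  rw [map_sub, smul_sub]

private theorem b1_Phi_small (hA2 : S_A2) (hP : Good P) {h : W} (hh : ‖h‖ ≤ 1 / 1000) :
    ‖Phi P h‖ ≤ 82 / 100000 := by
  have h1 := b1_Phi hA2 hP h
  have h2 : P.nu * ‖h‖ ≤ 41 / 50 * (1 / 1000) :=
    mul_le_mul hP.nu2 hh (norm_nonneg _) (by norm_num)
  linarith

private theorem b1_small (hP : Good P) (h : W) : ‖(2 / P.ρ) • h‖ = 2 / P.ρ * ‖h‖ := by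
  have := b1_rho hP
  rw [norm_smul, Real.norm_eq_abs, abs_of_pos (by positivity)]

private theorem b1_two_rho (hP : Good P) : 2 / P.ρ ≤ 2 / 10000 :=
  div_le_div_of_nonneg_left (by norm_num) (by norm_num) hP.rho

private theorem b1_small' (hP : Good P) (h : W) : ‖(2 / P.ρ) • h‖ ≤ 2 / 10000 * ‖h‖ := by
  rw [b1_small hP]
  exact mul_le_mul_of_nonneg_right (b1_two_rho hP) (norm_nonneg _)

private theorem b1_xi_eq (hP : Good P) (h : W) : xi P h - h =
    (P.ρ / 2) • (ex ((2 / P.ρ) • h) - 1 - (2 / P.ρ) • h) := by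
  have h0 := (b1_rho hP).ne'
  unfold xi YY
  rw [smul_sub _ (ex ((2 / P.ρ) • h) - 1), smul_smul]
  have e : P.ρ / 2 * (2 / P.ρ) = 1 := by
    field_simp
  rw [e, one_smul]

end

/-- SC-B1 -/
theorem proof_B1 (hA1 : S_A1) (hA2 : S_A2) (hA3 : S_A3) : S_B1 := by
  intro P hP h hh
  have hnu := b1_nu hP
  have hrho := b1_rho hP
  have hn0 : 0 ≤ ‖h‖ := norm_nonneg _
  obtain ⟨⟨-, -, -, a4, a5, a6, a7, a8, -, a10⟩, -⟩ := hA3
  have hmon : ‖mon wW 1‖ = 1126125 / 1000000 := by rw [norm_mon, b1_wW1]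
  have hder : ∀ a : W, ‖der a‖ ≤ 8 * ‖a‖ := hA2.2.2.2.1.2.1
  have hPhi := b1_Phi hA2 hP h
  have hPhis := b1_Phi_small hA2 hP hh
  have hnuh : P.nu * ‖h‖ ≤ 41 / 50 * ‖h‖ := mul_le_mul_of_nonneg_right hP.nu2 hn0
  have htau : ‖tau P h - mon wW 1‖ ≤ 93 / 100 * ‖h‖ := by
    have e : tau P h - mon wW 1 = mon wW 1 * (ex (Phi P h) - 1) := by
      unfold tau
      ring
    rw [e]
    have k1 := a4 (Phi P h)
    have k2 := b1_exp1 (norm_nonneg (Phi P h)) (by linarith)
    have k3 : ‖Phi P h‖ * (1 + ‖Phi P h‖) ≤ 41 / 50 * ‖h‖ * (1 + 82 / 100000) :=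
      mul_le_mul (hPhi.trans hnuh) (by linarith) (by positivity) (by positivity)
    calc ‖mon wW 1 * (ex (Phi P h) - 1)‖ ≤ ‖mon wW 1‖ * ‖ex (Phi P h) - 1‖ := norm_mul_le _ _
      _ ≤ 1126125 / 1000000 * (41 / 50 * ‖h‖ * (1 + 82 / 100000)) := by
        rw [hmon]
        exact mul_le_mul_of_nonneg_left ((k1.trans k2).trans k3) (by norm_num)
      _ ≤ 93 / 100 * ‖h‖ := by nlinarith
  have hYY : ∀ g : W, ‖g‖ ≤ 1 / 1000 → ‖YY P g - 1‖ ≤ 201 / 10 ^ 6 * ‖g‖ := by
    intro g hg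
    have hg0 : 0 ≤ ‖g‖ := norm_nonneg _
    have s1 := b1_small' hP g
    have k1 := a4 ((2 / P.ρ) • g)
    have k2 := b1_exp1 (norm_nonneg ((2 / P.ρ) • g)) (by linarith)
    have k3 : ‖(2 / P.ρ) • g‖ * (1 + ‖(2 / P.ρ) • g‖) ≤ 2 / 10000 * ‖g‖ * (1 + 2 / 10000) :=
      mul_le_mul s1 (by linarith) (by positivity) (by positivity)
    unfold YY
    refine ((k1.trans k2).trans k3).trans ?_
    norm_num
    nlinarith
  refine ⟨⟨hPhi, ?_, htau, ?_, hYY h hh, ?_⟩, ?_, ?_, ?_⟩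
  · unfold beta
    have := hder (Phi P h)
    nlinarith
  · have h1 : ‖tau P h‖ ≤ ‖tau P h - mon wW 1‖ + ‖mon wW 1‖ := by
      have := norm_add_le (tau P h - mon wW 1) (mon wW 1)
      rwa [sub_add_cancel] at this
    rw [hmon] at h1
    linarith
  · rw [b1_xi_eq hP, norm_smul, Real.norm_eq_abs, abs_of_pos (by positivity)]
    have s1 := b1_small' hP h
    have s2 := b1_small hP h
    have k1 := a5 ((2 / P.ρ) • h)
    have k2 := b1_exp3 (norm_nonneg ((2 / P.ρ) • h)) (by linarith)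
    set x := ‖(2 / P.ρ) • h‖ with hx
    have hx0 : 0 ≤ x := norm_nonneg _
    have k3 : P.ρ / 2 * x = ‖h‖ := by
      rw [s2]
      field_simp
    calc P.ρ / 2 * ‖ex ((2 / P.ρ) • h) - 1 - (2 / P.ρ) • h‖ ≤ P.ρ / 2 * (x ^ 2 / 2 * (1 + x)) :=
        mul_le_mul_of_nonneg_left (k1.trans k2) (by positivity)
      _ = ‖h‖ * x / 2 * (1 + x) := by rw [← k3]; ring
      _ ≤ ‖h‖ * (2 / 10000 * ‖h‖) / 2 * (1 + 2 / 10000) := by
        have : x ≤ 2 / 10000 := by linarith
        gcongr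
      _ ≤ ‖h‖ ^ 2 / 9000 := by nlinarith [sq_nonneg ‖h‖]
  · intro hc
    have k1 : conj (YY P h) = YY P h := by
      unfold YY
      rw [a8, map_smul, hc]
    refine ⟨?_, k1⟩
    unfold xi
    rw [map_smul, map_sub, k1, hA2.2.1.2.2.1]
  · obtain ⟨-, -, -, -, b5, b6, -, -, -, -, -, b12, -⟩ := hA1 wW
    have hhol : ∀ (a : W) (j : ℤ), cf (hol a) j =
      if 0 < j then cf a j + cf a (-j) else if j = 0 then cf a 0 else 0 := hA2.2.2.1.1
    have c1 : ∀ j < 0, cf (Phi P h) j = 0 := by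
      intro j hj
      unfold Phi
      rw [b5, hhol, if_neg (by omega), if_neg (by omega), mul_zero]
    have c2 : cf (Phi P h) 0 = P.nu * cf h 0 := by
      unfold Phi
      rw [b5, hhol, if_neg (by omega), if_pos rfl]
    have c3 : ∀ j < 1, cf (beta P h) j = 0 := by
      intro j hj
      unfold beta
      rw [hA2.2.2.2.1.1]
      rcases (show j < 0 ∨ j = 0 by omega) with h1 | h1
      · rw [c1 j h1, mul_zero]
      · rw [h1, Int.cast_zero, zero_mul]
    obtain ⟨d1, d2, -⟩ := a10 (Phi P h) c1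
    obtain ⟨f1, f2⟩ := b12 1 0 (mon wW 1) (ex (Phi P h)) (fun j hj => by
      rw [b6, if_neg (by omega)]) d1
    refine ⟨c1, c2, c3, fun j hj => f1 j (by omega), ?_⟩
    have f3 : cf (tau P h) 1 = cf (mon wW 1) 1 * cf (ex (Phi P h)) 0 := by
      have : (1 : ℤ) + 0 = 1 := by norm_num
      rw [this] at f2
      exact f2
    rw [f3, b6, if_pos rfl, d2, c2, one_mul]
  · intro h' hh'
    have hd0 : 0 ≤ ‖h - h'‖ := norm_nonneg _
    have hPhis' := b1_Phi_small hA2 hP hh'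
    have hPd := b1_Phi hA2 hP (h - h')
    have hnud : P.nu * ‖h - h'‖ ≤ 41 / 50 * ‖h - h'‖ := mul_le_mul_of_nonneg_right hP.nu2 hd0
    refine ⟨?_, ?_, ?_, ?_⟩
    · unfold beta
      rw [← map_sub, b1_Phi_sub]
      have := hder (Phi P (h - h'))
      nlinarith
    · have e : tau P h - tau P h' = mon wW 1 * (ex (Phi P h) - ex (Phi P h')) := by
        unfold tau
        ring
      have k1 := a6 (Phi P h) (Phi P h') (82 / 100000) hPhis hPhis'
      rw [b1_Phi_sub] at k1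
      have k2 := b1_exp1 (x := 82 / 100000) (by norm_num) (by norm_num)
      have k3 : Real.exp (82 / 100000) ≤ 1 + 83 / 100000 := by linarith
      have k4 : Real.exp (82 / 100000) * ‖Phi P (h - h')‖ ≤
          (1 + 83 / 100000) * (41 / 50 * ‖h - h'‖) :=
        mul_le_mul k3 (hPd.trans hnud) (norm_nonneg _) (by norm_num)
      rw [e]
      calc ‖mon wW 1 * (ex (Phi P h) - ex (Phi P h'))‖ ≤
          ‖mon wW 1‖ * ‖ex (Phi P h) - ex (Phi P h')‖ := norm_mul_le _ _
        _ ≤ 1126125 / 1000000 * ((1 + 83 / 100000) * (41 / 50 * ‖h - h'‖)) := by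
          rw [hmon]
          exact mul_le_mul_of_nonneg_left (k1.trans k4) (by norm_num)
        _ ≤ 93 / 100 * ‖h - h'‖ := by nlinarith
    · have s1 := b1_small' hP h
      have s2 := b1_small' hP h'
      have s3 := b1_small' hP (h - h')
      have k1 := a6 ((2 / P.ρ) • h) ((2 / P.ρ) • h') (1 / 1000) (by linarith) (by linarith)
      rw [← smul_sub] at k1
      have k2 := b1_exp1 (x := 1 / 1000) (by norm_num) (by norm_num)
      have k3 : Real.exp (1 / 1000) ≤ 1 + 2 / 1000 := by linarith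
      have k4 : Real.exp (1 / 1000) * ‖(2 / P.ρ) • (h - h')‖ ≤
          (1 + 2 / 1000) * (2 / 10000 * ‖h - h'‖) :=
        mul_le_mul k3 s3 (norm_nonneg _) (by norm_num)
      unfold YY
      refine (k1.trans k4).trans ?_
      norm_num
      nlinarith
    · have e : (xi P h - h) - (xi P h' - h') = (P.ρ / 2) •
          ((YY P h' - 1) * (ex ((2 / P.ρ) • (h - h')) - 1) +
            (ex ((2 / P.ρ) • (h - h')) - 1 - (2 / P.ρ) • (h - h'))) := by
        rw [b1_xi_eq hP, b1_xi_eq hP, ← smul_sub]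
        congr 1
        have e1 : ex ((2 / P.ρ) • h) = ex ((2 / P.ρ) • (h - h')) * ex ((2 / P.ρ) • h') := by
          rw [← a7, ← smul_add, sub_add_cancel]
        rw [e1, smul_sub]
        unfold YY
        ring
      have s3 := b1_small' hP (h - h')
      have s4 := b1_small hP (h - h')
      have hd2 : ‖h - h'‖ ≤ 2 / 1000 := by
        have := norm_sub_le h h'
        linarith
      set D := ‖(2 / P.ρ) • (h - h')‖ with hD
      have hD0 : 0 ≤ D := norm_nonneg _
      have hDs : D ≤ 4 / 10 ^ 7 := by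
        norm_num
        linarith
      have k1 := a4 ((2 / P.ρ) • (h - h'))
      have k2 := a5 ((2 / P.ρ) • (h - h'))
      rw [← hD] at k1 k2
      have k3 := b1_exp1 hD0 (by linarith)
      have k4 := b1_exp2 hD0 (by linarith)
      have k5 : ‖YY P h' - 1‖ ≤ 201 / 10 ^ 9 := by
        have := hYY h' hh'
        norm_num at this ⊢
        linarith
      have k6 : P.ρ / 2 * D = ‖h - h'‖ := by
        rw [s4]
        field_simp
      have k7 : ‖(YY P h' - 1) * (ex ((2 / P.ρ) • (h - h')) - 1) +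
            (ex ((2 / P.ρ) • (h - h')) - 1 - (2 / P.ρ) • (h - h'))‖ ≤
          201 / 10 ^ 9 * (D * (1 + D)) + D ^ 2 := by
        refine (norm_add_le _ _).trans (add_le_add ((norm_mul_le _ _).trans ?_) (k2.trans k4))
        exact mul_le_mul k5 (k1.trans k3) (norm_nonneg _) (by positivity)
      rw [e, norm_smul, Real.norm_eq_abs, abs_of_pos (by positivity)]
      calc P.ρ / 2 * _ ≤ P.ρ / 2 * (201 / 10 ^ 9 * (D * (1 + D)) + D ^ 2) :=
          mul_le_mul_of_nonneg_left k7 (by positivity)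
        _ = (P.ρ / 2 * D) * (201 / 10 ^ 9 * (1 + D) + D) := by ring
        _ ≤ ‖h - h'‖ * (1 / 1000) := by
          rw [k6]
          refine mul_le_mul_of_nonneg_left ?_ hd0
          norm_num at hDs ⊢
          linarith
        _ = ‖h - h'‖ / 1000 := by ring

end Pool.Agent.N229.SC
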