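import Pool.Agent.N229.SC.Stm

/-!
Project SC (helper229), part B3: Lipschitz bounds of the functions `q_i`, `v_i`, `V_i`, `Q_i`.
-/

set_option autoImplicit false

open Set Filter Topology

namespace Pool.Agent.N229.SC

theorem b3_prod (β β' u u' : A) :
    (1 + β) * u - (1 + β') * u' = (β - β') * u + (1 + β') * (u - u') := by
  ring

theorem b3_nat (i : ℕ) : ((i : ℝ) + 1) * (3 / 2) ^ i ≤ 3 ^ i := by
  induction i with
  | zero => norm_num
  | succ i ih =>
    have h1 : (0 : ℝ) ≤ (3 / 2) ^ i := by positivity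
    have h2 : (0 : ℝ) ≤ i := Nat.cast_nonneg i
    rw [pow_succ, pow_succ]
    push_cast
    nlinarith

theorem b3_fac (i : ℕ) : ((i : ℝ) + 1) ≤ ((i + 1).factorial : ℝ) := by
  have h : i + 1 ≤ (i + 1).factorial := Nat.self_le_factorial _
  exact_mod_cast h

theorem b3_three (i : ℕ) : (3 : ℝ) ≤ 3 ^ (i + 1) := by
  have h : (1 : ℝ) ≤ 3 ^ i := one_le_pow₀ (by norm_num)
  rw [pow_succ]
  linarith

theorem b3_e {T D : ℝ} (hT : 0 ≤ T) (hD : 0 ≤ D) :
    (3 / 10 ^ 4) * T * (186 / 100 * D) + 3 / 4 * (1 / 3 * T) * D ≤ 1001 / 1000 * D * T := by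
  have h := mul_nonneg hT hD
  nlinarith

theorem b3_f {T D : ℝ} (hT : 0 ≤ T) (hD : 0 ≤ D) :
    (3 / 10 ^ 4) * (3 / 2 * T) * (186 / 100 * D) + 5 / 8 * D * T ≤ 2 / 3 * D * T := by
  have h := mul_nonneg hT hD
  nlinarith

theorem b3_g {D : ℝ} (i : ℕ) (hD : 0 ≤ D) :
    5 / 8 * (5 / 8 + 5 / 8) * D + (((i + 1 : ℕ) : ℝ) + 1) / 8000 * (5 / 8 * D) ≤
      3 / 4 * (((i + 1 : ℕ) : ℝ) + 1) * D := by
  have h := mul_nonneg (Nat.cast_nonneg (α := ℝ) i) hD
  push_cast
  nlinarith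

theorem b3_h {F T x : ℝ} (hF : 0 ≤ F) (h : x ≤ T) :
    (3 / 2) * (x * F) ≤ 3 / 2 * (T * F) := by
  have := mul_le_mul_of_nonneg_right h hF
  linarith

theorem proof_B3 (hA1 : S_A1) (hA2 : S_A2) (_hA3 : S_A3) (hAB : S_AB) (hB1 : S_B1)
    (_hB2 : S_B2) : S_B3 := by
  intro P hP X h v y h' v' y' D hX0 hX hd hd' hh hv hy
  obtain ⟨haA, -, -, -, -, -, hn⟩ := hAB P hP
  have hD0 : 0 ≤ D := (norm_nonneg _).trans hv
  have hnu1 := hP.nu1
  have hnu2 := hP.nu2
  have hnu0 : 0 < P.nu := by linarith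
  have hX2 : X ^ 2 ≤ 9 / 10 ^ 8 := by nlinarith
  have hh1 : ‖h‖ ≤ 1 / 1000 := hd.nh.trans (by linarith)
  have hh1' : ‖h'‖ ≤ 1 / 1000 := hd'.nh.trans (by linarith)
  obtain ⟨-, -, -, hLip⟩ := hB1 P hP h hh1
  obtain ⟨hβL, hτL, -, -⟩ := hLip h' hh1'
  obtain ⟨⟨-, hβ', -⟩, -⟩ := hB1 P hP h' hh1'
  obtain ⟨⟨-, -, -, hinc1, hinc2⟩, -, -, -, -, -, hres1, hres2, -⟩ := hA2
  have hcf := (hA1 wW).2.1
  -- bounds of beta and tau
  have hβL' : ‖beta P h - beta P h'‖ ≤ 1312 / 100 * D := by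
    refine hβL.trans ?_
    have h1 : 8 * P.nu * ‖h - h'‖ ≤ 8 * (41 / 50) * (2 * D) := by gcongr
    linarith
  have hτL' : ‖tau P h - tau P h'‖ ≤ 186 / 100 * D := by
    refine hτL.trans ?_
    linarith
  have hβb : ‖beta P h'‖ ≤ 4 / 1000 := by
    refine hβ'.trans ?_
    have h1 : 8 * P.nu * ‖h'‖ ≤ 8 * (41 / 50) * (2 * (3 / 10 ^ 4)) := by
      have := hd'.nh
      gcongr
      linarith
    refine h1.trans (by norm_num)
  -- the vector in qq 0
  have hiv : ‖inc v‖ ≤ 36 / 10 ^ 8 := by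
    refine (hinc2 v hd.hv).trans ?_
    have := hd.nv
    nlinarith
  have hivv : ‖inc v - inc v'‖ ≤ 4 / 5 * D := by
    rw [← map_sub]
    refine (hinc2 (v - v') fun j hj => ?_).trans ?_
    · rw [hcf, hd.hv j hj, hd'.hv j hj, sub_zero]
    · linarith
  have hone : ‖(1 : A) + beta P h'‖ ≤ 1004 / 1000 := by
    refine (norm_add_le _ _).trans ?_
    rw [norm_one]
    linarith
  have hvec : ‖(1 + beta P h) * inc v - (1 + beta P h') * inc v'‖ ≤ 8033 / 10000 * D := by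
    rw [b3_prod]
    refine (norm_add_le _ _).trans ?_
    have h1 : ‖(beta P h - beta P h') * inc v‖ ≤ (1312 / 100 * D) * (36 / 10 ^ 8) :=
      (norm_mul_le _ _).trans (by gcongr)
    have h2 : ‖(1 + beta P h') * (inc v - inc v')‖ ≤ (1004 / 1000) * (4 / 5 * D) :=
      (norm_mul_le _ _).trans (by gcongr)
    nlinarith
  have e0 : qq P h v y 0 - qq P h' v' y' 0 =
      res P.n 0 ((1 + beta P h) * inc v - (1 + beta P h') * inc v') := by
    rw [map_sub]
    rfl
  have e1 : ∀ i, qq P h v y (i + 1) - qq P h' v' y' (i + 1) = res P.n (i + 1) (y i - y' i) := by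
    intro i
    rw [map_sub]
    rfl
  have ha : ‖inc (qq P h v y 0) - inc (qq P h' v' y' 0)‖ ≤ 41 / 100 * D := by
    rw [← map_sub, e0]
    refine (hres2 _ _ _).trans ?_
    nlinarith
  have ha' : ‖qq P h v y 0 - qq P h' v' y' 0‖ ≤ 503 / 1000 * D := by
    rw [e0]
    refine (hres1 _ _ _).trans ?_
    nlinarith
  have hb : ∀ i, ‖qq P h v y (i + 1) - qq P h' v' y' (i + 1)‖ ≤ 5 / 8 * D := by
    intro i
    rw [e1]
    refine (hres1 _ _ _).trans ?_
    linarith [hy i]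
  have hc : ∀ i, ‖inc (qq P h v y (i + 1)) - inc (qq P h' v' y' (i + 1))‖ ≤ 1 / 2 * D := by
    intro i
    rw [← map_sub, e1]
    refine (hres2 _ _ _).trans ?_
    linarith [hy i]
  -- vv
  have hn0 : (0 : ℝ) < P.n := by linarith
  have hnu3 : 1 / (2 * P.nu) ≤ 5 / 8 := by
    rw [div_le_iff₀ (by positivity)]
    linarith
  have hnu4 : 0 ≤ 1 / (2 * P.nu) := by positivity
  have ev : ∀ i, vv P h v y (i + 1) - vv P h' v' y' (i + 1) =
      (1 / (2 * P.nu)) • ((qq P h v y i - qq P h' v' y' i) +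
        (qq P h v y (i + 2) - qq P h' v' y' (i + 2))) -
      (((i : ℝ) + 1) / P.n) • (qq P h v y (i + 1) - qq P h' v' y' (i + 1)) := by
    intro i
    show ((1 / (2 * P.nu)) • (qq P h v y i + qq P h v y (i + 2)) -
      (((i : ℝ) + 1) / P.n) • qq P h v y (i + 1)) -
      ((1 / (2 * P.nu)) • (qq P h' v' y' i + qq P h' v' y' (i + 2)) -
      (((i : ℝ) + 1) / P.n) • qq P h' v' y' (i + 1)) = _
    module
  have hvv : ∀ (i : ℕ) (q : ℝ), ‖qq P h v y i - qq P h' v' y' i‖ ≤ q * D →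
      ‖vv P h v y (i + 1) - vv P h' v' y' (i + 1)‖ ≤
        5 / 8 * (q + 5 / 8) * D + ((i : ℝ) + 1) / 8000 * (5 / 8 * D) := by
    intro i q hq
    rw [ev]
    refine (norm_sub_le _ _).trans (add_le_add ?_ ?_)
    · rw [norm_smul, Real.norm_eq_abs, abs_of_nonneg hnu4]
      have h1 : ‖(qq P h v y i - qq P h' v' y' i) +
          (qq P h v y (i + 2) - qq P h' v' y' (i + 2))‖ ≤ q * D + 5 / 8 * D :=
        (norm_add_le _ _).trans (add_le_add hq (hb (i + 1)))
      calc 1 / (2 * P.nu) * ‖(qq P h v y i - qq P h' v' y' i) +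
            (qq P h v y (i + 2) - qq P h' v' y' (i + 2))‖
          ≤ 5 / 8 * (q * D + 5 / 8 * D) := by
            refine mul_le_mul hnu3 h1 (norm_nonneg _) (by norm_num)
        _ = 5 / 8 * (q + 5 / 8) * D := by ring
    · have h0 : (0 : ℝ) ≤ (i : ℝ) + 1 := by positivity
      rw [norm_smul, Real.norm_eq_abs, abs_of_nonneg (by positivity)]
      refine mul_le_mul ?_ (hb i) (norm_nonneg _) (by positivity)
      exact div_le_div_of_nonneg_left h0 (by norm_num) hn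
  have hd1 : ‖vv P h v y 1 - vv P h' v' y' 1‖ ≤ 3 / 4 * D := by
    have h1 := hvv 0 (503 / 1000) ha'
    refine h1.trans ?_
    push_cast
    nlinarith
  have hd2 : ∀ i : ℕ, ‖vv P h v y (i + 1) - vv P h' v' y' (i + 1)‖ ≤ 3 / 4 * ((i : ℝ) + 1) * D := by
    intro i
    rcases i with _ | i
    · have h1 := hd1
      norm_num
      linarith
    · have h1 := hvv (i + 1) (5 / 8) (hb i)
      exact h1.trans (b3_g i hD0)
  refine ⟨ha, hb, hc, hd1, ?_, ?_⟩
  · intro i
    have ei : Vh P X h v y i - Vh P X h' v' y' i = (X * P.a i) • (tau P h - tau P h') +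
        (vv P h v y i - vv P h' v' y' i) := by
      show ((X * P.a i) • tau P h + vv P h v y i) - ((X * P.a i) • tau P h' + vv P h' v' y' i) = _
      module
    rw [ei]
    refine (norm_add_le _ _).trans ?_
    rw [norm_smul, Real.norm_eq_abs, abs_mul, abs_of_pos hX0]
    rcases i with _ | i
    · have h1 : |P.a 0| ≤ 31 / 10 ^ 10 := by
        rw [abs_of_nonneg (by linarith [hP.a0])]
        exact hP.a0'
      have h2 : X * |P.a 0| * ‖tau P h - tau P h'‖ ≤
          (3 / 10 ^ 4) * (31 / 10 ^ 10) * (186 / 100 * D) := by gcongr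
      have h3 : ‖vv P h v y 0 - vv P h' v' y' 0‖ ≤ D := hv
      norm_num at h2 ⊢
      linarith
    · have h1 := haA (i + 1)
      have h2 : ((3 : ℝ) / 2) ^ (i + 1) ≤ 3 ^ (i + 1) := by gcongr; norm_num
      have hF : (0 : ℝ) < ((i + 1).factorial : ℝ) := by exact_mod_cast Nat.factorial_pos _
      have h3 : X * |P.a (i + 1)| * ‖tau P h - tau P h'‖ ≤
          (3 / 10 ^ 4) * (3 ^ (i + 1) * (i + 1).factorial) * (186 / 100 * D) := by
        have h4 : |P.a (i + 1)| ≤ 3 ^ (i + 1) * (i + 1).factorial :=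
          h1.trans (mul_le_mul_of_nonneg_right h2 hF.le)
        gcongr
      have h5 := hd2 i
      have h6 : ((i : ℝ) + 1) ≤ 1 / 3 * (3 ^ (i + 1) * (i + 1).factorial) := by
        have h7 : (3 : ℝ) * ((i : ℝ) + 1) ≤ 3 ^ (i + 1) * (i + 1).factorial :=
          mul_le_mul (b3_three i) (b3_fac i) (by positivity) (by positivity)
        linarith
      have h9 : 3 / 4 * ((i : ℝ) + 1) * D ≤
          3 / 4 * (1 / 3 * (3 ^ (i + 1) * (i + 1).factorial)) * D := by gcongr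
      have h10 : (0 : ℝ) ≤ (3 : ℝ) ^ (i + 1) * (i + 1).factorial := by positivity
      calc X * |P.a (i + 1)| * ‖tau P h - tau P h'‖ +
            ‖vv P h v y (i + 1) - vv P h' v' y' (i + 1)‖
          ≤ (3 / 10 ^ 4) * (3 ^ (i + 1) * (i + 1).factorial) * (186 / 100 * D) +
            3 / 4 * (1 / 3 * (3 ^ (i + 1) * (i + 1).factorial)) * D :=
            add_le_add h3 (h5.trans h9)
        _ ≤ 1001 / 1000 * D * (3 ^ (i + 1) * (i + 1).factorial) := b3_e h10 hD0
  · intro i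
    have ei : Qh P X h v y i - Qh P X h' v' y' i = (X * P.a (i + 1)) • (tau P h - tau P h') +
        (qq P h v y (i + 1) - qq P h' v' y' (i + 1)) := by
      show (P.b i • (1 : W) + (X * P.a (i + 1)) • tau P h + qq P h v y (i + 1)) -
        (P.b i • (1 : W) + (X * P.a (i + 1)) • tau P h' + qq P h' v' y' (i + 1)) = _
      module
    rw [ei]
    refine (norm_add_le _ _).trans ?_
    rw [norm_smul, Real.norm_eq_abs, abs_mul, abs_of_pos hX0]
    have h1 := haA (i + 1)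
    have hF : (0 : ℝ) < (i.factorial : ℝ) := by exact_mod_cast Nat.factorial_pos _
    have h2 : |P.a (i + 1)| ≤ 3 / 2 * (3 ^ i * i.factorial) := by
      refine h1.trans ?_
      refine le_trans (le_of_eq ?_) (b3_h hF.le (b3_nat i))
      rw [Nat.factorial_succ, pow_succ]
      push_cast
      ring
    have h3 : X * |P.a (i + 1)| * ‖tau P h - tau P h'‖ ≤
        (3 / 10 ^ 4) * (3 / 2 * (3 ^ i * i.factorial)) * (186 / 100 * D) := by gcongr
    have h4 : (1 : ℝ) ≤ 3 ^ i * i.factorial := by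
      have h5 : (1 : ℝ) ≤ 3 ^ i := one_le_pow₀ (by norm_num)
      have h6 : (1 : ℝ) ≤ (i.factorial : ℝ) := by exact_mod_cast Nat.factorial_pos _
      nlinarith
    have h5 : 5 / 8 * D ≤ 5 / 8 * D * (3 ^ i * i.factorial) :=
      le_mul_of_one_le_right (by positivity) h4
    have h10 : (0 : ℝ) ≤ (3 : ℝ) ^ i * i.factorial := by positivity
    calc X * |P.a (i + 1)| * ‖tau P h - tau P h'‖ +
          ‖qq P h v y (i + 1) - qq P h' v' y' (i + 1)‖
        ≤ (3 / 10 ^ 4) * (3 / 2 * (3 ^ i * i.factorial)) * (186 / 100 * D) +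
          5 / 8 * D * (3 ^ i * i.factorial) := add_le_add h3 ((hb i).trans h5)
      _ ≤ 2 / 3 * D * (3 ^ i * i.factorial) := b3_f h10 hD0

end Pool.Agent.N229.SC
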