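import Pool.Agent.N229.SC.Stm

/-!
Project SC (helper229), problem MP_83fd13_an: change of variables (helper617).
-/

set_option autoImplicit false

open Set Filter Topology MeasureTheory

namespace Pool.Agent.N229.SC

private theorem cv_det (w : ℂ) :
    (((ContinuousLinearMap.toSpanSingleton ℂ w).restrictScalars ℝ : ℂ →L[ℝ] ℂ)).det = ‖w‖ ^ 2 := by
  have h1 : (((ContinuousLinearMap.toSpanSingleton ℂ w).restrictScalars ℝ : ℂ →L[ℝ] ℂ)).det =
      LinearMap.det (((ContinuousLinearMap.toSpanSingleton ℂ w).restrictScalars ℝ : ℂ →L[ℝ] ℂ) :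
        ℂ →ₗ[ℝ] ℂ) := rfl
  rw [h1, ← LinearMap.det_toMatrix Complex.basisOneI, Matrix.det_fin_two]
  simp only [LinearMap.toMatrix_apply]
  have h3 : ‖w‖ ^ 2 = w.re * w.re + w.im * w.im := by
    rw [← Complex.normSq_eq_norm_sq, Complex.normSq_apply]
  simp [h3, Complex.coe_basisOneI_repr]

theorem proof_CV (hINJ : S_INJ) : S_CV := by
  intro ρ r f hC ψ
  have hr := hC.r_gt
  have hsub : Metric.ball (0 : ℂ) 1 ⊆ Metric.ball 0 r := Metric.ball_subset_ball hr.le
  have hinj : InjOn f (Metric.ball 0 1) := ((hINJ ρ r f hC).2).mono hsub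
  have hder : ∀ z ∈ Metric.ball (0 : ℂ) 1, HasFDerivWithinAt f
      (((ContinuousLinearMap.toSpanSingleton ℂ (deriv f z)).restrictScalars ℝ : ℂ →L[ℝ] ℂ))
      (Metric.ball 0 1) z := by
    intro z hz
    have h1 : DifferentiableAt ℂ f z :=
      (hC.f_diff z (hsub hz)).differentiableAt (Metric.isOpen_ball.mem_nhds (hsub hz))
    have h2 := h1.hasDerivAt.hasFDerivAt
    exact (h2.restrictScalars ℝ).hasFDerivWithinAt
  unfold Om
  rw [integral_image_eq_integral_abs_det_fderiv_smul volume Metric.isOpen_ball.measurableSet hder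
    hinj ψ]
  refine integral_congr_ae (Eventually.of_forall fun z => ?_)
  simp only [cv_det, smul_eq_mul, abs_of_nonneg (sq_nonneg ‖deriv f z‖)]

end Pool.Agent.N229.SC
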