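import Pool.Agent.N229.SC.Stm

/-!
SC/DIV (helper50): the integral of a derivative over the disc.
-/

open MeasureTheory Set Filter Topology

set_option autoImplicit false

namespace Pool.Agent.N229.SC

/-- the function is Lipschitz -/
private lemma div_lip (F : ℂ → ℝ) (B : ℝ) (hF : Continuous F) (hz : ∀ z : ℂ, 1 ≤ ‖z‖ → F z = 0)
    (hd : ∀ z ∈ Metric.ball (0 : ℂ) 1, DifferentiableAt ℝ F z)
    (hB : ∀ z ∈ Metric.ball (0 : ℂ) 1, ‖fderiv ℝ F z‖ ≤ B) : LipschitzWith B.toNNReal F := by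
  have h1 : LipschitzOnWith B.toNNReal F (Metric.ball 0 1) :=
    Convex.lipschitzOnWith_of_nnnorm_fderiv_le hd (fun x hx => by
      have h := hB x hx
      rw [← NNReal.coe_le_coe, coe_nnnorm, Real.coe_toNNReal']
      exact h.trans (le_max_left _ _)) (convex_ball _ _)
  have h2 : LipschitzOnWith B.toNNReal F (Metric.closedBall 0 1) := by
    have := LipschitzOnWith.closure hF.continuousOn h1
    rwa [closure_ball (0 : ℂ) one_ne_zero] at this
  have key : ∀ z w : ℂ, ‖z‖ ≤ 1 → 1 ≤ ‖w‖ → |F z - F w| ≤ B.toNNReal * ‖z - w‖ := by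
    intro z w h3 h4
    have hc : ContinuousOn (fun t : ℝ => ‖z + (t : ℂ) * (w - z)‖) (Icc 0 1) := by fun_prop
    have h5 := intermediate_value_Icc (zero_le_one' ℝ) hc
    have h6 : (1 : ℝ) ∈ Icc (‖z + ((0 : ℝ) : ℂ) * (w - z)‖) (‖z + ((1 : ℝ) : ℂ) * (w - z)‖) := by
      rw [Complex.ofReal_zero, Complex.ofReal_one, zero_mul, add_zero, one_mul, add_sub_cancel]
      exact ⟨h3, h4⟩
    obtain ⟨t, ht, h7⟩ := h5 h6
    have h8 : F (z + (t : ℂ) * (w - z)) = 0 := hz _ (le_of_eq h7.symm)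
    have h9 := h2.dist_le_mul z (by simpa using h3) (z + (t : ℂ) * (w - z)) (by
      rw [mem_closedBall_zero_iff]
      exact le_of_eq h7)
    rw [Real.dist_eq, dist_eq_norm, h8] at h9
    rw [hz w h4]
    refine h9.trans (mul_le_mul_of_nonneg_left ?_ B.toNNReal.2)
    have e : z - (z + (t : ℂ) * (w - z)) = (t : ℂ) * (z - w) := by ring
    rw [e, norm_mul, Complex.norm_real, Real.norm_of_nonneg ht.1]
    calc t * ‖z - w‖ ≤ 1 * ‖z - w‖ := mul_le_mul_of_nonneg_right ht.2 (norm_nonneg _)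
      _ = ‖z - w‖ := one_mul _
  refine LipschitzWith.of_dist_le_mul fun z w => ?_
  rw [Real.dist_eq, dist_eq_norm]
  rcases le_total ‖z‖ 1 with h3 | h3 <;> rcases le_total ‖w‖ 1 with h4 | h4
  · have h5 := h2.dist_le_mul z (by simpa using h3) w (by simpa using h4)
    rwa [Real.dist_eq, dist_eq_norm] at h5
  · exact key z w h3 h4
  · rw [abs_sub_comm, norm_sub_rev]
    exact key w z h4 h3
  · rw [hz z h3, hz w h4, sub_zero, abs_zero]
    positivity

/-- **SC/DIV** -/
theorem proof_DIV : S_DIV := by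
  intro F B hF hz hC hB v
  have hd : ∀ z ∈ Metric.ball (0 : ℂ) 1, DifferentiableAt ℝ F z := fun z hz' =>
    (hC.differentiableOn (by norm_num)).differentiableAt (Metric.isOpen_ball.mem_nhds hz')
  have hL := div_lip F B hF hz hd hB
  have hcs : HasCompactSupport F := by
    refine HasCompactSupport.intro (isCompact_closedBall (0 : ℂ) 1) fun z hz' => hz z ?_
    rw [mem_closedBall_zero_iff, not_le] at hz'
    exact hz'.le
  have h1 := LipschitzWith.integral_lineDeriv_mul_eq (μ := volume)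
    (LipschitzWith.const (1 : ℝ) : LipschitzWith 0 fun _ : ℂ => (1 : ℝ)) hL hcs (-v)
  have h2 : ∫ z : ℂ, lineDeriv ℝ F z v = 0 := by
    rw [neg_neg] at h1
    have h3 : ∀ z : ℂ, lineDeriv ℝ (fun _ : ℂ => (1 : ℝ)) z (-v) = 0 := fun z => by
      simp [lineDeriv]
    simp only [h3, zero_mul, integral_zero, mul_one] at h1
    exact h1.symm
  have h3 : ∀ᵐ z : ℂ, z ∉ Metric.ball (0 : ℂ) 1 → lineDeriv ℝ F z v = 0 := by
    have h4 : ∀ᵐ z : ℂ, z ∉ Metric.sphere (0 : ℂ) 1 := by
      rw [ae_iff]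
      simp only [not_not, ofPred_mem_eq]
      exact Measure.addHaar_sphere volume (0 : ℂ) 1
    filter_upwards [h4] with z h5 h6
    have h7 : z ∈ (Metric.closedBall (0 : ℂ) 1)ᶜ := by
      intro h8
      rw [mem_closedBall_zero_iff] at h8
      rw [mem_ball_zero_iff, not_lt] at h6
      rw [mem_sphere_zero_iff_norm] at h5
      exact h5 (le_antisymm h8 h6)
    have h8 : F =ᶠ[𝓝 z] fun _ => 0 := by
      filter_upwards [Metric.isClosed_closedBall.isOpen_compl.mem_nhds h7] with y hy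
      refine hz y ?_
      rw [mem_compl_iff, mem_closedBall_zero_iff, not_le] at hy
      exact hy.le
    rw [h8.lineDeriv_eq]
    simp [lineDeriv]
  rw [← setIntegral_eq_integral_of_ae_compl_eq_zero h3] at h2
  rw [← h2]
  refine setIntegral_congr_fun measurableSet_ball fun z hz' => ?_
  exact ((hd z hz').lineDeriv_eq_fderiv).symm

end Pool.Agent.N229.SC
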