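import Pool.Agent.N229.SC.Stm

set_option autoImplicit false

open Set Filter Topology MeasureTheory

namespace Pool.Agent.N229.SC

private theorem eh_norm_le {w : ℤ → ℝ} [Wt w] (hw : ∀ j : ℤ, Rad ^ j.natAbs ≤ w j)
    (a : Al w) (z : ℂ) (hz : ‖z‖ ≤ Rad) (k : ℕ) :
    ‖(cf a (k : ℤ) : ℂ) * z ^ k‖ ≤ |cf a (k : ℤ)| * w (k : ℤ) := by
  rw [norm_mul, norm_pow, Complex.norm_real, Real.norm_eq_abs]
  refine mul_le_mul_of_nonneg_left ?_ (abs_nonneg _)
  calc ‖z‖ ^ k ≤ Rad ^ k := pow_le_pow_left₀ (norm_nonneg _) hz k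
    _ = Rad ^ ((k : ℤ)).natAbs := by rw [Int.natAbs_natCast]
    _ ≤ w (k : ℤ) := hw _

private theorem eh_sum (hA1 : S_A1) {w : ℤ → ℝ} [Wt w] (a : Al w) :
    Summable (fun k : ℕ => |cf a (k : ℤ)| * w (k : ℤ)) := by
  obtain ⟨-, -, -, -, -, -, -, h, -⟩ := hA1 w
  exact (h a).summable.comp_injective (i := fun k : ℕ => (k : ℤ)) Nat.cast_injective

private theorem eh_tsum_le (hA1 : S_A1) {w : ℤ → ℝ} [Wt w] (a : Al w) :
    ∑' k : ℕ, |cf a (k : ℤ)| * w (k : ℤ) ≤ ‖a‖ := by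
  obtain ⟨-, -, -, -, -, -, -, h, -⟩ := hA1 w
  rw [← (h a).tsum_eq]
  exact tsum_comp_le_tsum_of_inj (f := fun j : ℤ => |cf a j| * w j) (i := fun k : ℕ => (k : ℤ))
    (h a).summable (fun j => mul_nonneg (abs_nonneg _) (Wt.pos w j).le) Nat.cast_injective

private theorem eh_sumn (hA1 : S_A1) {w : ℤ → ℝ} [Wt w] (hw : ∀ j : ℤ, Rad ^ j.natAbs ≤ w j)
    (a : Al w) (z : ℂ) (hz : ‖z‖ ≤ Rad) :
    Summable (fun k : ℕ => ‖(cf a (k : ℤ) : ℂ) * z ^ k‖) :=
  Summable.of_nonneg_of_le (fun _ => norm_nonneg _) (eh_norm_le hw a z hz) (eh_sum hA1 a)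

private theorem eh_conv (hA1 : S_A1) {w : ℤ → ℝ} [Wt w] (a b : Al w)
    (ha : ∀ j < 0, cf a j = 0) (hb : ∀ j < 0, cf b j = 0) (k : ℕ) :
    cf (a * b) (k : ℤ) = ∑ i ∈ Finset.range (k + 1), cf a (i : ℤ) * cf b ((k - i : ℕ) : ℤ) := by
  obtain ⟨-, -, -, -, -, -, -, -, -, -, h, -⟩ := hA1 w
  have h1 := h a b (k : ℤ)
  have h2 : HasSum (fun j : ℤ => cf a j * cf b ((k : ℤ) - j))
      (∑ j ∈ (Finset.range (k + 1)).map Nat.castEmbedding, cf a j * cf b ((k : ℤ) - j)) := by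
    apply hasSum_sum_of_ne_finset_zero
    intro j hj
    by_cases h3 : j < 0
    · rw [ha j h3, zero_mul]
    · by_cases h4 : (k : ℤ) - j < 0
      · rw [hb _ h4, mul_zero]
      · exfalso
        apply hj
        rw [Finset.mem_map]
        refine ⟨j.toNat, ?_, ?_⟩
        · rw [Finset.mem_range]
          omega
        · show ((j.toNat : ℕ) : ℤ) = j
          omega
  rw [h1.unique h2, Finset.sum_map]
  apply Finset.sum_congr rfl
  intro i hi
  rw [Finset.mem_range] at hi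
  show cf a (i : ℤ) * cf b ((k : ℤ) - (i : ℤ)) = _
  rw [Nat.cast_sub (by omega)]

private theorem eh_der (hA1 : S_A1) (hA2 : S_A2) (a : W) (z : ℂ) (hz : ‖z‖ < Rad) :
    evh (der a) z = z * deriv (evh a) z := by
  obtain ⟨-, -, -, ⟨hd, -⟩, -⟩ := hA2
  have hR : (0 : ℝ) < Rad := zero_lt_one.trans_le one_le_Rad
  have hs : Summable (fun k : ℕ => 8 * (|cf a (k : ℤ)| * wW (k : ℤ))) :=
    (eh_sum hA1 a).mul_left 8
  have hD : HasDerivAt (fun z : ℂ => ∑' k : ℕ, (cf a (k : ℤ) : ℂ) * z ^ k)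
      (∑' k : ℕ, (cf a (k : ℤ) : ℂ) * ((k : ℂ) * z ^ (k - 1))) z := by
    refine hasDerivAt_tsum_of_isPreconnected (t := Metric.ball (0 : ℂ) Rad)
      (g := fun (k : ℕ) (z : ℂ) => (cf a (k : ℤ) : ℂ) * z ^ k)
      (g' := fun (k : ℕ) (z : ℂ) => (cf a (k : ℤ) : ℂ) * ((k : ℂ) * z ^ (k - 1)))
      (y₀ := 0) hs Metric.isOpen_ball
      (convex_ball _ _).isPreconnected ?_ ?_ ?_ ?_ ?_
    · intro k y _
      exact (hasDerivAt_pow k y).const_mul _
    · intro k y hy
      rw [Metric.mem_ball, dist_zero_right] at hy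
      rw [norm_mul, norm_mul, norm_pow, Complex.norm_real, Real.norm_eq_abs, Complex.norm_natCast]
      have h1 : (k : ℝ) * ‖y‖ ^ (k - 1) ≤ 8 * wW (k : ℤ) := by
        have h2 : ‖y‖ ^ (k - 1) ≤ Rad ^ k :=
          (pow_le_pow_left₀ (norm_nonneg _) hy.le _).trans
            (pow_le_pow_right₀ one_le_Rad (Nat.sub_le _ _))
        have h3 : (0 : ℝ) ≤ k := Nat.cast_nonneg _
        have h4 : (0 : ℝ) < Rad ^ k := pow_pos hR _
        unfold wW
        rw [Int.natAbs_natCast]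
        have h5 := mul_le_mul_of_nonneg_left h2 h3
        nlinarith
      have h6 := mul_le_mul_of_nonneg_left h1 (abs_nonneg (cf a (k : ℤ)))
      linarith
    · rw [Metric.mem_ball, dist_self]
      exact hR
    · apply summable_of_ne_finset_zero (s := {0})
      intro k hk
      rw [Finset.mem_singleton] at hk
      show (cf a (k : ℤ) : ℂ) * 0 ^ k = 0
      rw [zero_pow hk, mul_zero]
    · rw [Metric.mem_ball, dist_zero_right]
      exact hz
  have hD' : deriv (evh a) z = ∑' k : ℕ, (cf a (k : ℤ) : ℂ) * ((k : ℂ) * z ^ (k - 1)) := hD.deriv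
  rw [hD', ← tsum_mul_left]
  unfold evh
  apply tsum_congr
  intro k
  rw [hd]
  rcases Nat.eq_zero_or_pos k with h0 | h0
  · subst h0
    simp
  · obtain ⟨l, rfl⟩ : ∃ l, k = l + 1 := ⟨k - 1, by omega⟩
    rw [Nat.add_sub_cancel]
    push_cast
    ring

theorem proof_EH (hA1 : S_A1) (hA2 : S_A2) : S_EH := by
  intro w _ hw
  refine ⟨?_, ?_, ?_, ?_, ?_, ?_, ?_, ?_⟩
  · intro a
    refine Complex.differentiableOn_tsum_of_summable_norm (eh_sum hA1 a) ?_ Metric.isOpen_ball ?_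
    · intro k
      exact (differentiable_pow k).differentiableOn.const_mul _
    · intro k z hz
      rw [Metric.mem_ball, dist_zero_right] at hz
      exact eh_norm_le hw a z hz.le k
  · intro a z hz
    unfold evh
    refine (norm_tsum_le_tsum_norm (eh_sumn hA1 hw a z hz)).trans ?_
    refine le_trans ?_ (eh_tsum_le hA1 a)
    exact (eh_sumn hA1 hw a z hz).tsum_le_tsum (eh_norm_le hw a z hz) (eh_sum hA1 a)
  · intro a b z hz
    unfold evh
    rw [← (eh_sumn hA1 hw a z hz).of_norm.tsum_add (eh_sumn hA1 hw b z hz).of_norm]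
    apply tsum_congr
    intro k
    rw [(hA1 w).1]
    push_cast
    ring
  · intro r a z
    obtain ⟨-, -, -, -, h, -⟩ := hA1 w
    unfold evh
    rw [← tsum_mul_left]
    apply tsum_congr
    intro k
    rw [h]
    push_cast
    ring
  · intro a b z hz ha hb
    unfold evh
    rw [tsum_mul_tsum_eq_tsum_sum_range_of_summable_norm (eh_sumn hA1 hw a z hz)
      (eh_sumn hA1 hw b z hz)]
    apply tsum_congr
    intro k
    rw [eh_conv hA1 a b ha hb]
    push_cast
    rw [Finset.sum_mul]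
    apply Finset.sum_congr rfl
    intro i hi
    rw [Finset.mem_range] at hi
    have h1 : z ^ k = z ^ i * z ^ (k - i) := by
      rw [← pow_add]
      congr 1
      omega
    rw [h1]
    ring
  · intro a
    unfold evh
    rw [tsum_eq_single 0]
    · simp
    · intro k hk
      rw [zero_pow hk, mul_zero]
  · intro a z hz
    exact eh_der hA1 hA2 a z hz
  · intro a z
    obtain ⟨⟨hi, -⟩, -⟩ := hA2
    unfold evh
    apply tsum_congr
    intro k
    rw [hi]

end Pool.Agent.N229.SC
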