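import Pool.Agent.N229.SC.Stm

/-!
Project SC (helper229), problem MP_83fd13_an: assembly.
-/

set_option autoImplicit false

open Set Filter Topology MeasureTheory

namespace Pool.Agent.N229.SC

theorem finalC (hEXI : S_EXI) (hNUM : S_NUM) (hFN1 : S_FN1) (hFN2 : S_FN2) (hFN3 : S_FN3)
    (hFN4 : S_FN4) (hFN5 : S_FN5) (hPDE : S_PDE) (hTOP : S_TOP) (hLIP : S_LIP) (hNB : S_NB)
    (hWK1 : S_WK1) (hWK2 : S_WK2) (hWK3 : S_WK3) : FinalC := by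
  obtain ⟨P, hG, hbd⟩ := hNUM
  obtain ⟨X, h, v, y, hX, hX', hsol, hO, hh⟩ := hEXI P hG
  have hF : Full P X h v y := ⟨hG, hbd, hX, hX', hsol, hO, hh⟩
  obtain ⟨hconf, hnd⟩ := hFN1 P X h v y hF
  obtain ⟨hQd, hQb⟩ := hFN2 P X h v y hF
  have hStr : Str P.ρ (rF P) (fF P h) (QF P X h v y) :=
    ⟨hconf, hQd, hQb, hFN3 P X h v y hF, hFN4 P X h v y hF, hFN5 P X h v y hF⟩
  obtain ⟨r', c, U, S, hr1, hr2, hCl⟩ := hPDE _ _ _ _ hStr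
  obtain ⟨t1, t2, t3, t4, t5, t6⟩ := hTOP _ _ _ hconf
  obtain ⟨w1, w2, w3⟩ := hWK1 _ _ _ _ _ _ _ hconf hr1 hr2 hCl
  refine ⟨Om (fF P h), t1, t2, t3, t4, t6, ?_, hNB _ _ _ hconf hnd, 1, c, uF (fF P h) U,
    GF (fF P h) S, one_pos, w1, w2, ?_, ?_, w3⟩
  · intro p hp
    rw [t5] at hp
    obtain ⟨z, hz, rfl⟩ := hp
    exact hLIP _ _ _ hconf z (by simpa using hz)
  · exact hWK2 _ _ _ _ _ _ _ hconf hr1 hr2 hCl
  · exact hWK3 _ _ _ _ _ _ _ hconf hr1 hr2 hCl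

end Pool.Agent.N229.SC
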