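import Pool.Agent.N229.SC.Stm

/-!
Project SC (helper229), problem MP_83fd13_an: the main estimate of the bifurcation function.
-/

set_option autoImplicit false

open Set Filter Topology

namespace Pool.Agent.N229.SC

/-! ### Coefficients -/

private lemma gg_mon (hA1 : S_A1) (i : ℤ) (z : W) (k : ℤ) : cf (mon wW i * z) k = cf z (k - i) := by
  obtain ⟨-, -, -, -, -, hm, -, -, -, -, hs, -, -⟩ := hA1 wW
  have h1 := hs (mon wW i) z k
  have h2 : HasSum (fun j => cf (mon wW i) j * cf z (k - j)) (cf z (k - i)) := by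
    have h3 := hasSum_single (f := fun j => cf (mon wW i) j * cf z (k - j)) i (fun j hj => by
      rw [hm, if_neg (Ne.symm hj), zero_mul])
    simp only [hm, if_true, one_mul] at h3 ⊢
    exact h3
  exact h1.unique h2

private lemma gg_cc (hA1 : S_A1) (z : W) (k : ℤ) :
    cf (cc * z) k = (cf z (k - 1) + cf z (k + 1)) / 2 := by
  obtain ⟨ha, -, -, -, hr, -⟩ := hA1 wW
  have h1 : cc * z = (1 / 2 : ℝ) • (mon wW 1 * z + mon wW (-1) * z) := by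
    unfold cc
    rw [smul_mul_assoc, add_mul]
  rw [h1, hr, ha, gg_mon hA1, gg_mon hA1, sub_neg_eq_add]
  ring

private lemma gg_cc0 (hA1 : S_A1) (k : ℤ) :
    cf cc k = ((if 1 = k then 1 else 0) + (if -1 = k then 1 else 0)) / 2 := by
  obtain ⟨ha, -, -, -, hr, hm, -⟩ := hA1 wW
  unfold cc
  rw [hr, ha, hm, hm]
  ring

private lemma gg_fun (hA1 : S_A1) (hA2 : S_A2) : ∃ D m : W →L[ℝ] ℝ,
    (∀ z, D z = cf z 1 - cf z (-1)) ∧ (∀ z, m z = cf z 0 - (cf z 2 + cf z (-2)) / 2) ∧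
    (∀ z, |D z| ≤ ‖z‖) ∧ (∀ z, |m z| ≤ ‖z‖) ∧ ∀ z, m (conj z) = m z := by
  obtain ⟨-, -, -, -, -, -, -, hn, -, -, -, -, hL⟩ := hA1 wW
  obtain ⟨L1, h1⟩ := hL 1
  obtain ⟨L1', h1'⟩ := hL (-1)
  obtain ⟨L0, h0⟩ := hL 0
  obtain ⟨L2, h2⟩ := hL 2
  obtain ⟨L2', h2'⟩ := hL (-2)
  have hc : ∀ (z : W) (j : ℤ), cf (conj z) j = cf z (-j) := hA2.2.1.1
  have hw : ∀ j, 1 ≤ wW j := fun j => Wt.one_le j
  refine ⟨L1 - L1', L0 - (1/2 : ℝ) • (L2 + L2'), fun z => ?_, fun z => ?_, fun z => ?_,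
    fun z => ?_, fun z => ?_⟩
  · rw [sub_apply, h1, h1']
  · simp only [sub_apply, smul_apply, add_apply, h0, h2, h2', smul_eq_mul]
    ring
  · rw [sub_apply, h1, h1']
    have h3 : |cf z 1| * wW 1 + |cf z (-1)| * wW (-1) ≤ ‖z‖ := by
      have := sum_le_hasSum ({1, -1} : Finset ℤ) (fun j _ => by
        have := Wt.pos wW j
        positivity) (hn z)
      rwa [Finset.sum_pair (by norm_num)] at this
    have h4 : |cf z 1| ≤ |cf z 1| * wW 1 := le_mul_of_one_le_right (abs_nonneg _) (hw 1)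
    have h5 : |cf z (-1)| ≤ |cf z (-1)| * wW (-1) := le_mul_of_one_le_right (abs_nonneg _) (hw (-1))
    have h6 := abs_sub (cf z 1) (cf z (-1))
    linarith
  · simp only [sub_apply, smul_apply, add_apply, h0, h2, h2', smul_eq_mul]
    have h3 : |cf z 0| * wW 0 + (|cf z 2| * wW 2 + |cf z (-2)| * wW (-2)) ≤ ‖z‖ := by
      have := sum_le_hasSum ({0, 2, -2} : Finset ℤ) (fun j _ => by
        have := Wt.pos wW j
        positivity) (hn z)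
      rwa [Finset.sum_insert (by decide), Finset.sum_pair (by norm_num)] at this
    have h4 : |cf z 0| ≤ |cf z 0| * wW 0 := le_mul_of_one_le_right (abs_nonneg _) (hw 0)
    have h5 : |cf z 2| ≤ |cf z 2| * wW 2 := le_mul_of_one_le_right (abs_nonneg _) (hw 2)
    have h6 : |cf z (-2)| ≤ |cf z (-2)| * wW (-2) := le_mul_of_one_le_right (abs_nonneg _) (hw (-2))
    have h7 := abs_sub (cf z 0) (1 / 2 * (cf z 2 + cf z (-2)))
    have h8 : |1 / 2 * (cf z 2 + cf z (-2))| ≤ 1 / 2 * (|cf z 2| + |cf z (-2)|) := by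
      rw [abs_mul, abs_of_pos (by norm_num : (0 : ℝ) < 1 / 2)]
      exact mul_le_mul_of_nonneg_left (abs_add_le _ _) (by norm_num)
    have h9 := abs_nonneg (cf z 2)
    have h10 := abs_nonneg (cf z (-2))
    linarith
  · simp only [sub_apply, smul_apply, add_apply, h0, h2, h2', smul_eq_mul, hc]
    norm_num
    ring

/-! ### Norms -/

private lemma gg_nm {a b : W} {x y : ℝ} (ha : ‖a‖ ≤ x) (hb : ‖b‖ ≤ y) : ‖a * b‖ ≤ x * y :=
  (norm_mul_le a b).trans (mul_le_mul ha hb (norm_nonneg _) ((norm_nonneg _).trans ha))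

private lemma gg_na {a b : W} {x y : ℝ} (ha : ‖a‖ ≤ x) (hb : ‖b‖ ≤ y) : ‖a + b‖ ≤ x + y :=
  (norm_add_le a b).trans (add_le_add ha hb)

private lemma gg_ns {a : W} {r s x : ℝ} (hr : |r| ≤ s) (ha : ‖a‖ ≤ x) : ‖r • a‖ ≤ s * x := by
  rw [norm_smul, Real.norm_eq_abs]
  exact mul_le_mul hr ha (norm_nonneg _) ((abs_nonneg _).trans hr)

private lemma gg_am {a b x y : ℝ} (ha : |a| ≤ x) (hb : |b| ≤ y) : |a * b| ≤ x * y := by
  rw [abs_mul]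
  exact mul_le_mul ha hb (abs_nonneg _) ((abs_nonneg _).trans ha)

private lemma gg_w1 : ‖(mon wW 1 : W)‖ = 1126125 / 1000000 := by
  rw [norm_mon]
  simp only [wW, Rad, Int.natAbs_one]
  norm_num

private lemma gg_w1' : ‖(mon wW (-1) : W)‖ = 1126125 / 1000000 := by
  rw [norm_mon, Wt.neg (w := wW), ← norm_mon (w := wW) 1]
  exact gg_w1

private lemma gg_cn : ‖cc‖ ≤ 11262 / 10000 := by
  unfold cc
  have h1 := gg_na (le_of_eq gg_w1) (le_of_eq gg_w1')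
  have h2 := gg_ns (r := 1 / 2) (s := 1 / 2) (by rw [abs_of_pos (by norm_num)]) h1
  exact h2.trans (by norm_num)

/-- The small parameter. -/
private lemma gg_X {P : Par} {X : ℝ} {h v : W} {y : ℕ → A} (H : Hyp P X h v y) :
    0 < X ∧ X ≤ 28 / 10 ^ 5 ∧ 0 < P.a 0 ∧ P.a 0 ≤ X ^ 2 ∧ 1 / 10 ^ 9 ≤ X ^ 2 := by
  have h1 := H.good.a0
  have h2 := H.good.a0'
  have h3 : 0 < P.a 0 := lt_of_lt_of_le (by norm_num) h1
  have h4 : 0 < Real.sqrt (P.a 0) := Real.sqrt_pos.2 h3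
  have h5 : Real.sqrt (P.a 0) ≤ 56 / 10 ^ 6 := by
    rw [Real.sqrt_le_left (by norm_num)]
    refine h2.trans (by norm_num)
  have h6 := H.X1
  have h7 := H.X2
  have h8 : P.a 0 ≤ X ^ 2 := by
    rwa [Real.sqrt_le_left (h4.le.trans h6)] at h6
  exact ⟨lt_of_lt_of_le h4 h6, by linarith, h3, h8, h1.trans h8⟩

private lemma gg_dom {P : Par} {X : ℝ} {h v : W} {y : ℕ → A} (H : Hyp P X h v y) :
    Dom X h v y := ⟨H.sol.hc, H.sol.hv, H.sol.hy, H.sol.nh, H.sol.nv, H.sol.ny⟩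

/-- Elements close to `X c`. -/
private lemma gg_near {X : ℝ} (hX0 : 0 < X) (hX : X ≤ 28 / 10 ^ 5) {z : W}
    (h : ‖z - X • cc‖ ≤ 27 / 5 * X ^ 2) : ‖z‖ ≤ 1128 / 1000 * X := by
  have h1 : z = X • cc + (z - X • cc) := by abel
  have h2 := gg_na (gg_ns (r := X) (s := X) (by rw [abs_of_pos hX0]) gg_cn) h
  rw [← h1] at h2
  nlinarith

/-- The second order term of `τ`. -/
private lemma gg_tau (hA2 : S_A2) (hA3 : S_A3) (hB1 : S_B1) {P : Par} {X : ℝ} {h v : W}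
    {y : ℕ → A} (H : Hyp P X h v y) (hh : ‖h - X • cc‖ ≤ 27 / 5 * X ^ 2) :
    ‖tau P h - mon wW 1 - (P.nu * X) • (mon wW 1 * mon wW 1)‖ ≤ 6 * X ^ 2 := by
  obtain ⟨hX0, hX, -⟩ := gg_X H
  have hn := gg_near hX0 hX hh
  have hn1 : ‖h‖ ≤ 1 / 1000 := by linarith
  obtain ⟨hP, -⟩ := (hB1 P H.good h hn1).1
  obtain ⟨⟨-, -, -, -, hex, -⟩, -⟩ := hA3
  have hhol : hol cc = mon wW 1 := by
    unfold cc hol
    rw [map_smul, map_add, lft_mon, lft_mon]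
    simp only [Int.natAbs_one, Int.natAbs_neg, Nat.cast_one]
    rw [← two_smul ℝ (mon wW 1), smul_smul]
    norm_num
  have hnu0 := H.good.nu1
  have hnu1 := H.good.nu2
  have hholn : ‖hol (h - X • cc)‖ ≤ ‖h - X • cc‖ := hA2.2.2.1.2 _
  have e1 : Phi P h - (P.nu * X) • mon wW 1 = P.nu • hol (h - X • cc) := by
    rw [map_sub, map_smul, hhol, smul_sub, smul_smul]
    rfl
  have e2 : tau P h - mon wW 1 - (P.nu * X) • (mon wW 1 * mon wW 1) =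
      mon wW 1 * (ex (Phi P h) - 1 - Phi P h) + mon wW 1 * (Phi P h - (P.nu * X) • mon wW 1) := by
    unfold tau
    simp only [Algebra.smul_def]
    ring
  have hPn : ‖Phi P h‖ ≤ 925 / 1000 * X := by
    have h0 := norm_nonneg h
    nlinarith
  have hP0 := norm_nonneg (Phi P h)
  have h3 : ‖ex (Phi P h) - 1 - Phi P h‖ ≤ 856 / 1000 * X ^ 2 := by
    refine (hex (Phi P h)).trans ?_
    have h4 := Real.abs_exp_sub_one_sub_id_le (x := ‖Phi P h‖) (by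
      rw [abs_of_nonneg hP0]
      linarith)
    have h5 := le_abs_self (Real.exp ‖Phi P h‖ - 1 - ‖Phi P h‖)
    nlinarith
  have h4 : ‖Phi P h - (P.nu * X) • mon wW 1‖ ≤ 82 / 100 * (27 / 5 * X ^ 2) := by
    rw [e1]
    exact gg_ns (by rw [abs_of_nonneg (by linarith)]; linarith) (hholn.trans hh)
  rw [e2]
  have h5 := gg_na (gg_nm (le_of_eq gg_w1) h3) (gg_nm (le_of_eq gg_w1) h4)
  refine h5.trans ?_
  have := sq_nonneg X
  linarith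

/-! ### The series -/

private lemma gg_T4 (ξ : W) (c : ℕ → W) :
    ∑ i ∈ Finset.range 4, ((-1 : ℝ) ^ i * ((i.factorial : ℝ))⁻¹) • (ξ ^ i * c i) =
      c 0 - ξ * c 1 + (1 / 2 : ℝ) • (ξ ^ 2 * c 2) - (1 / 6 : ℝ) • (ξ ^ 3 * c 3) := by
  rw [Finset.sum_range_succ, Finset.sum_range_succ, Finset.sum_range_succ, Finset.sum_range_one]
  norm_num [Nat.factorial]
  abel

private lemma gg_T3 (ξ : W) (c : ℕ → W) :
    ∑ i ∈ Finset.range 3, ((-1 : ℝ) ^ i * ((i.factorial : ℝ))⁻¹) • (ξ ^ i * c i) =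
      c 0 - ξ * c 1 + (1 / 2 : ℝ) • (ξ ^ 2 * c 2) := by
  rw [Finset.sum_range_succ, Finset.sum_range_succ, Finset.sum_range_one]
  norm_num [Nat.factorial]
  abel

private lemma gg_T1 (ξ : W) (c : ℕ → W) :
    ∑ i ∈ Finset.range 1, ((-1 : ℝ) ^ i * ((i.factorial : ℝ))⁻¹) • (ξ ^ i * c i) = c 0 := by
  rw [Finset.sum_range_one]
  norm_num [Nat.factorial]

/-- The data and their bounds. -/
private structure GB (X ν a0 a2 r v2' : ℝ) (ζ τ v v1 v2 V3 : W) : Prop where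
  X0 : 0 < X
  X1 : X ≤ 28 / 10 ^ 5
  ν0 : 4 / 5 ≤ ν
  ν1 : ν ≤ 82 / 100
  a00 : 0 < a0
  a01 : a0 ≤ X ^ 2
  a2b : |a2| ≤ 1641 / 1000
  zn : ‖ζ‖ ≤ 27 / 5 * X ^ 2
  zc : conj ζ = ζ
  xn : ‖X • cc + ζ‖ ≤ 1128 / 1000 * X
  tn : ‖τ‖ ≤ 1128 / 1000
  tn1 : ‖τ - mon wW 1‖ ≤ 105 / 100 * X
  tn2 : ‖τ - mon wW 1 - (ν * X) • (mon wW 1 * mon wW 1)‖ ≤ 6 * X ^ 2
  tD : |cf τ 1 - 1| ≤ 9 * X ^ 2
  tD' : cf τ (-1) = 0
  v0 : ∀ j < 2, cf v j = 0
  vc : cf v 2 = v2'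
  v10 : ∀ j < 2, cf v1 j = 0
  v1c : cf v1 2 = 2 * r
  v1n : ‖v1‖ ≤ 1 / 3 * X ^ 2
  v2n : ‖v2‖ ≤ 91 / 100 * X ^ 2
  V3n : ‖V3‖ ≤ 192 / 100 * X

/-- The first functional. -/
private lemma gg_D (hA1 : S_A1) (hA2 : S_A2) {X ν a0 a2 r v2' : ℝ} {ζ τ v v1 v2 V3 R : W}
    (B : GB X ν a0 a2 r v2' ζ τ v v1 v2 V3) (D m : W →L[ℝ] ℝ)
    (hD : ∀ z, D z = cf z 1 - cf z (-1)) (hm : ∀ z, m z = cf z 0 - (cf z 2 + cf z (-2)) / 2)
    (hDn : ∀ z, |D z| ≤ ‖z‖) (hR : ‖R‖ ≤ 3 / 100 * X ^ 4) :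
    |D ((X * a0) • τ + v - (X • cc + ζ) * ((-X) • τ + v1) +
      (1/2 : ℝ) • ((X • cc + ζ) ^ 2 * ((X * a2) • τ + v2)) -
      (1/6 : ℝ) • ((X • cc + ζ) ^ 3 * V3) + R) -
      (X * a0 + X * m ζ - X * r + a2 * X ^ 3 / 8 + ν * X ^ 3 / 2)| ≤ 28 * X ^ 4 := by
  obtain ⟨X0, X1, ν0, ν1, a00, a01, a2b, zn, zc, xn, tn, tn1, tn2, tD, tD', v0, vc, v10, v1c, v1n,
    v2n, V3n⟩ := B
  have hmn : ∀ i j : ℤ, cf (mon wW i) j = if i = j then 1 else 0 := (hA1 wW).2.2.2.2.2.1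
  have hcj : ∀ (z : W) (j : ℤ), cf (conj z) j = cf z (-j) := hA2.2.1.1
  set t : W := mon wW 1 with ht
  have ht2 : t * t = mon wW 2 := by
    rw [ht, mon_mul_mon]
    norm_num
  have key : (X * a0) • τ + v - (X • cc + ζ) * ((-X) • τ + v1) +
      (1/2 : ℝ) • ((X • cc + ζ) ^ 2 * ((X * a2) • τ + v2)) -
      (1/6 : ℝ) • ((X • cc + ζ) ^ 3 * V3) + R =
      (X * a0) • τ + v + X ^ 2 • (cc * t) + (ν * X ^ 3) • (cc * (t * t)) +
      X ^ 2 • (cc * (τ - t - (ν * X) • (t * t))) + X • (ζ * t) + X • (ζ * (τ - t)) -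
      X • (cc * v1) - ζ * v1 + (1/2 * a2 * X ^ 3) • (cc * (cc * t)) +
      (1/2 * X * a2) • (ζ * (X • cc + ζ + X • cc) * τ + X ^ 2 • (cc * cc * (τ - t))) +
      (1/2 : ℝ) • ((X • cc + ζ) ^ 2 * v2) - (1/6 : ℝ) • ((X • cc + ζ) ^ 3 * V3) + R := by
    simp only [Algebra.smul_def, map_mul, map_neg, map_pow]
    ring
  rw [key]
  simp only [map_add, map_sub, map_smul, smul_eq_mul]
  -- exact values
  have d1 : D τ = cf τ 1 := by rw [hD, tD', sub_zero]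
  have d2 : D v = 0 := by rw [hD, v0 1 (by norm_num), v0 (-1) (by norm_num), sub_zero]
  have d3 : D (cc * t) = 0 := by
    rw [hD, gg_cc hA1, gg_cc hA1, hmn, hmn, hmn, hmn]
    norm_num
  have d4 : D (cc * (t * t)) = 1 / 2 := by
    rw [hD, ht2, gg_cc hA1, gg_cc hA1, hmn, hmn, hmn, hmn]
    norm_num
  have d5 : D (ζ * t) = m ζ := by
    have h1 : cf ζ (-2) = cf ζ 2 := by
      have := hcj ζ 2
      rw [zc] at this
      exact this.symm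
    rw [hD, hm, mul_comm ζ t, gg_mon hA1, gg_mon hA1]
    norm_num
    linarith
  have d6 : D (cc * v1) = r := by
    rw [hD, gg_cc hA1, gg_cc hA1]
    norm_num
    rw [v1c, v10 0 (by norm_num), v10 (-2) (by norm_num)]
    ring
  have d7 : D (cc * (cc * t)) = 1 / 4 := by
    rw [hD, gg_cc hA1, gg_cc hA1, gg_cc hA1, gg_cc hA1, gg_cc hA1, gg_cc hA1]
    simp only [hmn, ht]
    norm_num
  -- bounds
  have b1 : |X * a0 * (cf τ 1 - 1)| ≤ X * X ^ 2 * (9 * X ^ 2) := by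
    refine gg_am ?_ tD
    rw [abs_of_pos (by positivity)]
    exact mul_le_mul_of_nonneg_left a01 X0.le
  have b2 : |X ^ 2 * D (cc * (τ - t - (ν * X) • (t * t)))| ≤
      X ^ 2 * (11262 / 10000 * (6 * X ^ 2)) :=
    gg_am (by rw [abs_of_pos (by positivity)]) ((hDn _).trans (gg_nm gg_cn tn2))
  have b3 : |X * D (ζ * (τ - t))| ≤ X * (27 / 5 * X ^ 2 * (105 / 100 * X)) :=
    gg_am (by rw [abs_of_pos X0]) ((hDn _).trans (gg_nm zn tn1))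
  have b4 : |D (ζ * v1)| ≤ 27 / 5 * X ^ 2 * (1 / 3 * X ^ 2) := (hDn _).trans (gg_nm zn v1n)
  have hXc : ‖X • cc‖ ≤ X * (11262 / 10000) := gg_ns (by rw [abs_of_pos X0]) gg_cn
  have b5 : |1/2 * X * a2 * (D (ζ * (X • cc + ζ + X • cc) * τ) + X ^ 2 * D (cc * cc * (τ - t)))| ≤
      1 / 2 * X * (1641 / 1000) *
      (27 / 5 * X ^ 2 * (1128 / 1000 * X + X * (11262 / 10000)) * (1128 / 1000) +
        X ^ 2 * (11262 / 10000 * (11262 / 10000) * (105 / 100 * X))) := by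
    refine gg_am (gg_am ?_ a2b) ?_
    · rw [abs_of_pos (by positivity)]
    · refine (abs_add_le _ _).trans (add_le_add ?_ ?_)
      · exact (hDn _).trans (gg_nm (gg_nm zn (gg_na xn hXc)) tn)
      · exact gg_am (by rw [abs_of_pos (by positivity)])
          ((hDn _).trans (gg_nm (gg_nm gg_cn gg_cn) tn1))
  have hx2 : ‖(X • cc + ζ) ^ 2‖ ≤ 1128 / 1000 * X * (1128 / 1000 * X) := by
    rw [sq]
    exact gg_nm xn xn
  have hx3 : ‖(X • cc + ζ) ^ 3‖ ≤ 1128 / 1000 * X * (1128 / 1000 * X) * (1128 / 1000 * X) := by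
    rw [pow_succ]
    exact gg_nm hx2 xn
  have b6 : |1/2 * D ((X • cc + ζ) ^ 2 * v2)| ≤
      1/2 * (1128 / 1000 * X * (1128 / 1000 * X) * (91 / 100 * X ^ 2)) :=
    gg_am (by rw [abs_of_pos (by norm_num)]) ((hDn _).trans (gg_nm hx2 v2n))
  have b7 : |1/6 * D ((X • cc + ζ) ^ 3 * V3)| ≤
      1/6 * (1128 / 1000 * X * (1128 / 1000 * X) * (1128 / 1000 * X) * (192 / 100 * X)) :=
    gg_am (by rw [abs_of_pos (by norm_num)]) ((hDn _).trans (gg_nm hx3 V3n))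
  have b8 : |D R| ≤ 3 / 100 * X ^ 4 := (hDn _).trans hR
  rw [d1, d2, d3, d4, d5, d6, d7]
  have hX5 : X ^ 5 ≤ 28 / 10 ^ 5 * X ^ 4 := by
    rw [pow_succ, mul_comm]
    exact mul_le_mul_of_nonneg_right X1 (by positivity)
  have hX4 : 0 ≤ X ^ 4 := by positivity
  rw [abs_le] at b1 b2 b3 b4 b5 b6 b7 b8 ⊢
  obtain ⟨b1, b1'⟩ := b1
  obtain ⟨b2, b2'⟩ := b2
  obtain ⟨b3, b3'⟩ := b3
  obtain ⟨b4, b4'⟩ := b4
  obtain ⟨b5, b5'⟩ := b5
  obtain ⟨b6, b6'⟩ := b6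
  obtain ⟨b7, b7'⟩ := b7
  obtain ⟨b8, b8'⟩ := b8
  constructor <;> nlinarith

/-- More data and bounds. -/
private structure GC (X b0 r : ℝ) (q1 q2 V2 Q2 Q3 R3 RS Y : W) : Prop where
  b0n : |b0| ≤ 1 / 10 ^ 6 * X ^ 2
  q10 : ∀ j < 2, cf q1 j = 0
  q1c : cf q1 2 = r
  q2n : ‖q2‖ ≤ 3 / 16 * X ^ 2
  V2n : ‖V2‖ ≤ 1852 / 1000 * X
  Q2n : ‖Q2‖ ≤ 5 / 10 ^ 4 + 192 / 100 * X
  Q3n : ‖Q3‖ ≤ 105 / 100
  R3n : ‖R3‖ ≤ 1 / 100 * X ^ 3
  RSn : ‖RS‖ ≤ 3 / 100 * X ^ 3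
  Yn : ‖Y - 1‖ ≤ 227 / 10 ^ 6 * X

/-- The second functional. -/
private lemma gg_m (hA1 : S_A1) (hA2 : S_A2) {X ν a0 a2 r v2' b0 : ℝ}
    {ζ τ v v1 v2 V3 q1 q2 V2 Q2 Q3 R3 RS Y T S : W}
    (B : GB X ν a0 a2 r v2' ζ τ v v1 v2 V3) (C : GC X b0 r q1 q2 V2 Q2 Q3 R3 RS Y)
    (m : W →L[ℝ] ℝ) (hm : ∀ z, m z = cf z 0 - (cf z 2 + cf z (-2)) / 2)
    (hmb : ∀ z, |m z| ≤ ‖z‖) (hmc : ∀ z, m (conj z) = m z)
    (hT : T = (X * a0) • τ + v - (X • cc + ζ) * ((-X) • τ + v1) +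
      (1/2 : ℝ) • ((X • cc + ζ) ^ 2 * V2) + R3)
    (hS : S = b0 • (1 : W) + (-X) • τ + q1 - (X • cc + ζ) * ((-1 : ℝ) • (1 : W) + (X * a2) • τ + q2) +
      (1/2 : ℝ) • ((X • cc + ζ) ^ 2 * Q2) - (1/6 : ℝ) • ((X • cc + ζ) ^ 3 * Q3) + RS)
    (hSn : ‖S‖ ≤ 34 / 10 * X)
    (hE : (ν / 2) • (T + conj T) - (1 / 2 : ℝ) • (Y * (S + conj S)) = 0) :
    |m ζ - (r / 2 + a2 * X ^ 2 / 4 - ν / 2 * v2' - ν * X ^ 2 / 4)| ≤
      28 * X ^ 3 + 11 / 10 ^ 4 * X ^ 2 := by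
  obtain ⟨X0, X1, ν0, ν1, a00, a01, a2b, zn, zc, xn, tn, tn1, tn2, tD, tD', v0, vc, v10, v1c, v1n,
    v2n, V3n⟩ := B
  obtain ⟨b0n, q10, q1c, q2n, V2n, Q2n, Q3n, R3n, RSn, Yn⟩ := C
  have hmn : ∀ i j : ℤ, cf (mon wW i) j = if i = j then 1 else 0 := (hA1 wW).2.2.2.2.2.1
  have hconj : ∀ z : W, ‖conj z‖ = ‖z‖ := hA2.2.1.2.2.2.1
  set t : W := mon wW 1 with ht
  have ht2 : t * t = mon wW 2 := by
    rw [ht, mon_mul_mon]
    norm_num
  set E : W := X • (cc * (τ - t)) + ζ * τ with hEdef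
  -- exact values
  have m1 : m (1 : W) = 1 := by
    rw [hm, one_def, hmn, hmn, hmn]
    norm_num
  have m2 : m t = 0 := by
    rw [hm, ht, hmn, hmn, hmn]
    norm_num
  have m3 : m (t * t) = -1 / 2 := by
    rw [hm, ht2, hmn, hmn, hmn]
    norm_num
  have m4 : m cc = 0 := by
    rw [hm, gg_cc0 hA1, gg_cc0 hA1, gg_cc0 hA1]
    norm_num
  have m5 : m (cc * t) = 1 / 4 := by
    rw [hm, gg_cc hA1, gg_cc hA1, gg_cc hA1]
    simp only [hmn, ht]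
    norm_num
  have m6 : m v = -v2' / 2 := by
    rw [hm, v0 0 (by norm_num), v0 (-2) (by norm_num), vc]
    ring
  have m7 : m q1 = -r / 2 := by
    rw [hm, q10 0 (by norm_num), q10 (-2) (by norm_num), q1c]
    ring
  have m8 : m τ = -(ν * X) / 2 + m (τ - t - (ν * X) • (t * t)) := by
    have h1 : τ = t + (ν * X) • (t * t) + (τ - t - (ν * X) • (t * t)) := by abel
    conv_lhs => rw [h1]
    rw [map_add, map_add, map_smul, m2, m3, smul_eq_mul]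
    ring
  -- the expansions
  have kT : T = (X * a0) • τ + v + X ^ 2 • (cc * t) + X • E - (X • cc + ζ) * v1 +
      (1/2 : ℝ) • ((X • cc + ζ) ^ 2 * V2) + R3 := by
    rw [hT, hEdef]
    simp only [Algebra.smul_def, map_mul, map_neg, map_pow]
    ring
  have kS : S = b0 • (1 : W) - X • τ + q1 + X • cc + ζ - (X ^ 2 * a2) • (cc * t) -
      (X * a2) • E - (X • cc + ζ) * q2 + (1/2 : ℝ) • ((X • cc + ζ) ^ 2 * Q2) -
      (1/6 : ℝ) • ((X • cc + ζ) ^ 3 * Q3) + RS := by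
    rw [hS, hEdef]
    simp only [Algebra.smul_def, map_mul, map_neg, map_pow, map_one]
    ring
  have mT : m T = X * a0 * m τ - v2' / 2 + X ^ 2 / 4 + X * m E - m ((X • cc + ζ) * v1) +
      1/2 * m ((X • cc + ζ) ^ 2 * V2) + m R3 := by
    rw [kT]
    simp only [map_add, map_sub, map_smul, smul_eq_mul, m5, m6]
    ring
  have mS : m S = b0 - X * m τ - r / 2 + m ζ - X ^ 2 * a2 / 4 - X * a2 * m E -
      m ((X • cc + ζ) * q2) + 1/2 * m ((X • cc + ζ) ^ 2 * Q2) -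
      1/6 * m ((X • cc + ζ) ^ 3 * Q3) + m RS := by
    rw [kS]
    simp only [map_add, map_sub, map_smul, smul_eq_mul, m1, m4, m5, m7]
    ring
  have hE2 : ν * m T - m S - 1 / 2 * m ((Y - 1) * (S + conj S)) = 0 := by
    have h1 : (ν / 2) • (T + conj T) - (1 / 2 : ℝ) • ((S + conj S) + (Y - 1) * (S + conj S)) =
        0 := by
      rw [← hE]
      congr 2
      ring
    have h2 := congrArg m h1
    simp only [map_add, map_sub, map_smul, smul_eq_mul, map_zero, hmc] at h2 ⊢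
    linarith
  -- bounds
  have hXc : ‖X • cc‖ ≤ X * (11262 / 10000) := gg_ns (by rw [abs_of_pos X0]) gg_cn
  have hx2 : ‖(X • cc + ζ) ^ 2‖ ≤ 1128 / 1000 * X * (1128 / 1000 * X) := by
    rw [sq]
    exact gg_nm xn xn
  have hx3 : ‖(X • cc + ζ) ^ 3‖ ≤ 1128 / 1000 * X * (1128 / 1000 * X) * (1128 / 1000 * X) := by
    rw [pow_succ]
    exact gg_nm hx2 xn
  have hνa : |ν| ≤ 82 / 100 := by rw [abs_of_pos (by linarith)]; exact ν1
  have hXa : |X| ≤ X := by rw [abs_of_pos X0]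
  have hha : |(1 / 2 : ℝ)| ≤ 1 / 2 := by rw [abs_of_pos (by norm_num)]
  have hEn : ‖E‖ ≤ X * (11262 / 10000 * (105 / 100 * X)) + 27 / 5 * X ^ 2 * (1128 / 1000) :=
    gg_na (gg_ns hXa (gg_nm gg_cn tn1)) (gg_nm zn tn)
  have c1 : |ν * (X * a0 * m τ)| ≤ 82 / 100 * (X * X ^ 2 * (1128 / 1000)) :=
    gg_am hνa (gg_am (gg_am hXa (by rw [abs_of_pos a00]; exact a01)) ((hmb _).trans tn))
  have c2 : |ν * (X * m E)| ≤ 82 / 100 * (X * (X * (11262 / 10000 * (105 / 100 * X)) +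
      27 / 5 * X ^ 2 * (1128 / 1000))) :=
    gg_am hνa (gg_am hXa ((hmb _).trans hEn))
  have c3 : |ν * m ((X • cc + ζ) * v1)| ≤ 82 / 100 * (1128 / 1000 * X * (1 / 3 * X ^ 2)) :=
    gg_am hνa ((hmb _).trans (gg_nm xn v1n))
  have c4 : |ν * (1 / 2 * m ((X • cc + ζ) ^ 2 * V2))| ≤
      82 / 100 * (1 / 2 * (1128 / 1000 * X * (1128 / 1000 * X) * (1852 / 1000 * X))) :=
    gg_am hνa (gg_am hha ((hmb _).trans (gg_nm hx2 V2n)))
  have c5 : |ν * m R3| ≤ 82 / 100 * (1 / 100 * X ^ 3) := gg_am hνa ((hmb _).trans R3n)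
  have c7 : |X * m (τ - t - (ν * X) • (t * t))| ≤ X * (6 * X ^ 2) :=
    gg_am hXa ((hmb _).trans tn2)
  have c8 : |X * a2 * m E| ≤ X * (1641 / 1000) * (X * (11262 / 10000 * (105 / 100 * X)) +
      27 / 5 * X ^ 2 * (1128 / 1000)) := gg_am (gg_am hXa a2b) ((hmb _).trans hEn)
  have c9 : |m ((X • cc + ζ) * q2)| ≤ 1128 / 1000 * X * (3 / 16 * X ^ 2) :=
    (hmb _).trans (gg_nm xn q2n)
  have c10 : |1 / 2 * m ((X • cc + ζ) ^ 2 * Q2)| ≤
      1 / 2 * (1128 / 1000 * X * (1128 / 1000 * X) * (5 / 10 ^ 4 + 192 / 100 * X)) :=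
    gg_am hha ((hmb _).trans (gg_nm hx2 Q2n))
  have c11 : |1 / 6 * m ((X • cc + ζ) ^ 3 * Q3)| ≤
      1 / 6 * (1128 / 1000 * X * (1128 / 1000 * X) * (1128 / 1000 * X) * (105 / 100)) :=
    gg_am (by rw [abs_of_pos (by norm_num)]) ((hmb _).trans (gg_nm hx3 Q3n))
  have c12 : |m RS| ≤ 3 / 100 * X ^ 3 := (hmb _).trans RSn
  have c13 : |1 / 2 * m ((Y - 1) * (S + conj S))| ≤
      1 / 2 * (227 / 10 ^ 6 * X * (34 / 10 * X + 34 / 10 * X)) :=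
    gg_am hha ((hmb _).trans (gg_nm Yn (gg_na hSn (by rw [hconj]; exact hSn))))
  have hXτ : X * m τ = -(ν * X ^ 2) / 2 + X * m (τ - t - (ν * X) • (t * t)) := by
    rw [m8]
    ring
  rw [mT, mS] at hE2
  have hX3 : 0 ≤ X ^ 3 := by positivity
  have hX2 : 0 ≤ X ^ 2 := by positivity
  generalize m (τ - t - (ν * X) • (t * t)) = u1 at *
  generalize m ((Y - 1) * (S + conj S)) = u2 at *
  generalize m ((X • cc + ζ) ^ 3 * Q3) = u3 at *
  generalize m ((X • cc + ζ) ^ 2 * Q2) = u4 at *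
  generalize m ((X • cc + ζ) * q2) = u5 at *
  generalize m ((X • cc + ζ) ^ 2 * V2) = u6 at *
  generalize m ((X • cc + ζ) * v1) = u7 at *
  generalize m R3 = u8 at *
  generalize m RS = u9 at *
  generalize m E = u10 at *
  generalize m τ = u11 at *
  generalize m ζ = u12 at *
  rw [abs_le] at b0n c1 c2 c3 c4 c5 c7 c8 c9 c10 c11 c12 c13 ⊢
  obtain ⟨b0n, b0n'⟩ := b0n
  obtain ⟨c1, c1'⟩ := c1
  obtain ⟨c2, c2'⟩ := c2
  obtain ⟨c3, c3'⟩ := c3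
  obtain ⟨c4, c4'⟩ := c4
  obtain ⟨c5, c5'⟩ := c5
  obtain ⟨c7, c7'⟩ := c7
  obtain ⟨c8, c8'⟩ := c8
  obtain ⟨c9, c9'⟩ := c9
  obtain ⟨c10, c10'⟩ := c10
  obtain ⟨c11, c11'⟩ := c11
  obtain ⟨c12, c12'⟩ := c12
  obtain ⟨c13, c13'⟩ := c13
  constructor <;> linarith

private lemma gg_conj_cc : conj cc = cc := by
  unfold cc conj
  rw [map_smul, map_add, lft_mon, lft_mon, neg_neg, add_comm]

theorem proof_GG (hA1 : S_A1) (hA2 : S_A2) (hA3 : S_A3) (hAB : S_AB) (hB1 : S_B1) (hB2 : S_B2)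
    (hRV : S_RV) : S_GG := by
  intro P X h v y H _ hh2 hxi hv hy
  obtain ⟨hX0, hX, ha00, ha01, hXl⟩ := gg_X H
  obtain ⟨D, m, hD, hm, hDn, hmn, hmc⟩ := gg_fun hA1 hA2
  have hn := gg_near hX0 hX hh2
  have hxn := gg_near hX0 hX hxi
  have hn1 : ‖h‖ ≤ 1 / 1000 := by linarith
  obtain ⟨⟨-, -, bt1, bt2, bY, -⟩, hsym, ⟨-, -, -, ht0, ht1⟩, -⟩ := hB1 P H.good h hn1
  obtain ⟨ab1, ab2, ab3, ab4, ab5, ab6, -⟩ := hAB P H.good
  obtain ⟨hq0, hv0, hVn, hQn, hB2'⟩ := hB2 P H.good X h v y hX0 (by linarith) (gg_dom H)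
  obtain ⟨-, -, hqn, -, hv1n, hvn⟩ := hB2' (2 / 3) (3 / 10) (by norm_num) (by norm_num)
    (by norm_num) (by norm_num) hv hy
  obtain ⟨-, hr2⟩ := hRV P X h v y H
  have hnu0 := H.good.nu1
  have hnu1 := H.good.nu2
  have hXa : |X| ≤ X := by rw [abs_of_pos hX0]
  have hX2 : X ^ 2 ≤ 28 / 10 ^ 5 * X := by nlinarith
  have hXp2 : 0 ≤ X ^ 2 := by positivity
  have hX3 : X ^ 3 ≤ 28 / 10 ^ 5 * X ^ 2 := by nlinarith
  have hXp3 : 0 ≤ X ^ 3 := by positivity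
  have hX4 : X ^ 4 ≤ 28 / 10 ^ 5 * X ^ 3 := by nlinarith
  have hXp4 : 0 ≤ X ^ 4 := by positivity
  have hX5 : X ^ 5 ≤ 28 / 10 ^ 5 * X ^ 4 := by nlinarith
  have hx30 : ‖xi P h‖ ≤ 1 / 30 := by linarith
  have hxp := norm_nonneg (xi P h)
  -- the powers of the norm of `ξ`
  have hp3 : (3 * ‖xi P h‖) ^ 3 ≤ (3384 / 1000 * X) ^ 3 :=
    pow_le_pow_left₀ (by positivity) (by linarith) 3
  have hp4 : (3 * ‖xi P h‖) ^ 4 ≤ (3384 / 1000 * X) ^ 4 :=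
    pow_le_pow_left₀ (by positivity) (by linarith) 4
  -- the series
  obtain ⟨-, hT⟩ := hA3.2.1 (xi P h) (Vh P X h v y) (3 / 5 * X) hVn hx30
  obtain ⟨-, hS⟩ := hA3.2.1 (xi P h) (Qh P X h v y) (3 / 5) hQn hx30
  have hT4 := hT 4
  have hT3 := hT 3
  have hS4 := hS 4
  have hS1 := hS 1
  rw [gg_T4] at hT4 hS4
  rw [gg_T3] at hT3
  rw [gg_T1] at hS1
  obtain ⟨T, hTd⟩ : ∃ T, T = TT (xi P h) (Vh P X h v y) := ⟨_, rfl⟩
  obtain ⟨S, hSd⟩ : ∃ S, S = TT (xi P h) (Qh P X h v y) := ⟨_, rfl⟩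
  rw [← hTd] at hT4 hT3
  rw [← hSd] at hS4 hS1
  obtain ⟨ζ, hζ⟩ : ∃ ζ, ζ = xi P h - X • cc := ⟨_, rfl⟩
  have hξ : xi P h = X • cc + ζ := by
    rw [hζ]
    abel
  have hV0 : Vh P X h v y 0 = (X * P.a 0) • tau P h + v := rfl
  have hV1 : Vh P X h v y 1 = (-X) • tau P h + vv P h v y 1 := by
    show (X * P.a 1) • tau P h + vv P h v y 1 = _
    rw [H.good.a1, mul_neg_one]
  have hV2 : Vh P X h v y 2 = (X * P.a 2) • tau P h + vv P h v y 2 := rfl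
  have hV3 : Vh P X h v y 3 = (X * P.a 3) • tau P h + vv P h v y 3 := rfl
  have hQ0 : Qh P X h v y 0 = P.b 0 • (1 : W) + (-X) • tau P h + qq P h v y 1 := by
    show P.b 0 • (1 : W) + (X * P.a 1) • tau P h + qq P h v y 1 = _
    rw [H.good.a1, mul_neg_one]
  have hQ1 : Qh P X h v y 1 = (-1 : ℝ) • (1 : W) + (X * P.a 2) • tau P h + qq P h v y 2 := by
    show P.b 1 • (1 : W) + (X * P.a 2) • tau P h + qq P h v y 2 = _
    rw [H.good.b1]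
  have hQ2 : Qh P X h v y 2 = P.b 2 • (1 : W) + (X * P.a 3) • tau P h + qq P h v y 3 := rfl
  have hQ3 : Qh P X h v y 3 = P.b 3 • (1 : W) + (X * P.a 4) • tau P h + qq P h v y 4 := rfl
  -- bounds of the numbers
  have ha2 : |P.a 2| ≤ 1641 / 1000 := by
    rw [abs_le] at ab3 ⊢
    constructor <;> linarith
  have ha4 : |P.a 4| ≤ 1215 / 10 := by
    have := ab1 4
    norm_num [Nat.factorial] at this
    exact this.trans (by norm_num)
  have hb0 : |P.b 0| ≤ 1 / 10 ^ 6 * X ^ 2 := by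
    have := H.good.b0
    linarith
  have h1n : ‖(1 : W)‖ ≤ 1 := le_of_eq norm_one
  have hv1n' : ‖vv P h v y 1‖ ≤ 1 / 3 * X ^ 2 := hv1n.trans (by linarith)
  have hv2n' : ‖vv P h v y 2‖ ≤ 91 / 100 * X ^ 2 := by
    have := hvn 1
    norm_num at this
    linarith
  have hv3n' : ‖vv P h v y 3‖ ≤ 137 / 100 * X ^ 2 := by
    have := hvn 2
    norm_num at this
    linarith
  have hq : ∀ i, ‖qq P h v y (i + 1)‖ ≤ 3 / 16 * X ^ 2 := fun i => (hqn i).trans (by linarith)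
  have hV2n : ‖Vh P X h v y 2‖ ≤ 1852 / 1000 * X := by
    rw [hV2]
    refine (gg_na (gg_ns (gg_am hXa ha2) bt2) hv2n').trans ?_
    linarith
  have hV3n : ‖Vh P X h v y 3‖ ≤ 192 / 100 * X := by
    rw [hV3]
    refine (gg_na (gg_ns (gg_am hXa ab5) bt2) hv3n').trans ?_
    linarith
  have hQ0n : ‖Qh P X h v y 0‖ ≤ 113 / 100 * X := by
    rw [hQ0]
    refine (gg_na (gg_na (gg_ns hb0 h1n) (gg_ns (r := -X) (s := X) (by rw [abs_neg]; exact hXa)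
      bt2)) (hq 0)).trans ?_
    linarith
  have hQ2n : ‖Qh P X h v y 2‖ ≤ 5 / 10 ^ 4 + 192 / 100 * X := by
    rw [hQ2]
    refine (gg_na (gg_na (gg_ns ab4 h1n) (gg_ns (gg_am hXa ab5) bt2)) (hq 2)).trans ?_
    linarith
  have hQ3n : ‖Qh P X h v y 3‖ ≤ 105 / 100 := by
    rw [hQ3]
    refine (gg_na (gg_na (gg_ns ab6 h1n) (gg_ns (gg_am hXa ha4) bt2)) (hq 3)).trans ?_
    linarith
  have hYn : ‖YY P h - 1‖ ≤ 227 / 10 ^ 6 * X := bY.trans (by linarith)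
  -- the remainders
  have hR4 : ‖T - (Vh P X h v y 0 - xi P h * Vh P X h v y 1 +
      (1 / 2 : ℝ) • (xi P h ^ 2 * Vh P X h v y 2) -
      (1 / 6 : ℝ) • (xi P h ^ 3 * Vh P X h v y 3))‖ ≤ 3 / 100 * X ^ 4 := by
    refine hT4.trans ?_
    calc 10 / 9 * (3 / 5 * X) * (3 * ‖xi P h‖) ^ 4 ≤
        10 / 9 * (3 / 5 * X) * (3384 / 1000 * X) ^ 4 := mul_le_mul_of_nonneg_left hp4 (by positivity)
      _ ≤ _ := by nlinarith
  have hR3 : ‖T - (Vh P X h v y 0 - xi P h * Vh P X h v y 1 +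
      (1 / 2 : ℝ) • (xi P h ^ 2 * Vh P X h v y 2))‖ ≤ 1 / 100 * X ^ 3 := by
    refine hT3.trans ?_
    calc 10 / 9 * (3 / 5 * X) * (3 * ‖xi P h‖) ^ 3 ≤
        10 / 9 * (3 / 5 * X) * (3384 / 1000 * X) ^ 3 := mul_le_mul_of_nonneg_left hp3 (by positivity)
      _ ≤ _ := by nlinarith
  have hRS : ‖S - (Qh P X h v y 0 - xi P h * Qh P X h v y 1 +
      (1 / 2 : ℝ) • (xi P h ^ 2 * Qh P X h v y 2) -
      (1 / 6 : ℝ) • (xi P h ^ 3 * Qh P X h v y 3))‖ ≤ 3 / 100 * X ^ 3 := by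
    refine hS4.trans ?_
    calc 10 / 9 * (3 / 5) * (3 * ‖xi P h‖) ^ 4 ≤
        10 / 9 * (3 / 5) * (3384 / 1000 * X) ^ 4 := mul_le_mul_of_nonneg_left hp4 (by positivity)
      _ ≤ _ := by nlinarith
  have hSn : ‖S‖ ≤ 34 / 10 * X := by
    have h1 : S = Qh P X h v y 0 + (S - Qh P X h v y 0) := by abel
    have h2 := gg_na hQ0n hS1
    rw [← h1] at h2
    refine h2.trans ?_
    rw [pow_one]
    linarith
  -- the coefficient of `τ`
  have hh0 : |cf h 0| ≤ 27 / 5 * X ^ 2 := by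
    obtain ⟨-, hsub, -, -, hsm, -, hle, -⟩ := hA1 wW
    have h1 := hle (h - X • cc) 0
    rw [hsub, hsm, gg_cc0 hA1, Wt.zero (w := wW), mul_one] at h1
    norm_num at h1
    exact h1.trans (by linarith)
  have htD : |cf (tau P h) 1 - 1| ≤ 9 * X ^ 2 := by
    rw [ht1]
    have h1 : |P.nu * cf h 0| ≤ 82 / 100 * (27 / 5 * X ^ 2) :=
      gg_am (by rw [abs_of_pos (by linarith)]; exact hnu1.trans (by norm_num)) hh0
    have h2 := Real.abs_exp_sub_one_le (x := P.nu * cf h 0) (by linarith)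
    linarith
  have B : GB X P.nu (P.a 0) (P.a 2) (cf (qq P h v y 1) 2) (cf v 2) ζ (tau P h) v
      (vv P h v y 1) (vv P h v y 2) (Vh P X h v y 3) :=
    { X0 := hX0
      X1 := hX
      ν0 := hnu0
      ν1 := hnu1.trans (by norm_num)
      a00 := ha00
      a01 := ha01
      a2b := ha2
      zn := by rw [hζ]; exact hxi
      zc := by
        rw [hζ, map_sub, map_smul, (hsym H.sol.hc).1, gg_conj_cc]
      xn := by rw [← hξ]; exact hxn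
      tn := bt2
      tn1 := bt1.trans (by linarith)
      tn2 := gg_tau hA2 hA3 hB1 H hh2
      tD := htD
      tD' := ht0 (-1) (by norm_num)
      v0 := H.sol.hv
      vc := rfl
      v10 := hv0 1
      v1c := hr2
      v1n := hv1n'
      v2n := hv2n'
      V3n := hV3n }
  have C : GC X (P.b 0) (cf (qq P h v y 1) 2) (qq P h v y 1) (qq P h v y 2) (Vh P X h v y 2)
      (Qh P X h v y 2) (Qh P X h v y 3)
      (T - (Vh P X h v y 0 - xi P h * Vh P X h v y 1 +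
      (1 / 2 : ℝ) • (xi P h ^ 2 * Vh P X h v y 2)))
      (S - (Qh P X h v y 0 - xi P h * Qh P X h v y 1 +
      (1 / 2 : ℝ) • (xi P h ^ 2 * Qh P X h v y 2) -
      (1 / 6 : ℝ) • (xi P h ^ 3 * Qh P X h v y 3))) (YY P h) :=
    { b0n := hb0
      q10 := hq0 1
      q1c := rfl
      q2n := hq 1
      V2n := hV2n
      Q2n := hQ2n
      Q3n := hQ3n
      R3n := hR3
      RSn := hRS
      Yn := hYn }
  have hE : (P.nu / 2) • (T + conj T) - (1 / 2 : ℝ) • (YY P h * (S + conj S)) = 0 := by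
    have := H.sol.eE
    unfold EE at this
    rw [← hTd, ← hSd] at this
    exact this
  have fm := gg_m hA1 hA2 B C m hm hmn hmc (T := T) (S := S)
    (by rw [hV0, hV1, hξ]; abel) (by rw [hQ0, hQ1, hξ]; abel) hSn hE
  have fD := gg_D hA1 hA2 B D m hD hm hDn hR4
  have hTe : (X * P.a 0) • tau P h + v - (X • cc + ζ) * ((-X) • tau P h + vv P h v y 1) +
      (1/2 : ℝ) • ((X • cc + ζ) ^ 2 * ((X * P.a 2) • tau P h + vv P h v y 2)) -
      (1/6 : ℝ) • ((X • cc + ζ) ^ 3 * Vh P X h v y 3) +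
      (T - (Vh P X h v y 0 - xi P h * Vh P X h v y 1 +
      (1 / 2 : ℝ) • (xi P h ^ 2 * Vh P X h v y 2) -
      (1 / 6 : ℝ) • (xi P h ^ 3 * Vh P X h v y 3))) = T := by
    rw [hV0, hV1, hV2, hξ]
    abel
  rw [hTe, hD] at fD
  have hOO : cf (OO P X h v y) 1 = cf T 1 - cf T (-1) := by
    unfold OO
    rw [← hTd, (hA1 wW).2.1, hA2.2.1.1]
  rw [hOO]
  generalize cf T 1 - cf T (-1) = G at *
  generalize cf (qq P h v y 1) 2 = r at *
  generalize cf v 2 = v2 at *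
  have fm' : |X * (m ζ - (r / 2 + P.a 2 * X ^ 2 / 4 - P.nu / 2 * v2 - P.nu * X ^ 2 / 4))| ≤
      X * (28 * X ^ 3 + 11 / 10 ^ 4 * X ^ 2) := gg_am hXa fm
  have fa : |3 / 8 * X ^ 3 * (P.a 2 + 2 * P.nu)| ≤ 3 / 8 * X ^ 3 * (3 / 10000) :=
    gg_am (by rw [abs_of_pos (by positivity)]) ab3
  rw [abs_le] at fm' fa fD ⊢
  obtain ⟨fm1, fm2⟩ := fm'
  obtain ⟨fa1, fa2⟩ := fa
  obtain ⟨fD1, fD2⟩ := fD
  constructor <;> linarith

end Pool.Agent.N229.SC
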