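import Pool.Agent.N229.SC.Stm

/-!
Project SC (helper229), part INJ: the map `f` is bi-Lipschitz (helper702).
-/

set_option autoImplicit false

open Set Filter Topology MeasureTheory

namespace Pool.Agent.N229.SC

theorem proof_INJ : S_INJ := by
  intro ρ r f h
  have key : ∀ z ∈ Metric.ball (0 : ℂ) r, ∀ w ∈ Metric.ball (0 : ℂ) r,
      ‖f z - f w - ρ * (z - w)‖ ≤ ρ / 10 * ‖z - w‖ := by
    intro z hz w hw
    have hd : ∀ x ∈ Metric.ball (0 : ℂ) r, HasDerivAt (fun z => f z - ρ * z) (deriv f x - ρ) x := by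
      intro x hx
      have h1 := (h.f_diff.differentiableAt (Metric.isOpen_ball.mem_nhds hx)).hasDerivAt
      have h2 := (hasDerivAt_id x).const_mul (ρ : ℂ)
      rw [mul_one] at h2
      exact h1.sub h2
    have h3 := Convex.norm_image_sub_le_of_norm_hasDerivWithin_le (𝕜 := ℂ)
      (f := fun z => f z - ρ * z) (f' := fun x => deriv f x - ρ) (C := ρ / 10)
      (fun x hx => (hd x hx).hasDerivWithinAt) h.f_der (convex_ball (0 : ℂ) r) hw hz
    have h4 : f z - f w - ρ * (z - w) = (f z - ρ * z) - (f w - ρ * w) := by ring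
    rw [h4]
    exact h3
  refine ⟨key, fun z hz w hw hzw => ?_⟩
  have h1 := key z hz w hw
  rw [hzw, sub_self, zero_sub, norm_neg, norm_mul, Complex.norm_real, Real.norm_of_nonneg h.rho_pos.le] at h1
  have h2 : ‖z - w‖ = 0 := by
    have h3 := norm_nonneg (z - w)
    have h4 := h.rho_pos
    nlinarith
  exact sub_eq_zero.1 (norm_eq_zero.1 h2)

end Pool.Agent.N229.SC
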