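import Pool.Agent.N229.SC.Stm

/-!
Project SC (helper229), problem MP_83fd13_an: leaf LIP, the domain is a Lipschitz domain (helper260).

The boundary is locally the graph of `γ a = inf (inner y g + |a - inner y e|)` over the points `y` of
the domain near the given boundary point; the domain has the cone property for the cone
`inner v g > |inner v e|`.
-/

set_option autoImplicit false

open Set Filter Topology MeasureTheory

namespace Pool.Agent.N229.SC

/-- the cone property -/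
private theorem lip_cone {ρ r : ℝ} {f : ℂ → ℂ} (hc : Conf ρ r f) (hI : ∀ z ∈ Metric.ball (0 : ℂ) r,
    ∀ w ∈ Metric.ball (0 : ℂ) r, ‖f z - f w - ρ * (z - w)‖ ≤ ρ / 10 * ‖z - w‖) {z0 z w : ℂ}
    (h0 : ‖z0‖ = 1) (hz : z ∈ Metric.ball (0 : ℂ) r) (hw : w ∈ Metric.ball (0 : ℂ) r)
    (hz0 : ‖z - z0‖ < 1 / 2) (hw0 : ‖w - z0‖ < 1 / 2)
    (hv : |@inner ℝ ℂ _ (f z - f w) (Complex.I * z0)| < @inner ℝ ℂ _ (f z - f w) (-z0)) :
    ‖z‖ < ‖w‖ := by
  have hρ := hc.rho_pos
  have h1 := hI z hz w hw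
  set v : ℂ := f z - f w with hvdef
  set q : ℂ := z - w with hq
  have hvg : 0 < @inner ℝ ℂ _ v (-z0) := (abs_nonneg _).trans_lt hv
  have hsum : ‖v‖ ^ 2 = (@inner ℝ ℂ _ v (-z0)) ^ 2 + (@inner ℝ ℂ _ v (Complex.I * z0)) ^ 2 := by
    have h2 : z0.re ^ 2 + z0.im ^ 2 = 1 := by
      have := Complex.sq_norm z0
      rw [h0, Complex.normSq_apply] at this
      nlinarith
    rw [Complex.sq_norm, Complex.normSq_apply, Complex.inner, Complex.inner]
    simp
    linear_combination (-(v.re ^ 2) - v.im ^ 2) * h2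
  have hq0 : 0 ≤ ‖q‖ := norm_nonneg q
  have hnv : 9 / 10 * ρ * ‖q‖ ≤ ‖v‖ := by
    have h3 : ‖(ρ : ℂ) * q‖ = ρ * ‖q‖ := by
      rw [norm_mul, Complex.norm_real, Real.norm_eq_abs, abs_of_pos hρ]
    have h4 : ‖(ρ : ℂ) * q‖ ≤ ‖v‖ + ‖v - ρ * q‖ := by
      have := norm_sub_le v (v - ρ * q)
      rwa [sub_sub_cancel] at this
    linarith
  have hvg2 : 3 / 5 * ρ * ‖q‖ < @inner ℝ ℂ _ v (-z0) := by
    refine lt_of_pow_lt_pow_left₀ 2 hvg.le ?_
    have h5 : (@inner ℝ ℂ _ v (Complex.I * z0)) ^ 2 < (@inner ℝ ℂ _ v (-z0)) ^ 2 := by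
      rw [sq_lt_sq, abs_of_pos hvg]; exact hv
    have h6 : (9 / 10 * ρ * ‖q‖) ^ 2 ≤ ‖v‖ ^ 2 := by gcongr
    nlinarith [sq_nonneg (ρ * ‖q‖)]
  have hin : @inner ℝ ℂ _ v (-z0) ≤ -(ρ * @inner ℝ ℂ _ q z0) + ρ / 10 * ‖q‖ := by
    have h7 : @inner ℝ ℂ _ v (-z0) = -(ρ * @inner ℝ ℂ _ q z0) + @inner ℝ ℂ _ (v - ρ * q) (-z0) := by
      rw [Complex.inner, Complex.inner, Complex.inner]
      simp
      ring
    have h8 := real_inner_le_norm (v - ρ * q) (-z0)
    rw [norm_neg, h0, mul_one] at h8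
    linarith
  have hqz : @inner ℝ ℂ _ q z0 < -(1 / 2 * ‖q‖) := by
    have : ρ * @inner ℝ ℂ _ q z0 < ρ * (-(1 / 2 * ‖q‖)) := by nlinarith
    exact lt_of_mul_lt_mul_left this hρ.le
  have hdiff : ‖z‖ ^ 2 - ‖w‖ ^ 2 = 2 * @inner ℝ ℂ _ q z0 + @inner ℝ ℂ _ q ((z - z0) + (w - z0)) := by
    rw [hq, Complex.sq_norm, Complex.sq_norm, Complex.normSq_apply, Complex.normSq_apply,
      Complex.inner, Complex.inner]
    simp
    ring
  have h9 := real_inner_le_norm q ((z - z0) + (w - z0))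
  have h10 : ‖(z - z0) + (w - z0)‖ ≤ 1 := (norm_add_le _ _).trans (by linarith)
  have h11 : ‖q‖ * ‖(z - z0) + (w - z0)‖ ≤ ‖q‖ * 1 := mul_le_mul_of_nonneg_left h10 hq0
  have h12 : ‖z‖ ^ 2 < ‖w‖ ^ 2 := by linarith
  exact lt_of_pow_lt_pow_left₀ 2 (norm_nonneg w) h12

theorem proof_LIP (hINJ : S_INJ) (hTOP : S_TOP) : S_LIP := by
  intro ρ r f hc z0 h0
  have hρ := hc.rho_pos
  have hr := hc.r_gt
  obtain ⟨hI, hinj⟩ := hINJ ρ r f hc
  have hopen : IsOpen (Om f) := (hTOP ρ r f hc).1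
  have hz0r : z0 ∈ Metric.ball (0 : ℂ) r := by rw [mem_ball_zero_iff, h0]; exact hr
  -- local surjectivity
  have hd0 : deriv f z0 ≠ 0 := by
    intro h
    have h1 := hc.f_der z0 hz0r
    rw [h, zero_sub, norm_neg, Complex.norm_real, Real.norm_eq_abs, abs_of_pos hρ] at h1
    linarith
  have hstr : HasStrictDerivAt f (deriv f z0) z0 :=
    (hc.f_diff.analyticAt (Metric.isOpen_ball.mem_nhds hz0r)).hasStrictDerivAt
  have hmap := hstr.map_nhds_eq hd0
  set δ : ℝ := min (1 / 2) (r - 1) with hδ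
  have hδ0 : 0 < δ := lt_min (by norm_num) (by linarith)
  have hball : ∀ z ∈ Metric.ball z0 δ, z ∈ Metric.ball (0 : ℂ) r ∧ ‖z - z0‖ < 1 / 2 := by
    intro z hz
    rw [Metric.mem_ball, dist_eq_norm] at hz
    refine ⟨?_, hz.trans_le (min_le_left _ _)⟩
    rw [mem_ball_zero_iff]
    have h1 := norm_add_le (z - z0) z0
    rw [sub_add_cancel, h0] at h1
    have h2 := min_le_right (1 / 2) (r - 1)
    linarith
  have him : f '' Metric.ball z0 δ ∈ 𝓝 (f z0) := by
    rw [← hmap]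
    exact image_mem_map (Metric.ball_mem_nhds z0 hδ0)
  obtain ⟨s, hs0, hs⟩ := Metric.mem_nhds_iff.mp him
  -- the points of the domain in the ball
  set T : Set ℂ := Om f ∩ Metric.ball (f z0) s with hT
  have hTne : T.Nonempty := by
    have h1 := hstr.hasDerivAt.continuousAt.eventually (Metric.ball_mem_nhds (f z0) hs0)
    obtain ⟨η, hη, h2⟩ := Metric.eventually_nhds_iff_ball.mp h1
    set t : ℝ := min (η / 2) (1 / 2) with ht
    have ht0 : 0 < t := lt_min (by linarith) (by norm_num)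
    have ht1 : t ≤ 1 / 2 := min_le_right _ _
    have ht2 : t < η := (min_le_left _ _).trans_lt (by linarith)
    refine ⟨f ((1 - t : ℝ) * z0), ⟨_, ?_, rfl⟩, h2 _ ?_⟩
    · rw [mem_ball_zero_iff, norm_mul, h0, mul_one, Complex.norm_real, Real.norm_eq_abs,
        abs_of_pos (by linarith)]
      linarith
    · rw [Metric.mem_ball, dist_eq_norm]
      have : (((1 - t : ℝ) : ℂ) * z0 - z0) = ((-t : ℝ) : ℂ) * z0 := by push_cast; ring
      rw [this, norm_mul, h0, mul_one, Complex.norm_real, Real.norm_eq_abs, abs_neg,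
        abs_of_pos ht0]
      exact ht2
  have : Nonempty T := hTne.to_subtype
  have hge : ‖(-z0 : ℂ)‖ = 1 := by rw [norm_neg, h0]
  have hbd : ∀ a : ℝ, BddBelow (range fun y : T =>
      @inner ℝ ℂ _ (y : ℂ) (-z0) + |a - @inner ℝ ℂ _ (y : ℂ) (Complex.I * z0)|) := by
    intro a
    refine ⟨-(‖f z0‖ + s), ?_⟩
    rintro _ ⟨y, rfl⟩
    have h1 := abs_real_inner_le_norm (y : ℂ) (-z0)
    rw [hge, mul_one] at h1
    have h2 : ‖(y : ℂ)‖ ≤ ‖f z0‖ + s := by
      have h3 := y.2.2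
      rw [Metric.mem_ball, dist_eq_norm] at h3
      have h4 := norm_add_le ((y : ℂ) - f z0) (f z0)
      rw [sub_add_cancel] at h4
      linarith
    have h5 := (abs_le.mp h1).1
    have h6 := abs_nonneg (a - @inner ℝ ℂ _ (y : ℂ) (Complex.I * z0))
    show -(‖f z0‖ + s) ≤ _
    linarith
  refine ⟨Complex.I * z0, -z0, by rw [norm_mul, Complex.norm_I, h0, one_mul], hge, ?_, s, hs0, 1,
    fun a => ⨅ y : T, (@inner ℝ ℂ _ (y : ℂ) (-z0) + |a - @inner ℝ ℂ _ (y : ℂ) (Complex.I * z0)|),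
    ?_, ?_⟩
  · rw [Complex.inner]
    simp
    ring
  · refine LipschitzWith.of_le_add fun a a' => ?_
    rw [← sub_le_iff_le_add]
    refine le_ciInf fun y => ?_
    rw [sub_le_iff_le_add]
    refine (ciInf_le (hbd a) y).trans ?_
    have h1 := abs_sub_le a a' (@inner ℝ ℂ _ (y : ℂ) (Complex.I * z0))
    rw [Real.dist_eq]
    linarith
  · intro x hx
    constructor
    · intro hxO
      -- move a little
      have h1 : ∀ᶠ t : ℝ in 𝓝 0, x - t * (-z0) ∈ T := by
        have h2 : ContinuousAt (fun t : ℝ => x - (t : ℂ) * (-z0)) 0 := by fun_prop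
        have h3 : T ∈ 𝓝 (x - ((0 : ℝ) : ℂ) * (-z0)) := by
          rw [Complex.ofReal_zero, zero_mul, sub_zero]
          exact (hopen.inter Metric.isOpen_ball).mem_nhds ⟨hxO, hx⟩
        exact h2 h3
      obtain ⟨η, hη, h2⟩ := Metric.eventually_nhds_iff_ball.mp h1
      obtain ⟨t, ht0, h3⟩ : ∃ t : ℝ, 0 < t ∧ x - (t : ℂ) * (-z0) ∈ T :=
        ⟨η / 2, by linarith, h2 (η / 2) (by
          rw [Metric.mem_ball, dist_zero_right, Real.norm_eq_abs, abs_of_pos (by linarith)]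
          linarith)⟩
      have h4 := ciInf_le (hbd (@inner ℝ ℂ _ x (Complex.I * z0))) ⟨_, h3⟩
      refine lt_of_le_of_lt h4 ?_
      have e1 : @inner ℝ ℂ _ (x - (t : ℂ) * (-z0)) (Complex.I * z0) =
          @inner ℝ ℂ _ x (Complex.I * z0) := by
        rw [Complex.inner, Complex.inner]
        simp
        ring
      have e2 : @inner ℝ ℂ _ (x - (t : ℂ) * (-z0)) (-z0) =
          @inner ℝ ℂ _ x (-z0) - t := by
        have h5 : z0.re ^ 2 + z0.im ^ 2 = 1 := by
          have := Complex.sq_norm z0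
          rw [h0, Complex.normSq_apply] at this
          nlinarith
        rw [Complex.inner, Complex.inner]
        simp
        linear_combination (-t) * h5
      show @inner ℝ ℂ _ (x - (t : ℂ) * (-z0)) (-z0) +
        |@inner ℝ ℂ _ x (Complex.I * z0) -
          @inner ℝ ℂ _ (x - (t : ℂ) * (-z0)) (Complex.I * z0)| < _
      rw [e1, e2, sub_self, abs_zero]
      linarith
    · intro hxg
      obtain ⟨y, hy⟩ := exists_lt_of_ciInf_lt hxg
      obtain ⟨z, hz, hzx⟩ := hs hx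
      obtain ⟨w, hw, hwy⟩ := hs y.2.2
      obtain ⟨w', hw', hwy'⟩ := y.2.1
      have hww : w' = w := hinj (Metric.ball_subset_ball hr.le hw') (hball w hw).1
        (hwy'.trans hwy.symm)
      have hw1 : ‖w‖ < 1 := by rw [← hww, ← mem_ball_zero_iff]; exact hw'
      have hlt : ‖z‖ < ‖w‖ := by
        refine lip_cone hc hI h0 (hball z hz).1 (hball w hw).1 (hball z hz).2 (hball w hw).2 ?_
        rw [hzx, hwy, inner_sub_left, inner_sub_left]
        linarith
      exact ⟨z, by rw [mem_ball_zero_iff]; exact hlt.trans hw1, hzx⟩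

end Pool.Agent.N229.SC
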