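import Pool.Agent.N229.SC.Stm

/-!
Project SC (helper229), problem MP_83fd13_an: dependence on the amplitude (helper692).
-/

set_option autoImplicit false

open Set Filter Topology

namespace Pool.Agent.N229.SC

private theorem lx_sum0 (ξ : W) (c : ℕ → W) :
    ∑ i ∈ Finset.range 0, ((-1 : ℝ) ^ i * (i.factorial : ℝ)⁻¹) • (ξ ^ i * c i) = 0 := by
  simp

private theorem lx_pow (i : ℕ) : (i : ℝ) + 1 ≤ 2 ^ i := by
  have h : i + 1 ≤ 2 ^ i := Nat.lt_two_pow_self
  exact_mod_cast h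

private theorem lx_a (i : ℕ) : ((3 : ℝ) / 2) ^ i * i.factorial ≤ 3 ^ i * i.factorial := by
  have : ((3 : ℝ) / 2) ^ i ≤ 3 ^ i := pow_le_pow_left₀ (by norm_num) (by norm_num) i
  exact mul_le_mul_of_nonneg_right this (Nat.cast_nonneg _)

private theorem lx_a1 (i : ℕ) :
    ((3 : ℝ) / 2) ^ (i + 1) * (i + 1).factorial ≤ 3 / 2 * (3 ^ i * i.factorial) := by
  have h1 := lx_pow i
  have h2 : ((3 : ℝ) / 2) ^ i * 2 ^ i = 3 ^ i := by
    rw [← mul_pow]; norm_num
  have h3 : (0 : ℝ) < ((3 : ℝ) / 2) ^ i := by positivity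
  have h4 : (0 : ℝ) ≤ i.factorial := Nat.cast_nonneg _
  rw [Nat.factorial_succ, pow_succ, ← h2]
  push_cast
  have h5 : ((3 : ℝ) / 2) ^ i * ((i : ℝ) + 1) ≤ ((3 : ℝ) / 2) ^ i * 2 ^ i :=
    mul_le_mul_of_nonneg_left h1 h3.le
  have h6 := mul_le_mul_of_nonneg_right h5 h4
  nlinarith

private theorem lx_TT (hA3 : S_A3) (ξ : W) (hξ : ‖ξ‖ ≤ 1 / 30) (c c' d : ℕ → W) (r M : ℝ)
    (_hM : 0 ≤ M) (hM2 : M ≤ 2) (hr : 0 ≤ r) (hr1 : r ≤ 1)
    (hc : ∀ i, ‖c i‖ ≤ 2 * (3 ^ i * i.factorial)) (hd : ∀ i, ‖d i‖ ≤ M * (3 ^ i * i.factorial))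
    (he : ∀ i, c' i = c i + r • d i) :
    ‖TT ξ c - TT ξ c'‖ ≤ 10 / 9 * M * r := by
  obtain ⟨-, hTT, -, hlin⟩ := hA3
  have hd2 : ∀ i, ‖d i‖ ≤ 2 * (3 ^ i * i.factorial) := by
    intro i
    refine (hd i).trans (mul_le_mul_of_nonneg_right hM2 ?_)
    positivity
  have hrd : ∀ i, ‖r • d i‖ ≤ 2 * (3 ^ i * i.factorial) := by
    intro i
    rw [norm_smul, Real.norm_eq_abs, abs_of_nonneg hr]
    exact (mul_le_of_le_one_left (norm_nonneg _) hr1).trans (hd2 i)
  have h1 := (hlin ξ c (fun i => r • d i) 2 hc hrd hξ).1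
  have h2 := (hlin ξ d d 2 hd2 hd2 hξ).2.2 r
  have h3 : TT ξ c' = TT ξ c + r • TT ξ d := by
    have : c' = fun i => c i + r • d i := funext he
    rw [this, h1, h2]
  have h4 := (hTT ξ d M hd hξ).2 0
  rw [lx_sum0, sub_zero, pow_zero, mul_one] at h4
  have h5 : TT ξ c - TT ξ c' = -(r • TT ξ d) := by rw [h3]; abel
  rw [h5, norm_neg, norm_smul, Real.norm_eq_abs, abs_of_nonneg hr]
  calc r * ‖TT ξ d‖ ≤ r * (10 / 9 * M) := mul_le_mul_of_nonneg_left h4 hr
    _ = _ := by ring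

theorem proof_LX (_hA1 : S_A1) (hA2 : S_A2) (hA3 : S_A3) (hAB : S_AB) (hB1 : S_B1)
    (hB2 : S_B2) : S_LX := by
  intro P hP X X' h v y hX hXX hX' hD
  obtain ⟨-, ⟨-, -, -, conj_norm, -⟩, -⟩ := hA2
  obtain ⟨ha, -, -, -, -, -, -⟩ := hAB P hP
  have hnu1 := hP.nu1
  have hnu2 := hP.nu2
  have hh := hD.nh
  have hX3 : X ≤ 3 / 10 ^ 4 := hXX.trans hX'
  have hh0 : ‖h‖ ≤ 1 / 1000 := by linarith
  obtain ⟨⟨-, -, -, htau, hYY, hxi⟩, -, -, -⟩ := hB1 P hP h hh0
  obtain ⟨-, -, hV, hQ, -⟩ := hB2 P hP X h v y hX hX3 hD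
  have hn0 := norm_nonneg h
  have hxi1 : ‖xi P h‖ ≤ 1 / 30 := by
    have h1 : ‖xi P h‖ ≤ ‖xi P h - h‖ + ‖h‖ := by
      have := norm_add_le (xi P h - h) h
      rwa [sub_add_cancel] at this
    nlinarith
  have hY1 : ‖YY P h‖ ≤ 2 := by
    have h1 : ‖YY P h‖ ≤ ‖YY P h - 1‖ + ‖(1 : W)‖ := by
      have := norm_add_le (YY P h - 1) 1
      rwa [sub_add_cancel] at this
    rw [norm_one] at h1
    nlinarith
  have hr : 0 ≤ X' - X := by linarith
  have hr1 : X' - X ≤ 1 := by linarith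
  have ht0 := norm_nonneg (tau P h)
  -- the two differences
  have hTV : ‖TT (xi P h) (Vh P X h v y) - TT (xi P h) (Vh P X' h v y)‖ ≤
      10 / 9 * (1128 / 1000) * (X' - X) := by
    refine lx_TT hA3 _ hxi1 _ _ (fun i => P.a i • tau P h) _ _ (by norm_num) (by norm_num) hr hr1
      ?_ ?_ ?_
    · intro i
      refine (hV i).trans (mul_le_mul_of_nonneg_right (by linarith) (by positivity))
    · intro i
      rw [norm_smul, Real.norm_eq_abs, mul_comm]
      exact mul_le_mul htau ((ha i).trans (lx_a i)) (abs_nonneg _) (by norm_num)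
    · intro i
      unfold Vh
      rw [smul_smul, sub_mul, sub_smul]
      abel
  have hTQ : ‖TT (xi P h) (Qh P X h v y) - TT (xi P h) (Qh P X' h v y)‖ ≤
      10 / 9 * (1128 / 1000 * (3 / 2)) * (X' - X) := by
    refine lx_TT hA3 _ hxi1 _ _ (fun i => P.a (i + 1) • tau P h) _ _ (by norm_num) (by norm_num) hr
      hr1 ?_ ?_ ?_
    · intro i
      refine (hQ i).trans (mul_le_mul_of_nonneg_right (by norm_num) (by positivity))
    · intro i
      rw [norm_smul, Real.norm_eq_abs, mul_comm, mul_assoc]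
      exact mul_le_mul htau ((ha (i + 1)).trans (lx_a1 i)) (abs_nonneg _) (by norm_num)
    · intro i
      unfold Qh
      rw [smul_smul, sub_mul, sub_smul]
      abel
  have hcV : ‖conj (TT (xi P h) (Vh P X h v y)) - conj (TT (xi P h) (Vh P X' h v y))‖ ≤
      10 / 9 * (1128 / 1000) * (X' - X) := by
    rw [← map_sub, conj_norm]
    exact hTV
  have hcQ : ‖conj (TT (xi P h) (Qh P X h v y)) - conj (TT (xi P h) (Qh P X' h v y))‖ ≤
      10 / 9 * (1128 / 1000 * (3 / 2)) * (X' - X) := by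
    rw [← map_sub, conj_norm]
    exact hTQ
  unfold EE OO
  set A1 := TT (xi P h) (Vh P X h v y)
  set A2 := TT (xi P h) (Vh P X' h v y)
  set B1 := TT (xi P h) (Qh P X h v y)
  set B2 := TT (xi P h) (Qh P X' h v y)
  constructor
  · have e1 : (P.nu / 2) • (A1 + conj A1) - (1 / 2 : ℝ) • (YY P h * (B1 + conj B1)) -
        ((P.nu / 2) • (A2 + conj A2) - (1 / 2 : ℝ) • (YY P h * (B2 + conj B2))) =
        (P.nu / 2) • ((A1 - A2) + (conj A1 - conj A2)) -
          (1 / 2 : ℝ) • (YY P h * ((B1 - B2) + (conj B1 - conj B2))) := by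
      have e2 : YY P h * ((B1 - B2) + (conj B1 - conj B2)) =
          YY P h * (B1 + conj B1) - YY P h * (B2 + conj B2) := by ring
      have e3 : (A1 - A2) + (conj A1 - conj A2) = (A1 + conj A1) - (A2 + conj A2) := by abel
      rw [e2, e3, smul_sub, smul_sub]
      abel
    rw [e1]
    have n1 : ‖(P.nu / 2) • ((A1 - A2) + (conj A1 - conj A2))‖ ≤
        P.nu / 2 * (2 * (10 / 9 * (1128 / 1000) * (X' - X))) := by
      rw [norm_smul, Real.norm_eq_abs, abs_of_nonneg (by linarith)]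
      refine mul_le_mul_of_nonneg_left ?_ (by linarith)
      refine (norm_add_le _ _).trans ?_
      linarith
    have n2 : ‖(1 / 2 : ℝ) • (YY P h * ((B1 - B2) + (conj B1 - conj B2)))‖ ≤
        1 / 2 * (2 * (2 * (10 / 9 * (1128 / 1000 * (3 / 2)) * (X' - X)))) := by
      rw [norm_smul, Real.norm_eq_abs, abs_of_nonneg (by norm_num)]
      refine mul_le_mul_of_nonneg_left ?_ (by norm_num)
      refine (norm_mul_le _ _).trans ?_
      refine mul_le_mul hY1 ?_ (norm_nonneg _) (by norm_num)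
      refine (norm_add_le _ _).trans ?_
      linarith
    have n3 : P.nu / 2 * (2 * (10 / 9 * (1128 / 1000) * (X' - X))) ≤ 2 * (X' - X) := by
      nlinarith
    have n4 := norm_sub_le ((P.nu / 2) • ((A1 - A2) + (conj A1 - conj A2)))
      ((1 / 2 : ℝ) • (YY P h * ((B1 - B2) + (conj B1 - conj B2))))
    linarith
  · have e1 : A1 - conj A1 - (A2 - conj A2) = (A1 - A2) - (conj A1 - conj A2) := by abel
    rw [e1]
    have n4 := norm_sub_le (A1 - A2) (conj A1 - conj A2)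
    linarith

end Pool.Agent.N229.SC
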