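import Pool.Agent.N229.SC.Stm

/-!
Project SC (helper229), part N1: Bessel functions `J_m(ρ)` by power series, positivity for
`m ≥ ρ`. By helper488.
-/

set_option autoImplicit false

open Set Filter Topology

namespace Pool.Agent.N229.SC

/-- The terms of the series. -/
private noncomputable def n1T (x : ℝ) (m k : ℕ) : ℝ :=
  (-1) ^ k * x ^ (2 * k + m) / (k.factorial * (k + m).factorial)

private theorem n1_abs {x : ℝ} (hx : 0 < x) (m k : ℕ) :
    |n1T x m k| = x ^ (2 * k + m) / (k.factorial * (k + m).factorial) := by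
  rw [n1T, abs_div, abs_mul, abs_pow, abs_neg, abs_one, one_pow, one_mul,
    abs_of_pos (pow_pos hx _), abs_of_pos (by positivity)]

private theorem n1_le {x : ℝ} (hx : 0 < x) (m k : ℕ) :
    |n1T x m k| ≤ x ^ m / m.factorial * ((x ^ 2) ^ k / k.factorial) := by
  rw [n1_abs hx, pow_add, pow_mul]
  have h1 : (m.factorial : ℝ) ≤ (k + m).factorial := by
    exact_mod_cast Nat.factorial_le (Nat.le_add_left m k)
  have h2 : (0 : ℝ) < m.factorial := by exact_mod_cast Nat.factorial_pos m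
  have h3 : (0 : ℝ) < k.factorial := by exact_mod_cast Nat.factorial_pos k
  calc (x ^ 2) ^ k * x ^ m / (k.factorial * (k + m).factorial)
      ≤ (x ^ 2) ^ k * x ^ m / (k.factorial * m.factorial) := by gcongr
    _ = _ := by field_simp

private theorem n1_le' {x : ℝ} (hx : 0 < x) {m : ℕ} (hm : 4 * x ^ 2 ≤ m + 1) (k : ℕ) :
    |n1T x m k| ≤ x ^ m / m.factorial * (1 / 4) ^ k := by
  rw [n1_abs hx, pow_add, pow_mul]
  have h1 : (m.factorial : ℝ) * ((m : ℝ) + 1) ^ k ≤ (k + m).factorial := by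
    rw [add_comm k m]
    exact_mod_cast Nat.factorial_mul_pow_le_factorial (m := m) (n := k)
  have h2 : (0 : ℝ) < m.factorial := by exact_mod_cast Nat.factorial_pos m
  have h3 : (1 : ℝ) ≤ k.factorial := by exact_mod_cast Nat.factorial_pos k
  have h4 : (0 : ℝ) < (m : ℝ) + 1 := by positivity
  have h5 : (x ^ 2) ^ k ≤ (1 / 4) ^ k * ((m : ℝ) + 1) ^ k := by
    rw [← mul_pow]
    exact pow_le_pow_left₀ (by positivity) (by linarith) k
  rw [div_le_iff₀ (by positivity)]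
  calc (x ^ 2) ^ k * x ^ m ≤ ((1 / 4) ^ k * ((m : ℝ) + 1) ^ k) * x ^ m := by gcongr
    _ = x ^ m / m.factorial * (1 / 4) ^ k * (1 * (m.factorial * ((m : ℝ) + 1) ^ k)) := by
        field_simp
    _ ≤ x ^ m / m.factorial * (1 / 4) ^ k * (k.factorial * (k + m).factorial) := by gcongr

private theorem n1_summ {x : ℝ} (hx : 0 < x) (m : ℕ) : Summable (fun k => |n1T x m k|) :=
  Summable.of_nonneg_of_le (fun _ => abs_nonneg _) (n1_le hx m)
    ((Real.summable_pow_div_factorial (x ^ 2)).mul_left _)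

private theorem n1_zero {x : ℝ} (m : ℕ) : n1T x m 0 = x ^ m / m.factorial := by
  simp [n1T]

private theorem n1_rec0 {x : ℝ} (hx : 0 < x) (m : ℕ) :
    n1T x m 0 = (m + 1) / x * n1T x (m + 1) 0 := by
  rw [n1_zero, n1_zero, Nat.factorial_succ]
  have h2 : (m.factorial : ℝ) ≠ 0 := by exact_mod_cast (Nat.factorial_pos m).ne'
  have h4 : (m : ℝ) + 1 ≠ 0 := by positivity
  push_cast
  rw [pow_succ]
  field_simp

private theorem n1_rec {x : ℝ} (hx : 0 < x) (m k : ℕ) :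
    n1T x m (k + 1) = (m + 1) / x * n1T x (m + 1) (k + 1) - n1T x (m + 2) k := by
  have h2 : ((k + m + 1).factorial : ℝ) ≠ 0 := by exact_mod_cast (Nat.factorial_pos _).ne'
  have h3 : (k.factorial : ℝ) ≠ 0 := by exact_mod_cast (Nat.factorial_pos _).ne'
  have h4 : (k : ℝ) + m + 1 + 1 ≠ 0 := by positivity
  have h5 : (k : ℝ) + 1 ≠ 0 := by positivity
  have e1 : k + 1 + m = k + m + 1 := by ring
  have e2 : k + 1 + (m + 1) = (k + m + 1) + 1 := by ring
  have e3 : k + (m + 2) = (k + m + 1) + 1 := by ring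
  have e4 : 2 * (k + 1) + m = 2 * k + m + 2 := by ring
  have e5 : 2 * (k + 1) + (m + 1) = (2 * k + m + 2) + 1 := by ring
  have e6 : 2 * k + (m + 2) = 2 * k + m + 2 := by ring
  rw [n1T, n1T, n1T, e1, e2, e3, e4, e5, e6, Nat.factorial_succ (k + m + 1), Nat.factorial_succ k,
    pow_succ x (2 * k + m + 2), pow_succ (-1 : ℝ) k]
  push_cast
  field_simp
  ring

private theorem n1_Fb (ρ : ℝ) (m : ℕ) : Fb ρ m = ∑' k : ℕ, n1T (ρ / 2) m k := rfl

private theorem n1_Frec {x : ℝ} (hx : 0 < x) (m : ℕ) :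
    ∑' k, n1T x m k = (m + 1) / x * ∑' k, n1T x (m + 1) k - ∑' k, n1T x (m + 2) k := by
  have s0 := (n1_summ hx m).of_abs
  have s1 := (n1_summ hx (m + 1)).of_abs
  have s2 := (n1_summ hx (m + 2)).of_abs
  have s1' : Summable (fun k => n1T x (m + 1) (k + 1)) := (summable_nat_add_iff 1).2 s1
  rw [s0.tsum_eq_zero_add, s1.tsum_eq_zero_add, n1_rec0 hx]
  have e : ∑' k, n1T x m (k + 1) =
      (m + 1) / x * ∑' k, n1T x (m + 1) (k + 1) - ∑' k, n1T x (m + 2) k := by
    rw [← tsum_mul_left, ← (s1'.mul_left _).tsum_sub s2]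
    exact tsum_congr fun k => n1_rec hx m k
  rw [e]
  ring

private theorem n1_bound {x : ℝ} (hx : 0 < x) (m : ℕ) :
    |∑' k, n1T x m k| ≤ Real.exp x * Real.exp (x ^ 2) := by
  have h1 : |∑' k, n1T x m k| ≤ ∑' k, |n1T x m k| := by
    have := norm_tsum_le_tsum_norm (f := fun k => n1T x m k) (by simpa using n1_summ hx m)
    simpa using this
  have h2 : ∑' k, |n1T x m k| ≤ ∑' k : ℕ, x ^ m / m.factorial * ((x ^ 2) ^ k / k.factorial) :=
    (n1_summ hx m).tsum_le_tsum (n1_le hx m) ((Real.summable_pow_div_factorial (x ^ 2)).mul_left _)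
  have h3 : ∑' k : ℕ, (x ^ 2) ^ k / k.factorial = Real.exp (x ^ 2) := by
    rw [Real.exp_eq_exp_ℝ, NormedSpace.exp_eq_tsum_div]
  rw [tsum_mul_left, h3] at h2
  have h4 : x ^ m / m.factorial ≤ Real.exp x := by
    have h5 := (Real.summable_pow_div_factorial x).le_tsum m
      (fun j _ => by positivity)
    rw [Real.exp_eq_exp_ℝ, NormedSpace.exp_eq_tsum_div]
    exact h5
  exact h1.trans (h2.trans (mul_le_mul_of_nonneg_right h4 (Real.exp_pos _).le))

private theorem n1_large {x : ℝ} (hx : 0 < x) {m : ℕ} (hm : 4 * x ^ 2 ≤ m + 1) :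
    2 / 3 * (x ^ m / m.factorial) ≤ ∑' k, n1T x m k ∧
      ∑' k, n1T x m k ≤ 4 / 3 * (x ^ m / m.factorial) := by
  have s0 := (n1_summ hx m).of_abs
  have g : Summable (fun k : ℕ => (1 / 4 : ℝ) ^ k) :=
    summable_geometric_of_lt_one (by norm_num) (by norm_num)
  have g1 : Summable (fun k : ℕ => x ^ m / m.factorial * (1 / 4 : ℝ) ^ (k + 1)) :=
    ((summable_nat_add_iff 1).2 g).mul_left _
  have s1 : Summable (fun k => |n1T x m (k + 1)|) := (summable_nat_add_iff 1).2 (n1_summ hx m)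
  have h1 : |∑' k, n1T x m (k + 1)| ≤ ∑' k, |n1T x m (k + 1)| := by
    have := norm_tsum_le_tsum_norm (f := fun k => n1T x m (k + 1)) (by simpa using s1)
    simpa using this
  have h2 : ∑' k, |n1T x m (k + 1)| ≤ ∑' k : ℕ, x ^ m / m.factorial * (1 / 4 : ℝ) ^ (k + 1) :=
    s1.tsum_le_tsum (fun k => n1_le' hx hm (k + 1)) g1
  have h3 : ∑' k : ℕ, x ^ m / m.factorial * (1 / 4 : ℝ) ^ (k + 1) =
      x ^ m / m.factorial * (1 / 3) := by
    rw [tsum_mul_left]
    congr 1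
    have : ∀ k : ℕ, (1 / 4 : ℝ) ^ (k + 1) = 1 / 4 * (1 / 4) ^ k := fun k => by rw [pow_succ]; ring
    rw [tsum_congr this, tsum_mul_left, tsum_geometric_of_lt_one (by norm_num) (by norm_num)]
    norm_num
  rw [h3] at h2
  have h4 := abs_le.1 (h1.trans h2)
  rw [s0.tsum_eq_zero_add, n1_zero]
  constructor <;> linarith [h4.1, h4.2]

/-- SC-N1. -/
theorem proof_N1 : S_N1 := by
  intro ρ hρ
  have hx : 0 < ρ / 2 := by linarith
  have hrec : ∀ m : ℕ, Fb ρ m = 2 * (m + 1) / ρ * Fb ρ (m + 1) - Fb ρ (m + 2) := by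
    intro m
    rw [n1_Fb, n1_Fb, n1_Fb, n1_Frec hx m]
    congr 2
    field_simp
  refine ⟨hrec, ⟨_, fun m => n1_bound hx m⟩, ?_⟩
  obtain ⟨m0, hm0⟩ := exists_nat_ge (4 * (ρ / 2) ^ 2 + 2 * (ρ / 2))
  have hbase : ∀ m : ℕ, m0 ≤ m → 0 < Fb ρ m ∧ Fb ρ (m + 1) ≤ Fb ρ m := by
    intro m hm
    have hm' : (m0 : ℝ) ≤ m := by exact_mod_cast hm
    have hsq : 0 ≤ (ρ / 2) ^ 2 := sq_nonneg _
    have h1 := (n1_large hx (m := m) (by linarith)).1
    have h2 := (n1_large hx (m := m + 1) (by push_cast; linarith)).2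
    have hf : (0 : ℝ) < m.factorial := by exact_mod_cast Nat.factorial_pos m
    have hpos : 0 < (ρ / 2) ^ m / m.factorial := div_pos (pow_pos hx m) hf
    rw [← n1_Fb] at h1 h2
    refine ⟨by linarith, h2.trans (le_trans ?_ h1)⟩
    rw [Nat.factorial_succ, pow_succ]
    push_cast
    have hm1 : (0 : ℝ) < (m : ℝ) + 1 := by positivity
    have e : 4 / 3 * ((ρ / 2) ^ m * (ρ / 2) / (((m : ℝ) + 1) * m.factorial)) =
        2 / 3 * ((ρ / 2) ^ m / m.factorial) * (2 * (ρ / 2) / ((m : ℝ) + 1)) := by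
      field_simp
      ring
    rw [e]
    have h3 : 2 * (ρ / 2) / ((m : ℝ) + 1) ≤ 1 := by
      rw [div_le_one hm1]
      linarith
    exact mul_le_of_le_one_right (by linarith) h3
  have hall : ∀ d m : ℕ, ρ ≤ m → m0 ≤ m + d → 0 < Fb ρ m ∧ Fb ρ (m + 1) ≤ Fb ρ m := by
    intro d
    induction d with
    | zero => intro m _ hm; exact hbase m (by simpa using hm)
    | succ d ih =>
      intro m hρm hm
      obtain ⟨h1, h2⟩ := ih (m + 1) (by push_cast; linarith) (by omega)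
      have h3 := hrec m
      have h4 : 2 ≤ 2 * ((m : ℝ) + 1) / ρ := by
        rw [le_div_iff₀ hρ]
        linarith
      have h5 : 2 * Fb ρ (m + 1) ≤ 2 * ((m : ℝ) + 1) / ρ * Fb ρ (m + 1) :=
        mul_le_mul_of_nonneg_right h4 h1.le
      have h6 : Fb ρ (m + 2) ≤ Fb ρ (m + 1) := h2
      constructor <;> linarith
  intro m hm
  exact hall m0 m hm (by omega)

end Pool.Agent.N229.SC
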