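import Pool.Agent.N229.SC.Stm

set_option autoImplicit false

/-!
Project SC, part N2: propagation of errors in the backward recurrence.
-/

namespace Pool.Agent.N229.SC

/-- the crude bound: the errors grow at most by the factor `4` in one step -/
private theorem n2_a (ρ : ℝ) (M : ℕ) (e : ℕ → ℝ) (hρ : 100 < ρ)
    (hM1 : (M : ℝ) + 1 ≤ 101 / 100 * ρ) (h0 : e M = 0) (h1 : e (M + 1) = 0)
    (hr : ∀ m < M, |e m - (2 * (m + 1) / ρ * e (m + 1) - e (m + 2))| ≤ 1) :
    ∀ j ≤ M, |e (M - j)| + 1 ≤ 4 ^ j ∧ |e (M + 1 - j)| + 1 ≤ 4 ^ j := by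
  intro j
  induction j with
  | zero => intro _; simp [h0, h1]
  | succ j ih =>
    intro hj
    obtain ⟨ih1, ih2⟩ := ih (by omega)
    obtain ⟨m, hm⟩ : ∃ m, M = m + (j + 1) := ⟨M - (j + 1), by omega⟩
    have e1 : M - j = m + 1 := by omega
    have e2 : M + 1 - j = m + 2 := by omega
    have e3 : M - (j + 1) = m := by omega
    have e4 : M + 1 - (j + 1) = m + 1 := by omega
    rw [e1] at ih1
    rw [e2] at ih2
    rw [e3, e4]
    have h4 : (1 : ℝ) ≤ 4 ^ j := one_le_pow₀ (by norm_num)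
    have hmM : (m : ℝ) + 1 ≤ M := by
      rw [hm]; push_cast
      have : (0 : ℝ) ≤ j := Nat.cast_nonneg _
      linarith
    have hc0 : 0 ≤ 2 * ((m : ℝ) + 1) / ρ := by positivity
    have hc : 2 * ((m : ℝ) + 1) / ρ ≤ 202 / 100 := by
      rw [div_le_iff₀ (by linarith)]
      linarith
    have h5 := hr m (by omega)
    have h6 : |e m| ≤ 202 / 100 * |e (m + 1)| + |e (m + 2)| + 1 := by
      have h7 : e m = (e m - (2 * (m + 1) / ρ * e (m + 1) - e (m + 2))) +
          2 * (m + 1) / ρ * e (m + 1) - e (m + 2) := by ring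
      have h8 : |2 * ((m : ℝ) + 1) / ρ * e (m + 1)| ≤ 202 / 100 * |e (m + 1)| := by
        rw [abs_mul, abs_of_nonneg hc0]
        exact mul_le_mul_of_nonneg_right hc (abs_nonneg _)
      calc |e m| = |(e m - (2 * (m + 1) / ρ * e (m + 1) - e (m + 2))) +
          2 * (m + 1) / ρ * e (m + 1) - e (m + 2)| := by rw [← h7]
        _ ≤ |(e m - (2 * (m + 1) / ρ * e (m + 1) - e (m + 2)))| +
          |2 * (m + 1) / ρ * e (m + 1)| + |e (m + 2)| := by
            refine (abs_sub _ _).trans ?_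
            exact add_le_add_left (abs_add_le _ _) _
        _ ≤ _ := by linarith
    rw [pow_succ]
    constructor
    · nlinarith [abs_nonneg (e (m + 1)), abs_nonneg (e (m + 2))]
    · linarith

/-- one step of the recurrence for the quadratic form -/
private theorem n2_step (ρ m B x y z : ℝ) (hρ : 0 < ρ) (hm : 0 ≤ m) (hmρ : m + 1 < ρ)
    (hB : 0 ≤ B)
    (hQ : x ^ 2 - 2 * (m + 1) / ρ * x * y + y ^ 2 ≤ (ρ - (m + 1)) * B ^ 2)
    (hz : |z - (2 * (m + 1) / ρ * x - y)| ≤ 1) :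
    z ^ 2 - 2 * m / ρ * z * x + x ^ 2 ≤ (ρ - m) * (B + 1) ^ 2 := by
  set x' := 2 * (m + 1) / ρ * x - y with hx'
  set c := 2 * m / ρ with hc
  have hc1 : 2 * (m + 1) / ρ = c + 2 / ρ := by rw [hc]; ring
  have hc0 : 0 ≤ c := by positivity
  set w := ρ - m with hw
  have hw1 : 1 < w := by rw [hw]; linarith
  have h2c : 2 - c = 2 / ρ * w := by
    rw [hc, hw]; field_simp
  have h2r : 0 < 2 / ρ := by positivity
  have hc2 : c < 2 := by
    have : 0 < 2 / ρ * w := by positivity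
    linarith
  set q := x' ^ 2 - c * x' * x + x ^ 2 with hq
  have hqQ : q = (x ^ 2 - 2 * (m + 1) / ρ * x * y + y ^ 2) + 2 / ρ * (x' * x) := by
    rw [hq, hx', hc1]; ring
  have hab : x' * x * (2 - c) ≤ q := by
    rw [hq]
    nlinarith [sq_nonneg (x' - x)]
  have h3 : q * (w - 1) ≤ w * ((w - 1) * B ^ 2) := by
    have h4 : ρ - (m + 1) = w - 1 := by rw [hw]; ring
    rw [h4] at hQ
    have h5 : 2 / ρ * (x' * x) * w ≤ q := by
      rw [h2c] at hab
      linarith
    have h6 : q * w ≤ w * ((w - 1) * B ^ 2) + q := by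
      calc q * w = (x ^ 2 - 2 * (m + 1) / ρ * x * y + y ^ 2) * w + 2 / ρ * (x' * x) * w := by
            rw [hqQ]; ring
        _ ≤ ((w - 1) * B ^ 2) * w + q :=
            add_le_add (mul_le_mul_of_nonneg_right hQ (by linarith)) h5
        _ = _ := by ring
    linarith
  have h7 : q ≤ w * B ^ 2 := by
    have h8 : q * (w - 1) ≤ (w * B ^ 2) * (w - 1) := by linarith
    exact le_of_mul_le_mul_right h8 (by linarith)
  set u := x' - c * x / 2 with hu
  have h9 : u ^ 2 ≤ q := by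
    have h10 : q = u ^ 2 + (1 - c ^ 2 / 4) * x ^ 2 := by rw [hq, hu]; ring
    have h11 : 0 ≤ (1 - c ^ 2 / 4) * x ^ 2 := by
      apply mul_nonneg _ (sq_nonneg _)
      nlinarith
    linarith
  have h12 : |u| ≤ w * B := by
    apply abs_le_of_sq_le_sq _ (by positivity)
    nlinarith [sq_nonneg B, mul_nonneg (by linarith : 0 ≤ w) (sq_nonneg B)]
  set δ := z - x' with hδ
  have hz' : z = x' + δ := by rw [hδ]; ring
  have h13 : z ^ 2 - c * z * x + x ^ 2 = q + 2 * (δ * u) + δ ^ 2 := by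
    rw [hz', hq, hu]; ring
  have h14 : δ * u ≤ w * B := by
    calc δ * u ≤ |δ * u| := le_abs_self _
      _ = |δ| * |u| := abs_mul _ _
      _ ≤ 1 * (w * B) := mul_le_mul hz h12 (abs_nonneg _) zero_le_one
      _ = _ := one_mul _
  have h15 : δ ^ 2 ≤ 1 := by
    rw [sq_le_one_iff_abs_le_one]; exact hz
  rw [h13]
  nlinarith

theorem proof_N2 : S_N2 := by
  intro ρ M L e hρ hρM hML hM1 h0 h1 hr
  have ha := n2_a ρ M e hρ hM1 h0 h1 hr
  have hρ0 : 0 < ρ := by linarith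
  obtain ⟨m0, hm0⟩ : ∃ m0, ⌊ρ⌋₊ = m0 + 1 := by
    refine ⟨⌊ρ⌋₊ - 1, ?_⟩
    have : 1 ≤ ⌊ρ⌋₊ := Nat.le_floor (by push_cast; linarith)
    omega
  have hf1 : ((m0 : ℝ) + 1) ≤ ρ := by
    have := Nat.floor_le hρ0.le
    rw [hm0] at this
    push_cast at this
    exact this
  have hf2 : ρ < (m0 : ℝ) + 2 := by
    have := Nat.lt_floor_add_one ρ
    rw [hm0] at this
    push_cast at this
    linarith
  have hmM : m0 + 1 ≤ M := by
    have : (m0 : ℝ) + 1 ≤ M := hf1.trans hρM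
    exact_mod_cast this
  have hML' : M + 1 < m0 + L := by
    have : (M : ℝ) + 1 < m0 + L := by linarith
    exact_mod_cast this
  obtain ⟨l, hl⟩ : ∃ l, L = l + 2 := ⟨L - 2, by omega⟩
  have hMl : M - m0 ≤ l := by omega
  set t : ℝ := 4 ^ l with ht
  have ht1 : 1 ≤ t := one_le_pow₀ (by norm_num)
  have h4L : (4 : ℝ) ^ L = 16 * t := by rw [hl, pow_add, ht]; ring
  -- the crude bound on `m0 ≤ m ≤ M`
  have hb : ∀ m, m0 ≤ m → m ≤ M + 1 → |e m| ≤ t := by
    intro m hm1 hm2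
    rcases Nat.lt_or_ge M m with h | h
    · have : m = M + 1 := by omega
      rw [this, h1, abs_zero]
      linarith
    · have h3 := (ha (M - m) (by omega)).1
      have h4 : M - (M - m) = m := by omega
      rw [h4] at h3
      have h5 : (4 : ℝ) ^ (M - m) ≤ 4 ^ l := pow_le_pow_right₀ (by norm_num) (by omega)
      linarith
  have hx := hb m0 le_rfl (by omega)
  have hy := hb (m0 + 1) (by omega) (by omega)
  -- the quadratic form
  have hc : ∀ k ≤ m0, e (m0 - k) ^ 2 - 2 * ((m0 - k : ℕ) : ℝ) / ρ * e (m0 - k) * e (m0 - k + 1) +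
      e (m0 - k + 1) ^ 2 ≤ (ρ - ((m0 - k : ℕ) : ℝ)) * (2 * t + k) ^ 2 := by
    intro k
    induction k with
    | zero =>
      intro _
      simp only [Nat.sub_zero, Nat.cast_zero, add_zero]
      have hc0 : 0 ≤ 2 * (m0 : ℝ) / ρ := by positivity
      have hc2 : 2 * (m0 : ℝ) / ρ ≤ 2 := by
        rw [div_le_iff₀ hρ0]; linarith
      have h5 : -(2 * (m0 : ℝ) / ρ * e m0 * e (m0 + 1)) ≤ 2 * (t * t) := by
        calc -(2 * (m0 : ℝ) / ρ * e m0 * e (m0 + 1)) ≤ |2 * (m0 : ℝ) / ρ * e m0 * e (m0 + 1)| :=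
              neg_le_abs _
          _ = 2 * (m0 : ℝ) / ρ * (|e m0| * |e (m0 + 1)|) := by
              rw [abs_mul, abs_mul, abs_of_nonneg hc0]; ring
          _ ≤ 2 * (t * t) := by
              apply mul_le_mul hc2 _ (by positivity) (by norm_num)
              exact mul_le_mul hx hy (abs_nonneg _) (by linarith)
      have h6 : e m0 ^ 2 ≤ t ^ 2 := by
        rw [← sq_abs (e m0)]
        exact pow_le_pow_left₀ (abs_nonneg _) hx 2
      have h7 : e (m0 + 1) ^ 2 ≤ t ^ 2 := by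
        rw [← sq_abs (e (m0 + 1))]
        exact pow_le_pow_left₀ (abs_nonneg _) hy 2
      have h8 : (2 * t) ^ 2 ≤ (ρ - (m0 : ℝ)) * (2 * t) ^ 2 := by
        have : 0 ≤ (2 * t) ^ 2 := sq_nonneg _
        nlinarith
      nlinarith
    | succ k ih =>
      intro hk
      have ih := ih (by omega)
      obtain ⟨m, hm⟩ : ∃ m, m0 = m + (k + 1) := ⟨m0 - (k + 1), by omega⟩
      have e1 : m0 - k = m + 1 := by omega
      have e2 : m0 - (k + 1) = m := by omega
      rw [e1] at ih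
      rw [e2]
      have h3 := hr m (by omega)
      have hmρ : (m : ℝ) + 1 < ρ := by
        have : (m : ℝ) + 1 ≤ m0 := by
          rw [hm]; push_cast
          have : (0 : ℝ) ≤ k := Nat.cast_nonneg _
          linarith
        linarith
      push_cast at ih ⊢
      have h4 := n2_step ρ m (2 * t + k) (e (m + 1)) (e (m + 1 + 1)) (e m) hρ0 (Nat.cast_nonneg _)
        hmρ (by positivity) ih h3
      have h5 : 2 * t + ((k : ℝ) + 1) = 2 * t + k + 1 := by ring
      rw [h5]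
      exact h4
  intro m hm
  rcases Nat.lt_or_ge m0 m with h | h
  · have h2 := hb m h.le (by omega)
    rw [h4L]
    have h3 : 1 ≤ ρ ^ 2 := one_le_pow₀ (by linarith)
    have h4 : 1 * (16 * t) ≤ ρ ^ 2 * (16 * t) := mul_le_mul_of_nonneg_right h3 (by linarith)
    linarith
  · obtain ⟨k, hk⟩ : ∃ k, m0 = m + k := ⟨m0 - m, by omega⟩
    have h2 := hc k (by omega)
    have e1 : m0 - k = m := by omega
    rw [e1] at h2
    have hkρ : (m : ℝ) + k ≤ ρ := by
      have : ((m0 : ℕ) : ℝ) = (m : ℝ) + k := by rw [hk]; push_cast; ring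
      linarith
    have hmk : (0 : ℝ) ≤ k := Nat.cast_nonneg _
    have hm0' : (0 : ℝ) ≤ m := Nat.cast_nonneg _
    have hmρ : (m : ℝ) + 1 ≤ ρ := by
      have : ((m0 : ℕ) : ℝ) = (m : ℝ) + k := by rw [hk]; push_cast; ring
      linarith
    set B := 2 * t + (k : ℝ) with hB
    have hB0 : 0 ≤ B := by positivity
    -- `((ρ - m) / ρ) x ^ 2 ≤ Q`
    have h3 : (1 - ((m : ℝ) / ρ) ^ 2) * e m ^ 2 ≤
        e m ^ 2 - 2 * (m : ℝ) / ρ * e m * e (m + 1) + e (m + 1) ^ 2 := by
      have : e m ^ 2 - 2 * (m : ℝ) / ρ * e m * e (m + 1) + e (m + 1) ^ 2 =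
          (1 - ((m : ℝ) / ρ) ^ 2) * e m ^ 2 + (e (m + 1) - (m : ℝ) / ρ * e m) ^ 2 := by ring
      rw [this]
      linarith [sq_nonneg (e (m + 1) - (m : ℝ) / ρ * e m)]
    have hs0 : 0 ≤ (m : ℝ) / ρ := by positivity
    have hs1 : (m : ℝ) / ρ ≤ 1 := by
      rw [div_le_one hρ0]; linarith
    have h4 : (ρ - m) / ρ ≤ 1 - ((m : ℝ) / ρ) ^ 2 := by
      have : (ρ - m) / ρ = 1 - (m : ℝ) / ρ := by field_simp
      rw [this]
      nlinarith
    have h5 : (ρ - m) / ρ * e m ^ 2 ≤ (ρ - m) * B ^ 2 :=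
      (mul_le_mul_of_nonneg_right h4 (sq_nonneg _)).trans (h3.trans h2)
    have h6 : e m ^ 2 ≤ ρ * B ^ 2 := by
      have h7 : (ρ - m) * e m ^ 2 ≤ (ρ - m) * (ρ * B ^ 2) := by
        have h8 : (ρ - m) / ρ * e m ^ 2 * ρ = (ρ - m) * e m ^ 2 := by field_simp
        have h9 := mul_le_mul_of_nonneg_right h5 hρ0.le
        rw [h8] at h9
        linarith
      exact le_of_mul_le_mul_left h7 (by linarith)
    have h7 : |e m| ≤ ρ * B := by
      apply abs_le_of_sq_le_sq _ (by positivity)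
      nlinarith [mul_nonneg hρ0.le (sq_nonneg B)]
    rw [h4L]
    have h8 : B ≤ ρ * (16 * t) := by
      rw [hB]
      nlinarith
    calc |e m| ≤ ρ * B := h7
      _ ≤ ρ * (ρ * (16 * t)) := mul_le_mul_of_nonneg_left h8 hρ0.le
      _ = _ := by ring

end Pool.Agent.N229.SC
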