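import Pool.Agent.N229.SC.Stm

set_option autoImplicit false

/-!
Project SC (leaf by helper694): the domain is not a disc.
-/

open Set Filter Topology

namespace Pool.Agent.N229.SC

/-- if the circle around `a` is contained in the circle of the same radius around `b`, then `a = b` -/
private theorem nb_centre {a b : ℂ} {s : ℝ} (hs : 0 < s)
    (h : ∀ x ∈ Metric.sphere a s, x ∈ Metric.sphere b s) : a = b := by
  by_contra hne
  have hc : a - b ≠ 0 := sub_ne_zero.2 hne
  have hcn : 0 < ‖a - b‖ := norm_pos_iff.2 hc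
  have h1 : a + ((s / ‖a - b‖ : ℝ) : ℂ) * (a - b) ∈ Metric.sphere a s := by
    rw [mem_sphere_iff_norm, add_sub_cancel_left, norm_mul, Complex.norm_real, Real.norm_eq_abs,
      abs_of_pos (by positivity)]
    field_simp
  have h2 := h _ h1
  rw [mem_sphere_iff_norm] at h2
  have h3 : a + ((s / ‖a - b‖ : ℝ) : ℂ) * (a - b) - b = ((1 + s / ‖a - b‖ : ℝ) : ℂ) * (a - b) := by
    push_cast
    ring
  rw [h3, norm_mul, Complex.norm_real, Real.norm_eq_abs, abs_of_pos (by positivity)] at h2
  have h4 : (1 + s / ‖a - b‖) * ‖a - b‖ = ‖a - b‖ + s := by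
    field_simp
  rw [h4] at h2
  linarith

theorem proof_NB (hINJ : S_INJ) (hTOP : S_TOP) : S_NB := by
  intro ρ r f hf hn a s heq
  have _ := hINJ
  obtain ⟨_, _, _, _, hfr, _⟩ := hTOP ρ r f hf
  have h0 : (0 : ℂ) ∈ Om f := ⟨0, Metric.mem_ball_self one_pos, hf.f_zero⟩
  have hs : 0 < s := by
    rw [heq] at h0
    exact Metric.pos_of_mem_ball h0
  have hsph : Metric.sphere a s = f '' Metric.sphere 0 1 := by
    rw [← hfr, heq, frontier_ball a hs.ne']
  obtain ⟨ω, hω, hω1, hsym⟩ := hn.sym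
  have hω0 : ω ≠ 0 := by
    intro h
    rw [h, norm_zero] at hω
    exact zero_ne_one hω
  have ha : a = ω⁻¹ * a := by
    apply nb_centre hs
    intro x hx
    have hx' := hx
    rw [hsph] at hx
    obtain ⟨z, hz, rfl⟩ := hx
    rw [mem_sphere_zero_iff_norm] at hz
    have h1 : f (ω * z) ∈ Metric.sphere a s := by
      rw [hsph]
      refine ⟨ω * z, ?_, rfl⟩
      rw [mem_sphere_zero_iff_norm, norm_mul, hω, hz, one_mul]
    rw [hsym z hz.le, mem_sphere_iff_norm] at h1
    rw [mem_sphere_iff_norm]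
    have h2 : ω * f z - a = ω * (f z - ω⁻¹ * a) := by
      field_simp
    rw [h2, norm_mul, hω, one_mul] at h1
    exact h1
  have ha0 : a = 0 := by
    have h1 : ω * a = a := by
      conv_lhs => rw [ha]
      field_simp
    have h2 : (ω - 1) * a = 0 := by
      rw [sub_mul, h1, one_mul, sub_self]
    rcases mul_eq_zero.1 h2 with h3 | h3
    · exact absurd (sub_eq_zero.1 h3) hω1
    · exact h3
  obtain ⟨z₁, z₂, h1, h2, h12⟩ := hn.nc
  apply h12
  have key : ∀ z : ℂ, ‖z‖ = 1 → ‖f z‖ = s := by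
    intro z hz
    have h3 : f z ∈ Metric.sphere a s := by
      rw [hsph]
      exact ⟨z, mem_sphere_zero_iff_norm.2 hz, rfl⟩
    rw [ha0, mem_sphere_zero_iff_norm] at h3
    exact h3
  rw [key z₁ h1, key z₂ h2]

end Pool.Agent.N229.SC
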