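import Pool.Agent.N229.SC.Stm

/-!
Project SC (helper229), problem MP_83fd13_an: part NUM, existence of the parameters.
-/

set_option autoImplicit false

open Set Filter Topology MeasureTheory

namespace Pool.Agent.N229.SC

/-- the radius -/
private noncomputable def nr : ℝ := 2 ^ 129 / (NN : ℝ)

private theorem NN_val : (NN : ℝ) = 11264503503005008507242120981555936 := by
  unfold NN
  norm_num

private theorem nr_facts : (60416 : ℝ) ≤ nr ∧ nr ≤ 60417 ∧ (NN : ℝ) = 2 ^ 129 / nr := by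
  unfold nr
  rw [NN_val]
  norm_num

/-- the comparison of the Bessel functions with the computed sequences -/
private theorem cmp (ρ : ℝ) (h1 : 60416 ≤ ρ) (h2 : ρ ≤ 60417) (h3 : (NN : ℝ) = 2 ^ 129 / ρ)
    (hN2 : S_N2) (F : ℕ → ℝ) (hF : ∀ m : ℕ, F m = 2 * (m + 1) / ρ * F (m + 1) - F (m + 2))
    (r : ℝ) (hr0 : 0 ≤ r) (hr1 : r ≤ 1) (hM : F 60816 = 2 ^ 1000)
    (hM1 : F 60817 = r * 2 ^ 1000) (x z : ℕ → ℤ)
    (x0 : x 60816 = 2 ^ 1000) (x1 : x 60817 = 0)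
    (xr : ∀ m < 60816, |2 ^ 128 * x m - ((m + 1) * NN * x (m + 1) - 2 ^ 128 * x (m + 2))| ≤ 2 ^ 128)
    (z0 : z 60816 = 2 ^ 1000) (z1 : z 60817 = 2 ^ 1000)
    (zr : ∀ m < 60816, |2 ^ 128 * z m - ((m + 1) * NN * z (m + 1) - 2 ^ 128 * z (m + 2))| ≤ 2 ^ 128) :
    ∀ m ≤ 60816, |F m - ((1 - r) * x m + r * z m)| ≤ 2 ^ 838 := by
  have hρ : 0 < ρ := by linarith
  have key : ∀ (y : ℕ → ℤ) (m : ℕ),
      |2 ^ 128 * y m - ((m + 1) * NN * y (m + 1) - 2 ^ 128 * y (m + 2))| ≤ 2 ^ 128 →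
      |(y m : ℝ) - (2 * (m + 1) / ρ * y (m + 1) - y (m + 2))| ≤ 1 := by
    intro y m h
    have h4 : |(2 : ℝ) ^ 128 * y m - ((m + 1) * NN * y (m + 1) - 2 ^ 128 * y (m + 2))| ≤ 2 ^ 128 := by
      exact_mod_cast h
    rw [h3] at h4
    have h5 : (2 : ℝ) ^ 128 * y m - ((m + 1) * (2 ^ 129 / ρ) * y (m + 1) - 2 ^ 128 * y (m + 2)) =
        2 ^ 128 * ((y m : ℝ) - (2 * (m + 1) / ρ * y (m + 1) - y (m + 2))) := by
      field_simp
    rw [h5, abs_mul, abs_of_pos (by positivity : (0 : ℝ) < 2 ^ 128)] at h4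
    have h6 : (2 : ℝ) ^ 128 * |(y m : ℝ) - (2 * (m + 1) / ρ * y (m + 1) - y (m + 2))| ≤
        2 ^ 128 * 1 := by rw [mul_one]; exact h4
    exact le_of_mul_le_mul_left h6 (by positivity)
  have h7 := hN2 ρ 60816 403 (fun m => F m - ((1 - r) * x m + r * z m)) (by linarith)
    (by push_cast; linarith) (by push_cast; linarith) (by push_cast; linarith)
    (by
      simp only [hM, x0, z0]
      push_cast
      ring)
    (by
      have e : (60816 + 1 : ℕ) = 60817 := rfl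
      simp only [e, hM1, x1, z1]
      push_cast
      ring)
    (by
      intro m hm
      have hx := abs_le.1 (key x m (xr m hm))
      have hz := abs_le.1 (key z m (zr m hm))
      have hFm := hF m
      set A := 2 * ((m : ℝ) + 1) / ρ with hA
      have e : F m - ((1 - r) * x m + r * z m) -
          (A * (F (m + 1) - ((1 - r) * x (m + 1) + r * z (m + 1))) -
            (F (m + 2) - ((1 - r) * x (m + 2) + r * z (m + 2)))) =
          -((1 - r) * ((x m : ℝ) - (A * x (m + 1) - x (m + 2))) +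
            r * ((z m : ℝ) - (A * z (m + 1) - z (m + 2)))) := by
        rw [hFm]
        ring
      rw [e, abs_neg, abs_le]
      constructor <;> nlinarith)
  intro m hm
  refine (h7 m hm).trans ?_
  have h8 : ρ ^ 2 ≤ (2 ^ 16) ^ 2 := by
    have : ρ ≤ 2 ^ 16 := by norm_num; linarith
    gcongr
  calc ρ ^ 2 * 4 ^ 403 ≤ (2 ^ 16) ^ 2 * 4 ^ 403 := by gcongr
    _ = 2 ^ 838 := by
      rw [show (4 : ℝ) = 2 ^ 2 by norm_num, ← pow_mul, ← pow_mul, ← pow_add]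

/-- the big numbers -/
private theorem big : (10 : ℝ) ^ 16 * 2 ^ 838 ≤ 2 ^ 1000 := by
  have : (10 : ℝ) ^ 16 ≤ 2 ^ 162 := by norm_num
  calc (10 : ℝ) ^ 16 * 2 ^ 838 ≤ 2 ^ 162 * 2 ^ 838 := by gcongr
    _ = 2 ^ 1000 := by rw [← pow_add]

private theorem fin (D B y1 y2 yn ym w1 w2 wn wm : ℝ) (_hD : 0 ≤ D) (hB : 10 ^ 16 * D ≤ B)
    (hB0 : 0 < B)
    (h1 : |w1 - y1| ≤ D) (h2 : |w2 - y2| ≤ D) (hn : |wn - yn| ≤ D) (hm : |wm - ym| ≤ D)
    (a1 : B ≤ y2) (a2 : |y1| * 10 ^ 20 ≤ y2) (a3 : B ≤ -ym) (a4 : 3 * (-ym) ≤ 10 ^ 9 * yn)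
    (a5 : 10 ^ 11 * yn ≤ 305 * (-ym)) :
    0 < w2 ∧ 0 < -wm ∧ -wm ≤ 10 ^ 9 * wn ∧ 10 ^ 10 * wn ≤ 31 * (-wm) ∧ |w1| * 10 ^ 15 ≤ w2 := by
  rw [abs_le] at h1 h2 hn hm
  have hy : |w1| ≤ |y1| + D := by
    have := abs_sub_abs_le_abs_sub w1 y1
    have h3 : |w1 - y1| ≤ D := abs_le.2 h1
    linarith
  obtain ⟨h11, h12⟩ := h1
  obtain ⟨h21, h22⟩ := h2
  obtain ⟨hn1, hn2⟩ := hn
  obtain ⟨hm1, hm2⟩ := hm
  norm_num at hB a2 a4 a5 ⊢
  refine ⟨by linarith, by linarith, by linarith, by linarith, by linarith⟩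

theorem proof_NUM (hN1 : S_N1) (hN2 : S_N2) (hN3 : S_N3) : S_NUM := by
  obtain ⟨hr1, hr2, hr3⟩ := nr_facts
  have hρ : 0 < nr := by linarith
  obtain ⟨hrec, ⟨C, hC⟩, hpos⟩ := hN1 nr hρ
  obtain ⟨hM0, hM1⟩ := hpos 60816 (by push_cast; linarith)
  obtain ⟨hM2, -⟩ := hpos 60817 (by push_cast; linarith)
  obtain ⟨x, x0, x1, xr, xa, xb, xc, xd, xe⟩ := hN3 0 (Or.inl rfl)
  obtain ⟨z, z0, z1, zr, za, zb, zc, zd, ze⟩ := hN3 1 (Or.inr rfl)
  have e1 : (60816 + 1 : ℕ) = 60817 := rfl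
  rw [e1] at hM1
  -- the constant
  have hK : (0 : ℝ) < 2 ^ 1000 := pow_pos (by norm_num) _
  obtain ⟨K, hKd⟩ : ∃ K : ℝ, K = 2 ^ 1000 := ⟨_, rfl⟩
  have hKc : ((2 : ℝ) ^ 1000) = K := hKd.symm
  rw [hKc] at hK
  set r : ℝ := Fb nr 60817 / Fb nr 60816 with hr
  have hr0 : 0 ≤ r := div_nonneg hM2.le hM0.le
  have hr1' : r ≤ 1 := (div_le_one hM0).2 hM1
  set F : ℕ → ℝ := fun m => K / Fb nr 60816 * Fb nr m with hF
  have hcoef : 0 < K / Fb nr 60816 := div_pos hK hM0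
  have hFM : F 60816 = 2 ^ 1000 := by
    rw [hKc]
    simp only [hF]
    field_simp
  have hFM1 : F 60817 = r * 2 ^ 1000 := by
    rw [hKc]
    simp only [hF, hr]
    field_simp
  have hFr : ∀ m : ℕ, F m = 2 * (m + 1) / nr * F (m + 1) - F (m + 2) := by
    intro m
    simp only [hF]
    rw [hrec m]
    ring
  have hc := cmp nr hr1 hr2 hr3 hN2 F hFr r hr0 hr1' hFM hFM1 x z x0 (by rw [x1, zero_mul]) xr z0
    (by rw [z1, one_mul]) zr
  -- real versions of the inequalities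
  have cast1 : ∀ y : ℕ → ℤ, 2 ^ 1000 ≤ y 2 → |y 1| * 10 ^ 20 ≤ y 2 → 2 ^ 1000 ≤ -y 49032 →
      3 * (-y 49032) ≤ 10 ^ 9 * y 49031 → 10 ^ 11 * y 49031 ≤ 305 * (-y 49032) →
      K ≤ (y 2 : ℝ) ∧ |(y 1 : ℝ)| * 10 ^ 20 ≤ (y 2 : ℝ) ∧ K ≤ -(y 49032 : ℝ) ∧
      3 * (-(y 49032 : ℝ)) ≤ 10 ^ 9 * (y 49031 : ℝ) ∧
      10 ^ 11 * (y 49031 : ℝ) ≤ 305 * (-(y 49032 : ℝ)) := by
    intro y ha hb hc' hd he
    rw [hKd]
    refine ⟨by exact_mod_cast ha, by exact_mod_cast hb, by exact_mod_cast hc',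
      by exact_mod_cast hd, by exact_mod_cast he⟩
  obtain ⟨xa', xb', xc', xd', xe'⟩ := cast1 x xa xb xc xd xe
  obtain ⟨za', zb', zc', zd', ze'⟩ := cast1 z za zb zc zd ze
  have hs0 : 0 ≤ 1 - r := by linarith
  obtain ⟨D, hDd⟩ : ∃ D : ℝ, D = 2 ^ 838 := ⟨_, rfl⟩
  have hD0 : 0 ≤ D := by rw [hDd]; positivity
  have hbig : (10 : ℝ) ^ 16 * D ≤ K := by rw [hDd, hKd]; exact big
  have hc1 := hc 1 (by norm_num)
  have hc2 := hc 2 (by norm_num)
  have hcn := hc 49031 (by norm_num)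
  have hcm := hc 49032 (by norm_num)
  rw [← hDd] at hc1 hc2 hcn hcm
  have habs : |(1 - r) * (x 1 : ℝ) + r * z 1| ≤ (1 - r) * |(x 1 : ℝ)| + r * |(z 1 : ℝ)| := by
    calc |(1 - r) * (x 1 : ℝ) + r * z 1| ≤ |(1 - r) * (x 1 : ℝ)| + |r * z 1| := abs_add_le _ _
      _ = (1 - r) * |(x 1 : ℝ)| + r * |(z 1 : ℝ)| := by
        rw [abs_mul, abs_mul, abs_of_nonneg hs0, abs_of_nonneg hr0]
  obtain ⟨f1, f2, f3, f4, f5⟩ := fin D K ((1 - r) * x 1 + r * z 1) ((1 - r) * x 2 + r * z 2)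
    ((1 - r) * x 49031 + r * z 49031) ((1 - r) * x 49032 + r * z 49032) (F 1) (F 2) (F 49031)
    (F 49032) hD0 hbig hK hc1 hc2 hcn hcm
    (by
      have t1 := mul_le_mul_of_nonneg_left xa' hs0
      have t2 := mul_le_mul_of_nonneg_left za' hr0
      linarith)
    (by
      have t1 := mul_le_mul_of_nonneg_left xb' hs0
      have t2 := mul_le_mul_of_nonneg_left zb' hr0
      have t3 := mul_le_mul_of_nonneg_right habs (by positivity : (0 : ℝ) ≤ 10 ^ 20)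
      linarith)
    (by
      have t1 := mul_le_mul_of_nonneg_left xc' hs0
      have t2 := mul_le_mul_of_nonneg_left zc' hr0
      linarith)
    (by
      have t1 := mul_le_mul_of_nonneg_left xd' hs0
      have t2 := mul_le_mul_of_nonneg_left zd' hr0
      linarith)
    (by
      have t1 := mul_le_mul_of_nonneg_left xe' hs0
      have t2 := mul_le_mul_of_nonneg_left ze' hr0
      linarith)
  -- back to the Bessel functions
  have hFb : ∀ m, F m = K / Fb nr 60816 * Fb nr m := fun m => rfl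
  set κ : ℝ := K / Fb nr 60816 with hκ
  rw [hFb] at f1 f2 f3 f4 f5
  rw [hFb] at f3 f4 f5
  have g1 : 0 < Fb nr 2 := (mul_pos_iff_of_pos_left hcoef).1 f1
  have g2 : 0 < -Fb nr 49032 := by
    rw [← mul_neg] at f2
    exact (mul_pos_iff_of_pos_left hcoef).1 f2
  have g3 : -Fb nr 49032 ≤ 10 ^ 9 * Fb nr 49031 := by
    refine le_of_mul_le_mul_left ?_ hcoef
    linarith
  have g4 : 10 ^ 10 * Fb nr 49031 ≤ 31 * (-Fb nr 49032) := by
    refine le_of_mul_le_mul_left ?_ hcoef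
    linarith
  have g5 : |Fb nr 1| * 10 ^ 15 ≤ Fb nr 2 := by
    rw [abs_mul, abs_of_pos hcoef] at f5
    refine le_of_mul_le_mul_left ?_ hcoef
    linarith
  have hC0 : 0 ≤ C := (abs_nonneg _).trans (hC 0)
  refine ⟨⟨nr, 49031, fun i => -Fb nr (49031 + i) / Fb nr 49032, fun i => -Fb nr (1 + i) / Fb nr 2⟩,
    ⟨?_, ?_, ?_, ?_, ?_, ?_, ?_, ?_, ?_, ?_⟩, ?_⟩
  · show (10000 : ℝ) ≤ nr
    linarith
  · show (4 / 5 : ℝ) ≤ ((49031 : ℕ) : ℝ) / nr
    rw [le_div_iff₀ hρ]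
    push_cast
    linarith
  · show ((49031 : ℕ) : ℝ) / nr ≤ 41 / 50
    rw [div_le_iff₀ hρ]
    push_cast
    linarith
  · show -Fb nr 49032 / Fb nr 49032 = -1
    rw [neg_div, div_self (by linarith : Fb nr 49032 < 0).ne]
  · show -Fb nr 2 / Fb nr 2 = -1
    rw [neg_div, div_self g1.ne']
  · show 1 / 10 ^ 9 ≤ -Fb nr 49031 / Fb nr 49032
    have e4 : -Fb nr 49031 / Fb nr 49032 = Fb nr 49031 / (-Fb nr 49032) := by
      rw [neg_div, div_neg]
    rw [e4, div_le_div_iff₀ (by positivity) g2]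
    linarith
  · show -Fb nr 49031 / Fb nr 49032 ≤ 31 / 10 ^ 10
    have e4 : -Fb nr 49031 / Fb nr 49032 = Fb nr 49031 / (-Fb nr 49032) := by
      rw [neg_div, div_neg]
    rw [e4, div_le_div_iff₀ g2 (by positivity)]
    linarith
  · show |-Fb nr 1 / Fb nr 2| ≤ 1 / 10 ^ 15
    rw [abs_div, abs_neg, abs_of_pos g1, div_le_div_iff₀ g1 (by positivity)]
    linarith
  · intro i
    show -Fb nr (49031 + (i + 2)) / Fb nr 49032 = 2 * (((49031 : ℕ) : ℝ) + i + 1) / nr *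
      (-Fb nr (49031 + (i + 1)) / Fb nr 49032) - -Fb nr (49031 + i) / Fb nr 49032
    have h := hrec (49031 + i)
    have e2 : 49031 + i + 1 = 49031 + (i + 1) := by ring
    have e3 : 49031 + i + 2 = 49031 + (i + 2) := by ring
    rw [e2, e3] at h
    rw [h]
    push_cast
    ring
  · intro i
    show -Fb nr (1 + (i + 2)) / Fb nr 2 = 2 * ((i : ℝ) + 2) / nr *
      (-Fb nr (1 + (i + 1)) / Fb nr 2) - -Fb nr (1 + i) / Fb nr 2
    have h := hrec (1 + i)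
    have e2 : 1 + i + 1 = 1 + (i + 1) := by ring
    have e3 : 1 + i + 2 = 1 + (i + 2) := by ring
    rw [e2, e3] at h
    rw [h]
    push_cast
    ring
  · refine ⟨C / (-Fb nr 49032) + C / Fb nr 2, fun i => ⟨?_, ?_⟩⟩
    · show |-Fb nr (49031 + i) / Fb nr 49032| ≤ _
      rw [abs_div, abs_neg, abs_of_neg (by linarith : Fb nr 49032 < 0)]
      have t1 : |Fb nr (49031 + i)| / -Fb nr 49032 ≤ C / (-Fb nr 49032) := by
        gcongr
        exact hC _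
      have t2 : 0 ≤ C / Fb nr 2 := by positivity
      linarith
    · show |-Fb nr (1 + i) / Fb nr 2| ≤ _
      rw [abs_div, abs_neg, abs_of_pos g1]
      have t1 : |Fb nr (1 + i)| / Fb nr 2 ≤ C / Fb nr 2 := by
        gcongr
        exact hC _
      have t2 : 0 ≤ C / (-Fb nr 49032) := by positivity
      linarith

end Pool.Agent.N229.SC
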