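import Pool.Agent.N229.SC.Stm

/-!
Project SC (helper229), problem MP_83fd13_an: differentiability of the series `PP` (helper277).
-/

set_option autoImplicit false

open Set Filter Topology MeasureTheory

namespace Pool.Agent.N229.SC

/-- the derivative -/
private noncomputable def psm_L (a b : ℂ) : ℝ × ℂ →L[ℝ] ℂ :=
  (ContinuousLinearMap.fst ℝ ℝ ℂ).smulRight a +
    (ContinuousLinearMap.mul ℝ ℂ b).comp (ContinuousLinearMap.snd ℝ ℝ ℂ)

private theorem psm_L_apply (a b : ℂ) (v : ℝ × ℂ) : psm_L a b v = v.1 • a + b * v.2 := rfl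

private theorem psm_L_norm (a b : ℂ) : ‖psm_L a b‖ ≤ ‖a‖ + ‖b‖ := by
  refine ContinuousLinearMap.opNorm_le_bound _ (by positivity) fun v => ?_
  rw [psm_L_apply]
  have h1 : ‖v.1‖ ≤ ‖v‖ := norm_fst_le v
  have h2 : ‖v.2‖ ≤ ‖v‖ := norm_snd_le v
  calc ‖v.1 • a + b * v.2‖ ≤ ‖v.1 • a‖ + ‖b * v.2‖ := norm_add_le _ _
    _ = ‖v.1‖ * ‖a‖ + ‖b‖ * ‖v.2‖ := by rw [norm_smul, norm_mul]
    _ ≤ ‖v‖ * ‖a‖ + ‖b‖ * ‖v‖ := by gcongr
    _ = _ := by ring

private theorem psm_term {Q : ℂ → ℂ} {r : ℝ} (hQ : DifferentiableOn ℂ Q (Metric.ball 0 r)) (n : ℕ)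
    (e : ℝ) {z : ℂ} (hz : z ∈ Metric.ball (0 : ℂ) r) :
    HasFDerivAt (fun p : ℝ × ℂ => ((p.1 : ℂ) ^ n / (n.factorial : ℂ)) * Q p.2)
      (psm_L ((n : ℂ) * (e : ℂ) ^ (n - 1) / (n.factorial : ℂ) * Q z)
        ((e : ℂ) ^ n / (n.factorial : ℂ) * deriv Q z)) (e, z) := by
  have h1 : HasDerivAt (fun x : ℝ => ((x : ℂ) ^ n / (n.factorial : ℂ)))
      ((n : ℂ) * (e : ℂ) ^ (n - 1) / (n.factorial : ℂ)) e := by
    have h2 : HasDerivAt (fun x : ℂ => (x ^ n / (n.factorial : ℂ)))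
        ((n : ℂ) * (e : ℂ) ^ (n - 1) / (n.factorial : ℂ)) (e : ℂ) :=
      (hasDerivAt_pow n (e : ℂ)).div_const _
    exact h2.comp_ofReal
  have h2 : HasDerivAt Q (deriv Q z) z :=
    (hQ.differentiableAt (Metric.isOpen_ball.mem_nhds hz)).hasDerivAt
  have h1' : HasFDerivAt (fun x : ℝ => ((x : ℂ) ^ n / (n.factorial : ℂ)))
      (ContinuousLinearMap.toSpanSingleton ℝ ((n : ℂ) * (e : ℂ) ^ (n - 1) / (n.factorial : ℂ)))
      ((e, z) : ℝ × ℂ).1 := h1.hasFDerivAt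
  have h2' : HasFDerivAt Q ((ContinuousLinearMap.toSpanSingleton ℂ (deriv Q z)).restrictScalars ℝ)
      ((e, z) : ℝ × ℂ).2 := h2.hasFDerivAt.restrictScalars ℝ
  have h3 := HasFDerivAt.comp ((e, z) : ℝ × ℂ) h1' (hasFDerivAt_fst (𝕜 := ℝ) (E := ℝ) (F := ℂ))
  have h4 := HasFDerivAt.comp ((e, z) : ℝ × ℂ) h2' (hasFDerivAt_snd (𝕜 := ℝ) (E := ℝ) (F := ℂ))
  have h5 : HasFDerivAt (fun p : ℝ × ℂ => ((p.1 : ℂ) ^ n / (n.factorial : ℂ)) * Q p.2) _ (e, z) :=
    h3.mul h4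
  refine h5.congr_fderiv (ContinuousLinearMap.ext fun v => ?_)
  rw [psm_L_apply]
  show ((e : ℂ) ^ n / (n.factorial : ℂ)) * (v.2 * deriv Q z) +
    Q z * ((v.1 : ℝ) • ((n : ℂ) * (e : ℂ) ^ (n - 1) / (n.factorial : ℂ))) = _
  rw [Complex.real_smul, Complex.real_smul]
  ring

private theorem psm_cauchy {Q : ℕ → ℂ → ℂ} {r s C : ℝ} (hs : s < r)
    (hQ : ∀ i, DifferentiableOn ℂ (Q i) (Metric.ball 0 r))
    (hC : ∀ i, ∀ z ∈ Metric.ball (0 : ℂ) r, ‖Q i z‖ ≤ C) :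
    ∀ i, ∀ z ∈ Metric.ball (0 : ℂ) s, ‖deriv (Q i) z‖ ≤ C / ((r - s) / 2) := by
  intro i z hz
  have hsub : Metric.closedBall z ((r - s) / 2) ⊆ Metric.ball 0 r := by
    intro x hx
    rw [mem_ball_zero_iff] at hz ⊢
    rw [mem_closedBall_iff_norm] at hx
    have := norm_add_le (x - z) z
    rw [sub_add_cancel] at this
    linarith
  apply Complex.norm_deriv_le_of_forall_mem_sphere_norm_le (by linarith)
  · exact ((hQ i).mono hsub).diffContOnCl_ball subset_rfl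
  · intro x hx
    exact hC i x (hsub (Metric.sphere_subset_closedBall hx))

private theorem psm_sum1 (E : ℝ) : Summable fun n : ℕ => E ^ n / (n.factorial : ℝ) :=
  Real.summable_pow_div_factorial E

private theorem psm_sum2 (E : ℝ) :
    Summable fun n : ℕ => E ^ (n - 1) / ((n - 1).factorial : ℝ) := by
  rw [← summable_nat_add_iff 1]
  exact psm_sum1 E

private theorem psm_main {Q : ℕ → ℂ → ℂ} {r : ℝ}
    (hQ : ∀ i, DifferentiableOn ℂ (Q i) (Metric.ball 0 r))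
    (hC : ∃ C, ∀ i, ∀ z ∈ Metric.ball (0 : ℂ) r, ‖Q i z‖ ≤ C) (e : ℝ) {z : ℂ}
    (hz : z ∈ Metric.ball (0 : ℂ) r) :
    HasFDerivAt (fun p : ℝ × ℂ => PP Q p.1 p.2)
      (psm_L (PP (fun i => Q (i + 1)) e z) (PP (fun i => deriv (Q i)) e z)) (e, z) := by
  obtain ⟨C, hC⟩ := hC
  have hC0 : 0 ≤ C := (norm_nonneg _).trans (hC 0 z hz)
  rw [mem_ball_zero_iff] at hz
  obtain ⟨s, hs1, hs2⟩ := exists_between hz
  have hs0 : 0 < s := lt_of_le_of_lt (norm_nonneg _) hs1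
  obtain ⟨C', hC'⟩ : ∃ C', C' = C / ((r - s) / 2) := ⟨_, rfl⟩
  have hC'0 : 0 ≤ C' := by
    rw [hC']
    apply div_nonneg hC0
    linarith
  have hder := psm_cauchy hs2 hQ hC
  rw [← hC'] at hder
  obtain ⟨E, hE⟩ : ∃ E, E = |e| + 1 := ⟨_, rfl⟩
  have hE0 : 0 < E := by
    rw [hE]
    positivity
  have hball : ∀ x ∈ Metric.ball (0 : ℂ) s, x ∈ Metric.ball (0 : ℂ) r := fun x hx =>
    Metric.ball_subset_ball hs2.le hx
  have hbound : ∀ (n : ℕ) (p : ℝ × ℂ), p ∈ Metric.ball (0 : ℝ) E ×ˢ Metric.ball (0 : ℂ) s →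
      ‖psm_L ((n : ℂ) * (p.1 : ℂ) ^ (n - 1) / (n.factorial : ℂ) * Q n p.2)
        ((p.1 : ℂ) ^ n / (n.factorial : ℂ) * deriv (Q n) p.2)‖ ≤
        C * (E ^ (n - 1) / ((n - 1).factorial : ℝ)) + C' * (E ^ n / (n.factorial : ℝ)) := by
    intro n p hp
    obtain ⟨hp1, hp2⟩ := hp
    rw [mem_ball_zero_iff, Real.norm_eq_abs] at hp1
    refine (psm_L_norm _ _).trans (add_le_add ?_ ?_)
    · rw [norm_mul, norm_div, norm_mul, norm_pow, Complex.norm_natCast, Complex.norm_natCast,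
        Complex.norm_real, Real.norm_eq_abs]
      have h1 : (n : ℝ) * |p.1| ^ (n - 1) / (n.factorial : ℝ) ≤
          E ^ (n - 1) / ((n - 1).factorial : ℝ) := by
        rcases Nat.eq_zero_or_pos n with h0 | h0
        · subst h0
          simp
        · obtain ⟨m, rfl⟩ : ∃ m, n = m + 1 := ⟨n - 1, by omega⟩
          rw [Nat.add_sub_cancel, Nat.factorial_succ]
          have h2 : (0 : ℝ) < (m.factorial : ℝ) := by exact_mod_cast m.factorial_pos
          have h3 : (0 : ℝ) < (m : ℝ) + 1 := by positivity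
          push_cast
          rw [mul_div_mul_left _ _ h3.ne']
          gcongr
      calc (n : ℝ) * |p.1| ^ (n - 1) / (n.factorial : ℝ) * ‖Q n p.2‖
          ≤ E ^ (n - 1) / ((n - 1).factorial : ℝ) * C :=
            mul_le_mul h1 (hC n p.2 (hball _ hp2)) (norm_nonneg _) (by positivity)
        _ = _ := mul_comm _ _
    · rw [norm_mul, norm_div, norm_pow, Complex.norm_natCast, Complex.norm_real, Real.norm_eq_abs]
      calc |p.1| ^ n / (n.factorial : ℝ) * ‖deriv (Q n) p.2‖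
          ≤ E ^ n / (n.factorial : ℝ) * C' := by
            apply mul_le_mul _ (hder n p.2 hp2) (norm_nonneg _) (by positivity)
            gcongr
        _ = _ := mul_comm _ _
  have hsu : Summable fun n : ℕ => C * (E ^ (n - 1) / ((n - 1).factorial : ℝ)) +
      C' * (E ^ n / (n.factorial : ℝ)) :=
    ((psm_sum2 E).mul_left C).add ((psm_sum1 E).mul_left C')
  have hmem : ((e, z) : ℝ × ℂ) ∈ Metric.ball (0 : ℝ) E ×ˢ Metric.ball (0 : ℂ) s := by
    refine ⟨?_, ?_⟩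
    · rw [mem_ball_zero_iff, Real.norm_eq_abs, hE]
      linarith
    · rw [mem_ball_zero_iff]
      exact hs1
  have hsum0 : ∀ (q : ℕ → ℂ) (B : ℝ), (∀ n, ‖q n‖ ≤ B) →
      Summable fun n : ℕ => ((e : ℂ) ^ n / (n.factorial : ℂ)) * q n := by
    intro q B hq
    refine Summable.of_norm_bounded (g := fun n : ℕ => B * (|e| ^ n / (n.factorial : ℝ)))
      ((psm_sum1 |e|).mul_left B) fun n => ?_
    rw [norm_mul, norm_div, norm_pow, Complex.norm_natCast, Complex.norm_real, Real.norm_eq_abs,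
      mul_comm]
    exact mul_le_mul_of_nonneg_right (hq n) (by positivity)
  have key := hasFDerivAt_tsum_of_isPreconnected (𝕜 := ℝ)
    (f := fun n (p : ℝ × ℂ) => ((p.1 : ℂ) ^ n / (n.factorial : ℂ)) * Q n p.2)
    (f' := fun n (p : ℝ × ℂ) => psm_L ((n : ℂ) * (p.1 : ℂ) ^ (n - 1) / (n.factorial : ℂ) * Q n p.2)
        ((p.1 : ℂ) ^ n / (n.factorial : ℂ) * deriv (Q n) p.2))
    (x₀ := ((e, z) : ℝ × ℂ)) (x := ((e, z) : ℝ × ℂ))
    hsu (Metric.isOpen_ball.prod Metric.isOpen_ball)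
    (((convex_ball (0 : ℝ) E).prod (convex_ball (0 : ℂ) s)).isPreconnected)
    (fun n p hp => psm_term (hQ n) n p.1 (hball _ hp.2)) hbound hmem
    (hsum0 (fun n => Q n z) C fun n => hC n z (hball _ hmem.2)) hmem
  refine key.congr_fderiv ?_
  have hsumL : Summable fun n : ℕ => psm_L ((n : ℂ) * (e : ℂ) ^ (n - 1) / (n.factorial : ℂ) * Q n z)
      ((e : ℂ) ^ n / (n.factorial : ℂ) * deriv (Q n) z) :=
    Summable.of_norm_bounded hsu fun n => hbound n (e, z) hmem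
  have hs1' : HasSum (fun n : ℕ => (n : ℂ) * (e : ℂ) ^ (n - 1) / (n.factorial : ℂ) * Q n z)
      (PP (fun i => Q (i + 1)) e z) := by
    have h1 : HasSum (fun n : ℕ => ((e : ℂ) ^ n / (n.factorial : ℂ)) * Q (n + 1) z)
        (PP (fun i => Q (i + 1)) e z) :=
      (hsum0 (fun n => Q (n + 1) z) C fun n => hC (n + 1) z (hball _ hmem.2)).hasSum
    have h3 : (fun n : ℕ => ((n + 1 : ℕ) : ℂ) * (e : ℂ) ^ (n + 1 - 1) /
        ((n + 1).factorial : ℂ) * Q (n + 1) z) =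
        fun n : ℕ => ((e : ℂ) ^ n / (n.factorial : ℂ)) * Q (n + 1) z := by
      funext n
      have h4 : ((n + 1 : ℕ) : ℂ) ≠ 0 := by exact_mod_cast n.succ_ne_zero
      rw [Nat.add_sub_cancel, Nat.factorial_succ, Nat.cast_mul, mul_div_mul_left _ _ h4]
    rw [← h3] at h1
    have h2 := (hasSum_nat_add_iff (f := fun n : ℕ => (n : ℂ) * (e : ℂ) ^ (n - 1) /
      (n.factorial : ℂ) * Q n z) 1).1 h1
    simpa using h2
  have hs2' : HasSum (fun n : ℕ => ((e : ℂ) ^ n / (n.factorial : ℂ)) * deriv (Q n) z)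
      (PP (fun i => deriv (Q i)) e z) :=
    (hsum0 (fun n => deriv (Q n) z) C' fun n => hder n z hmem.2).hasSum
  refine ContinuousLinearMap.ext fun v => ?_
  have e1 := (ContinuousLinearMap.apply ℝ ℂ v).hasSum hsumL.hasSum
  have e2 : HasSum (fun n : ℕ => v.1 • ((n : ℂ) * (e : ℂ) ^ (n - 1) / (n.factorial : ℂ) * Q n z) +
      ((e : ℂ) ^ n / (n.factorial : ℂ) * deriv (Q n) z) * v.2)
      (v.1 • PP (fun i => Q (i + 1)) e z + PP (fun i => deriv (Q i)) e z * v.2) :=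
    (hs1'.const_smul v.1).add (hs2'.mul_right v.2)
  exact e1.unique e2

private theorem psm_smooth (k : ℕ) : ∀ (r : ℝ) (Q : ℕ → ℂ → ℂ), 0 < r →
    (∀ i, DifferentiableOn ℂ (Q i) (Metric.ball 0 r)) →
    (∃ C, ∀ i, ∀ z ∈ Metric.ball (0 : ℂ) r, ‖Q i z‖ ≤ C) →
    ContDiffOn ℝ k (fun p : ℝ × ℂ => PP Q p.1 p.2) (Set.univ ×ˢ Metric.ball 0 r) := by
  induction k with
  | zero =>
    intro r Q hr hQ hC
    rw [Nat.cast_zero, contDiffOn_zero]
    intro p hp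
    exact (psm_main hQ hC p.1 hp.2).continuousAt.continuousWithinAt
  | succ k ih =>
    intro r Q hr hQ hC p0 hp0
    have hz := hp0.2
    rw [mem_ball_zero_iff] at hz
    obtain ⟨s, hs1, hs2⟩ := exists_between hz
    have hs0 : 0 < s := lt_of_le_of_lt (norm_nonneg _) hs1
    have hball : Metric.ball (0 : ℂ) s ⊆ Metric.ball (0 : ℂ) r := Metric.ball_subset_ball hs2.le
    have ho : IsOpen ((Set.univ : Set ℝ) ×ˢ Metric.ball (0 : ℂ) s) :=
      isOpen_univ.prod Metric.isOpen_ball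
    have hA := ih s (fun i => Q (i + 1)) hs0 (fun i => (hQ (i + 1)).mono hball) (by
      obtain ⟨C, hC⟩ := hC
      exact ⟨C, fun i z hz => hC (i + 1) z (hball hz)⟩)
    have hB := ih s (fun i => deriv (Q i)) hs0
      (fun i => ((hQ i).deriv Metric.isOpen_ball).mono hball) (by
      obtain ⟨C, hC⟩ := hC
      exact ⟨_, psm_cauchy hs2 hQ hC⟩)
    have hon : ContDiffOn ℝ ((k : ℕ) + 1 : ℕ) (fun p : ℝ × ℂ => PP Q p.1 p.2)
        (Set.univ ×ˢ Metric.ball 0 s) := by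
      rw [Nat.cast_add, Nat.cast_one, contDiffOn_succ_iff_fderiv_of_isOpen ho]
      refine ⟨fun p hp => (psm_main hQ hC p.1 (hball hp.2)).differentiableAt
        |>.differentiableWithinAt, fun h => absurd h (by simp), ?_⟩
      have h1 : ContDiffOn ℝ k (fun p : ℝ × ℂ =>
          psm_L (PP (fun i => Q (i + 1)) p.1 p.2) (PP (fun i => deriv (Q i)) p.1 p.2))
          (Set.univ ×ˢ Metric.ball 0 s) := by
        unfold psm_L
        apply ContDiffOn.add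
        · exact (ContinuousLinearMap.smulRightL ℝ (ℝ × ℂ) ℂ
            (ContinuousLinearMap.fst ℝ ℝ ℂ)).contDiff.comp_contDiffOn hA
        · exact ((ContinuousLinearMap.mul ℝ ℂ).contDiff.comp_contDiffOn hB).clm_comp
            contDiffOn_const
      refine h1.congr fun p hp => ?_
      exact (psm_main hQ hC p.1 (hball hp.2)).fderiv
    exact (hon.contDiffAt (ho.mem_nhds ⟨trivial, by rw [mem_ball_zero_iff]; exact hs1⟩)).contDiffWithinAt

theorem proof_PSM : S_PSM := by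
  intro r Q hr hQ hC
  exact ⟨fun e z hz => psm_main hQ hC e hz, psm_smooth 2 r Q hr hQ hC⟩

end Pool.Agent.N229.SC
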