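import Pool.Agent.N229.SC.Defs

/-!
Project SC (helper229), problem MP_83fd13_an: statements of the parts.
-/

set_option autoImplicit false

open Set Filter Topology MeasureTheory

namespace Pool.Agent.N229.SC

/-! ### The algebras -/

/-- SC-A1: coefficients. -/
def S_A1 : Prop :=
  ∀ (w : ℤ → ℝ) [Wt w],
    (∀ (a b : Al w) (j : ℤ), cf (a + b) j = cf a j + cf b j) ∧
    (∀ (a b : Al w) (j : ℤ), cf (a - b) j = cf a j - cf b j) ∧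
    (∀ (a : Al w) (j : ℤ), cf (-a) j = -cf a j) ∧
    (∀ (j : ℤ), cf (0 : Al w) j = 0) ∧
    (∀ (r : ℝ) (a : Al w) (j : ℤ), cf (r • a) j = r * cf a j) ∧
    (∀ i j : ℤ, cf (mon w i) j = if i = j then 1 else 0) ∧
    (∀ (a : Al w) (j : ℤ), |cf a j| * w j ≤ ‖a‖) ∧
    (∀ a : Al w, HasSum (fun j => |cf a j| * w j) ‖a‖) ∧
    (∀ a : Al w, HasSum (fun j => cf a j • mon w j) a) ∧
    (∀ a b : Al w, (∀ j, cf a j = cf b j) → a = b) ∧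
    (∀ (a b : Al w) (k : ℤ), HasSum (fun j => cf a j * cf b (k - j)) (cf (a * b) k)) ∧
    (∀ (k l : ℤ) (a b : Al w), (∀ j < k, cf a j = 0) → (∀ j < l, cf b j = 0) →
      (∀ j < k + l, cf (a * b) j = 0) ∧ cf (a * b) (k + l) = cf a k * cf b l) ∧
    (∀ j : ℤ, ∃ L : Al w →L[ℝ] ℝ, ∀ a, L a = cf a j)

/-- SC-A2: the operators. -/
def S_A2 : Prop :=
  ((∀ (a : W) (j : ℤ), cf (inc a) j = cf a j) ∧ (∀ a b : W, inc (a * b) = inc a * inc b) ∧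
    inc 1 = 1 ∧ (∀ a : W, ‖inc a‖ ≤ ‖a‖) ∧
    (∀ a : W, (∀ j < 2, cf a j = 0) → ‖inc a‖ ≤ 4 / 5 * ‖a‖)) ∧
  ((∀ (a : W) (j : ℤ), cf (conj a) j = cf a (-j)) ∧ (∀ a b : W, conj (a * b) = conj a * conj b) ∧
    conj 1 = 1 ∧ (∀ a : W, ‖conj a‖ = ‖a‖) ∧ (∀ a : W, conj (conj a) = a)) ∧
  ((∀ (a : W) (j : ℤ), cf (hol a) j =
      if 0 < j then cf a j + cf a (-j) else if j = 0 then cf a 0 else 0) ∧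
    (∀ a : W, ‖hol a‖ ≤ ‖a‖)) ∧
  ((∀ (a : W) (j : ℤ), cf (der a) j = j * cf a j) ∧ (∀ a : W, ‖der a‖ ≤ 8 * ‖a‖) ∧
    (∀ a b : W, der (a * b) = der a * inc b + inc a * der b)) ∧
  ((∀ (a : W) (j : ℤ), cf (Pi2 a) j = if 2 ≤ j then cf a j else 0) ∧ (∀ a : W, ‖Pi2 a‖ ≤ ‖a‖)) ∧
  ((∀ (n i : ℕ) (a : A) (j : ℤ), cf (res n i a) j =
      if 2 ≤ j then cf a j / (j + (i : ℝ) / n) else 0) ∧
    (∀ (n i : ℕ) (a : A), ‖res n i a‖ ≤ 5 / 8 * ‖a‖) ∧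
    (∀ (n i : ℕ) (a : A), ‖inc (res n i a)‖ ≤ 1 / 2 * ‖a‖) ∧
    (∀ (n i : ℕ) (a : A), (i : ℝ) / n * ‖inc (res n i a)‖ ≤ ‖a‖))

/-- SC-A3: the exponential and the series `TT`. -/
def S_A3 : Prop :=
  ((∀ x : W, HasSum (fun k : ℕ => ((k.factorial : ℝ)⁻¹) • x ^ k) (ex x)) ∧ ex 0 = 1 ∧
    (∀ x : W, ‖ex x‖ ≤ Real.exp ‖x‖) ∧ (∀ x : W, ‖ex x - 1‖ ≤ Real.exp ‖x‖ - 1) ∧
    (∀ x : W, ‖ex x - 1 - x‖ ≤ Real.exp ‖x‖ - 1 - ‖x‖) ∧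
    (∀ x y : W, ∀ r : ℝ, ‖x‖ ≤ r → ‖y‖ ≤ r → ‖ex x - ex y‖ ≤ Real.exp r * ‖x - y‖) ∧
    (∀ x y : W, ex (x + y) = ex x * ex y) ∧
    (∀ x : W, conj (ex x) = ex (conj x)) ∧ (∀ x : W, der (ex x) = inc (ex x) * der x) ∧
    (∀ x : W, (∀ j < 0, cf x j = 0) → (∀ j < 0, cf (ex x) j = 0) ∧
      cf (ex x) 0 = Real.exp (cf x 0) ∧ cf (ex x) 1 = Real.exp (cf x 0) * cf x 1)) ∧
  (∀ (ξ : W) (c : ℕ → W) (M : ℝ), (∀ i, ‖c i‖ ≤ M * (3 ^ i * i.factorial)) → ‖ξ‖ ≤ 1 / 30 →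
    Summable (fun i : ℕ => ((-1) ^ i * (i.factorial : ℝ)⁻¹) • (ξ ^ i * c i)) ∧
    ∀ m : ℕ, ‖TT ξ c - ∑ i ∈ Finset.range m, ((-1) ^ i * (i.factorial : ℝ)⁻¹) • (ξ ^ i * c i)‖ ≤
      10 / 9 * M * (3 * ‖ξ‖) ^ m) ∧
  (∀ (ξ η : W) (c : ℕ → W) (M δ : ℝ), (∀ i, ‖c i‖ ≤ M * (3 ^ i * i.factorial)) → 0 ≤ δ →
    δ ≤ 1 / 30 → ‖ξ‖ ≤ δ → ‖η‖ ≤ δ →
    ‖TT ξ c - TT η c‖ ≤ ‖ξ - η‖ * (‖c 1‖ + 25 * M * δ)) ∧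
  (∀ (ξ : W) (c c' : ℕ → W) (M : ℝ), (∀ i, ‖c i‖ ≤ M * (3 ^ i * i.factorial)) →
    (∀ i, ‖c' i‖ ≤ M * (3 ^ i * i.factorial)) → ‖ξ‖ ≤ 1 / 30 →
    TT ξ (fun i => c i + c' i) = TT ξ c + TT ξ c' ∧
    TT ξ (fun i => c i - c' i) = TT ξ c - TT ξ c' ∧
    ∀ r : ℝ, TT ξ (fun i => r • c i) = r • TT ξ c)

/-! ### The fixed point -/

/-- SC-AB: bounds of the sequences. -/
def S_AB : Prop :=
  ∀ P : Par, Good P → (∀ i, |P.a i| ≤ (3 / 2) ^ i * i.factorial) ∧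
    (∀ i, |P.b i| ≤ (3 / 2) ^ i * i.factorial) ∧ |P.a 2 + 2 * P.nu| ≤ 3 / 10000 ∧
    |P.b 2| ≤ 5 / 10000 ∧ |P.a 3| ≤ 17 / 10 ∧ |P.b 3| ≤ 101 / 100 ∧ 8000 ≤ (P.n : ℝ)

/-- SC-B1: the functions of `h`. -/
def S_B1 : Prop :=
  ∀ P : Par, Good P → ∀ h : W, ‖h‖ ≤ 1 / 1000 →
    (‖Phi P h‖ ≤ P.nu * ‖h‖ ∧ ‖beta P h‖ ≤ 8 * P.nu * ‖h‖ ∧
      ‖tau P h - mon wW 1‖ ≤ 93 / 100 * ‖h‖ ∧ ‖tau P h‖ ≤ 1128 / 1000 ∧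
      ‖YY P h - 1‖ ≤ 201 / 10 ^ 6 * ‖h‖ ∧ ‖xi P h - h‖ ≤ ‖h‖ ^ 2 / 9000) ∧
    (conj h = h → conj (xi P h) = xi P h ∧ conj (YY P h) = YY P h) ∧
    ((∀ j < 0, cf (Phi P h) j = 0) ∧ cf (Phi P h) 0 = P.nu * cf h 0 ∧
      (∀ j < 1, cf (beta P h) j = 0) ∧ (∀ j < 1, cf (tau P h) j = 0) ∧
      cf (tau P h) 1 = Real.exp (P.nu * cf h 0)) ∧
    ∀ h' : W, ‖h'‖ ≤ 1 / 1000 → ‖beta P h - beta P h'‖ ≤ 8 * P.nu * ‖h - h'‖ ∧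
      ‖tau P h - tau P h'‖ ≤ 93 / 100 * ‖h - h'‖ ∧
      ‖YY P h - YY P h'‖ ≤ 201 / 10 ^ 6 * ‖h - h'‖ ∧
      ‖(xi P h - h) - (xi P h' - h')‖ ≤ ‖h - h'‖ / 1000

/-- The domain of the contraction. -/
structure Dom (X : ℝ) (h v : W) (y : ℕ → A) : Prop where
  hc : conj h = h
  hv : ∀ j < 2, cf v j = 0
  hy : ∀ i, ∀ j < 2, cf (y i) j = 0
  nh : ‖h‖ ≤ 2 * X
  nv : ‖v‖ ≤ 5 * X ^ 2
  ny : ∀ i, ‖y i‖ ≤ 5 * X ^ 2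

/-- SC-B2: bounds of the functions `q_i`, `v_i`, `V_i`, `Q_i`. -/
def S_B2 : Prop :=
  ∀ P : Par, Good P → ∀ (X : ℝ) (h v : W) (y : ℕ → A), 0 < X → X ≤ 3 / 10 ^ 4 → Dom X h v y →
    (∀ i, ∀ j < 2, cf (qq P h v y i) j = 0) ∧ (∀ i, ∀ j < 2, cf (vv P h v y i) j = 0) ∧
    (∀ i, ‖Vh P X h v y i‖ ≤ 3 / 5 * X * (3 ^ i * i.factorial)) ∧
    (∀ i, ‖Qh P X h v y i‖ ≤ 3 / 5 * (3 ^ i * i.factorial)) ∧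
    ∀ V M : ℝ, 0 ≤ V → V ≤ 5 → 0 ≤ M → M ≤ 5 → ‖v‖ ≤ V * X ^ 2 → (∀ i, ‖y i‖ ≤ M * X ^ 2) →
      ‖qq P h v y 0‖ ≤ 51 / 100 * V * X ^ 2 ∧ ‖inc (qq P h v y 0)‖ ≤ 41 / 100 * V * X ^ 2 ∧
      (∀ i, ‖qq P h v y (i + 1)‖ ≤ 5 / 8 * M * X ^ 2) ∧
      (∀ i, ‖inc (qq P h v y (i + 1))‖ ≤ 1 / 2 * M * X ^ 2) ∧
      ‖vv P h v y 1‖ ≤ (8 / 25 * V + 2 / 5 * M) * X ^ 2 ∧
      (∀ i : ℕ, ‖vv P h v y (i + 1)‖ ≤ (8 / 25 * V + 4 / 5 * M) * (i + 1) * X ^ 2)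

/-- SC-B3: Lipschitz bounds of the functions `q_i`, `v_i`, `V_i`, `Q_i`. -/
def S_B3 : Prop :=
  ∀ P : Par, Good P → ∀ (X : ℝ) (h v : W) (y : ℕ → A) (h' v' : W) (y' : ℕ → A) (D : ℝ), 0 < X →
    X ≤ 3 / 10 ^ 4 → Dom X h v y → Dom X h' v' y' → ‖h - h'‖ ≤ 2 * D → ‖v - v'‖ ≤ D →
    (∀ i, ‖y i - y' i‖ ≤ D) →
    ‖inc (qq P h v y 0) - inc (qq P h' v' y' 0)‖ ≤ 41 / 100 * D ∧
    (∀ i, ‖qq P h v y (i + 1) - qq P h' v' y' (i + 1)‖ ≤ 5 / 8 * D) ∧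
    (∀ i, ‖inc (qq P h v y (i + 1)) - inc (qq P h' v' y' (i + 1))‖ ≤ 1 / 2 * D) ∧
    ‖vv P h v y 1 - vv P h' v' y' 1‖ ≤ 3 / 4 * D ∧
    (∀ i, ‖Vh P X h v y i - Vh P X h' v' y' i‖ ≤ 1001 / 1000 * D * (3 ^ i * i.factorial)) ∧
    (∀ i, ‖Qh P X h v y i - Qh P X h' v' y' i‖ ≤ 2 / 3 * D * (3 ^ i * i.factorial))

/-- SC-SELF: the map sends the domain to itself. -/
def S_SELF : Prop :=
  ∀ P : Par, Good P → ∀ (X : ℝ) (h v : W) (y : ℕ → A), Real.sqrt (P.a 0) ≤ X →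
    X ≤ 3 / 10 ^ 4 → Dom X h v y →
    Dom X (h + EE P X h v y) (v - Pi2 (OO P X h v y)) (RH P h v y)

/-- SC-CTR: the map is a contraction. -/
def S_CTR : Prop :=
  ∀ P : Par, Good P → ∀ (X : ℝ) (h v : W) (y : ℕ → A) (h' v' : W) (y' : ℕ → A) (D : ℝ), 0 < X →
    X ≤ 3 / 10 ^ 4 → Dom X h v y → Dom X h' v' y' → ‖h - h'‖ ≤ 2 * D → ‖v - v'‖ ≤ D →
    (∀ i, ‖y i - y' i‖ ≤ D) →
    ‖(h + EE P X h v y) - (h' + EE P X h' v' y')‖ ≤ 2 * (4 / 5 * D) ∧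
    ‖(OO P X h v y - OO P X h' v' y') - ((v - v') - conj (v - v'))‖ ≤ 1 / 10 * D ∧
    ∀ i, ‖RH P h v y i - RH P h' v' y' i‖ ≤ 4 / 5 * D

/-- SC-LX: dependence on `X`. -/
def S_LX : Prop :=
  ∀ P : Par, Good P → ∀ (X X' : ℝ) (h v : W) (y : ℕ → A), 0 < X → X ≤ X' →
    X' ≤ 3 / 10 ^ 4 → Dom X h v y →
    ‖EE P X h v y - EE P X' h v y‖ ≤ 10 * (X' - X) ∧ ‖OO P X h v y - OO P X' h v y‖ ≤ 10 * (X' - X)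

/-- SC-FIX: for each amplitude `X` there is a solution of all equations except one. -/
def S_FIX : Prop :=
  ∀ P : Par, Good P → ∃ x : ℝ → W × W × (ℕ → A),
    (∀ X ∈ Icc (Real.sqrt (P.a 0)) (5 * Real.sqrt (P.a 0)),
      IsSol P X (x X).1 (x X).2.1 (x X).2.2) ∧
    ContinuousOn (fun X => cf (OO P X (x X).1 (x X).2.1 (x X).2.2) 1)
      (Icc (Real.sqrt (P.a 0)) (5 * Real.sqrt (P.a 0)))

/-! ### The sign of the remaining equation -/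

section
variable (P : Par) (X : ℝ) (h v : W) (y : ℕ → A)

/-- The hypotheses of the estimates. -/
structure Hyp : Prop where
  good : Good P
  sol : IsSol P X h v y
  X1 : Real.sqrt (P.a 0) ≤ X
  X2 : X ≤ 5 * Real.sqrt (P.a 0)

/-- `c = (t + 1 / t) / 2`. -/
noncomputable def cc : W := (1 / 2 : ℝ) • (mon wW 1 + mon wW (-1))

end

/-- SC-HG: the first order of `h`. -/
def S_HG : Prop :=
  ∀ (P : Par) (X : ℝ) (h v : W) (y : ℕ → A), Hyp P X h v y → ∀ H V M : ℝ, 0 ≤ H → H ≤ 2 →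
    0 ≤ V → V ≤ 5 → 0 ≤ M → M ≤ 5 → ‖h‖ ≤ H * X → ‖v‖ ≤ V * X ^ 2 → (∀ i, ‖y i‖ ≤ M * X ^ 2) →
    ‖h - X • cc‖ ≤ (19 / 5 * H + 83 / 100 * V + 63 / 100 * M + 1 / 20) * X ^ 2 ∧
    ‖xi P h - X • cc‖ ≤ (19 / 5 * H + 83 / 100 * V + 63 / 100 * M + 1 / 20) * X ^ 2

/-- SC-VG: the second order of `v`. -/
def S_VG : Prop :=
  ∀ (P : Par) (X : ℝ) (h v : W) (y : ℕ → A), Hyp P X h v y → ∀ H V M K : ℝ, 0 ≤ H → H ≤ 2 →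
    0 ≤ V → V ≤ 5 → 0 ≤ M → M ≤ 5 → 0 ≤ K → K ≤ 20 →
    ‖h‖ ≤ H * X → ‖v‖ ≤ V * X ^ 2 → (∀ i, ‖y i‖ ≤ M * X ^ 2) → ‖xi P h - X • cc‖ ≤ K * X ^ 2 →
    ‖v + (X ^ 2 / 2) • mon wW 2‖ ≤
      (23 / 10 * K + 11 / 5 * H + H * (2 / 3 * V + 4 / 5 * M) + 19 / 10 * H ^ 2 + 1 / 10) * X ^ 3

/-- SC-YG: the bound of `y` by `v`. -/
def S_YG : Prop :=
  ∀ (P : Par) (X : ℝ) (h v : W) (y : ℕ → A), Hyp P X h v y → ∀ V : ℝ, 0 ≤ V →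
    ‖v‖ ≤ V * X ^ 2 → ∀ i, ‖y i‖ ≤ 2 / 5 * V * X ^ 2

/-- SC-RV: the coefficient of `t ^ 2` of `q_1`. -/
def S_RV : Prop :=
  ∀ (P : Par) (X : ℝ) (h v : W) (y : ℕ → A), Hyp P X h v y →
    |cf (qq P h v y 1) 2| ≤ |cf v 2| / (4 * P.nu) ∧
    cf (vv P h v y 1) 2 = 2 * cf (qq P h v y 1) 2

/-- SC-GG: the main estimate. -/
def S_GG : Prop :=
  ∀ (P : Par) (X : ℝ) (h v : W) (y : ℕ → A), Hyp P X h v y →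
    ‖h‖ ≤ 57 / 50 * X → ‖h - X • cc‖ ≤ 27 / 5 * X ^ 2 → ‖xi P h - X • cc‖ ≤ 27 / 5 * X ^ 2 →
    ‖v‖ ≤ 2 / 3 * X ^ 2 → (∀ i, ‖y i‖ ≤ 3 / 10 * X ^ 2) →
    |cf (OO P X h v y) 1 - (X * P.a 0 - X / 2 * cf (qq P h v y 1) 2 -
      P.nu / 2 * X * cf v 2 - P.nu / 2 * X ^ 3)| ≤ 100 * X ^ 4 + 1 / 300 * X ^ 3

/-- SC-SGN: the signs at the ends. -/
def S_SGN : Prop :=
  ∀ (P : Par) (X : ℝ) (h v : W) (y : ℕ → A), Hyp P X h v y →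
    (X = Real.sqrt (P.a 0) → 0 < cf (OO P X h v y) 1) ∧
    (X = 5 * Real.sqrt (P.a 0) → cf (OO P X h v y) 1 < 0)

/-- SC-EXI: the solution. -/
def S_EXI : Prop :=
  ∀ P : Par, Good P → ∃ (X : ℝ) (h v : W) (y : ℕ → A), 0 < X ∧ X ≤ 3 / 10 ^ 4 ∧
    IsSol P X h v y ∧ OO P X h v y = 0 ∧ ‖h - X • cc‖ ≤ 15 * X ^ 2

/-! ### The numbers -/

/-- `J_m(ρ)`. -/
noncomputable def Fb (ρ : ℝ) (m : ℕ) : ℝ :=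
  ∑' k : ℕ, (-1) ^ k * (ρ / 2) ^ (2 * k + m) / (k.factorial * (k + m).factorial)

/-- SC-N1: Bessel functions of large order. -/
def S_N1 : Prop :=
  ∀ ρ : ℝ, 0 < ρ → (∀ m : ℕ, Fb ρ m = 2 * (m + 1) / ρ * Fb ρ (m + 1) - Fb ρ (m + 2)) ∧
    (∃ C, ∀ m, |Fb ρ m| ≤ C) ∧ (∀ m : ℕ, ρ ≤ m → 0 < Fb ρ m ∧ Fb ρ (m + 1) ≤ Fb ρ m)

/-- SC-N2: propagation of errors. -/
def S_N2 : Prop :=
  ∀ (ρ : ℝ) (M L : ℕ) (e : ℕ → ℝ), 100 < ρ → ρ ≤ M → (M : ℝ) + 3 ≤ ρ + L →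
    (M : ℝ) + 1 ≤ 101 / 100 * ρ → e M = 0 → e (M + 1) = 0 →
    (∀ m < M, |e m - (2 * (m + 1) / ρ * e (m + 1) - e (m + 2))| ≤ 1) →
    ∀ m ≤ M, |e m| ≤ ρ ^ 2 * 4 ^ L

/-- The numerator of `2 / ρ = NN / 2 ^ 128`. -/
def NN : ℕ := 11264503503005008507242120981555936

/-- SC-N3: the computed sequences (`E = 0, 1`). -/
def S_N3 : Prop :=
  ∀ E : ℤ, (E = 0 ∨ E = 1) → ∃ x : ℕ → ℤ, x 60816 = 2 ^ 1000 ∧ x 60817 = E * 2 ^ 1000 ∧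
    (∀ m < 60816, |2 ^ 128 * x m - ((m + 1) * NN * x (m + 1) - 2 ^ 128 * x (m + 2))| ≤ 2 ^ 128) ∧
    2 ^ 1000 ≤ x 2 ∧ |x 1| * 10 ^ 20 ≤ x 2 ∧ 2 ^ 1000 ≤ -x 49032 ∧
    3 * (-x 49032) ≤ 10 ^ 9 * x 49031 ∧ 10 ^ 11 * x 49031 ≤ 305 * (-x 49032)

/-- SC-NUM: the parameters. -/
def S_NUM : Prop := ∃ P : Par, Good P ∧ ∃ C, ∀ i, |P.a i| ≤ C ∧ |P.b i| ≤ C

/-! ### From coefficients to functions -/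

/-- The sum of the series `∑ c_j z ^ j` over the nonnegative powers. -/
noncomputable def evh {w : ℤ → ℝ} (c : Al w) (z : ℂ) : ℂ := ∑' k : ℕ, (cf c k : ℂ) * z ^ k

/-- The value of `∑ c_j t ^ j` on the unit circle. -/
noncomputable def ev {w : ℤ → ℝ} (c : Al w) (t : ℂ) : ℂ := ∑' j : ℤ, (cf c j : ℂ) * t ^ j

/-- SC-EV: evaluation on the unit circle. -/
def S_EV : Prop :=
  ∀ (w : ℤ → ℝ) [Wt w] (t : ℂ), ‖t‖ = 1 →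
    (∀ a : Al w, ‖ev a t‖ ≤ ‖a‖) ∧ (∀ a b : Al w, ev (a + b) t = ev a t + ev b t) ∧
    (∀ (r : ℝ) (a : Al w), ev (r • a) t = r * ev a t) ∧
    (∀ a b : Al w, ev (a * b) t = ev a t * ev b t) ∧ (∀ j : ℤ, ev (mon w j) t = t ^ j) ∧
    (∀ a : Al w, (∀ j < 0, cf a j = 0) → ev a t = evh a t) ∧
    (∃ L : Al w →L[ℝ] ℂ, ∀ a, L a = ev a t) ∧
    (∀ a : W, ev (conj a) t = starRingEnd ℂ (ev a t)) ∧ (∀ a : W, ev (inc a) t = ev a t) ∧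
    (∀ a : W, ev (ex a) t = Complex.exp (ev a t)) ∧
    (∀ a : W, conj a = a → (evh (hol a) t).re = (ev a t).re ∧ (ev a t).im = 0)

/-- SC-EH: evaluation on the disc. -/
def S_EH : Prop :=
  ∀ (w : ℤ → ℝ) [Wt w], (∀ j, Rad ^ j.natAbs ≤ w j) →
    (∀ a : Al w, DifferentiableOn ℂ (evh a) (Metric.ball 0 Rad)) ∧
    (∀ (a : Al w) (z : ℂ), ‖z‖ ≤ Rad → ‖evh a z‖ ≤ ‖a‖) ∧
    (∀ (a b : Al w) (z : ℂ), ‖z‖ ≤ Rad → evh (a + b) z = evh a z + evh b z) ∧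
    (∀ (r : ℝ) (a : Al w) (z : ℂ), evh (r • a) z = r * evh a z) ∧
    (∀ (a b : Al w) (z : ℂ), ‖z‖ ≤ Rad → (∀ j < 0, cf a j = 0) → (∀ j < 0, cf b j = 0) →
      evh (a * b) z = evh a z * evh b z) ∧
    (∀ a : Al w, evh a 0 = cf a 0) ∧
    (∀ (a : W) (z : ℂ), ‖z‖ < Rad → evh (der a) z = z * deriv (evh a) z) ∧
    (∀ (a : W) (z : ℂ), evh (inc a) z = evh a z)

/-- `(ρ ^ 2 - |f| ^ 2) / (2 ρ)`. -/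
noncomputable def eF (ρ : ℝ) (f : ℂ → ℂ) (z : ℂ) : ℝ := (ρ ^ 2 - ‖f z‖ ^ 2) / (2 * ρ)

/-- `∑ e ^ i / i! Q_i (z)`. -/
noncomputable def PP (Q : ℕ → ℂ → ℂ) (e : ℝ) (z : ℂ) : ℂ :=
  ∑' i : ℕ, ((e : ℂ) ^ i / (i.factorial : ℂ)) * Q i z

/-- The function `u ∘ f`. -/
noncomputable def UU (ρ : ℝ) (f : ℂ → ℂ) (Q : ℕ → ℂ → ℂ) (z : ℂ) : ℝ := (PP Q (eF ρ f z) z).re

/-- `2 ∂ (u ∘ f)`. -/
noncomputable def SS (ρ : ℝ) (f : ℂ → ℂ) (Q : ℕ → ℂ → ℂ) (z : ℂ) : ℂ :=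
  PP (fun i => deriv (Q i)) (eF ρ f z) z -
    deriv f z * starRingEnd ℂ (f z) / ρ * ((PP (fun i => Q (i + 1)) (eF ρ f z) z).re : ℂ)

/-- The conditions on the conformal map. -/
structure Conf (ρ r : ℝ) (f : ℂ → ℂ) : Prop where
  rho_pos : 0 < ρ
  r_gt : 1 < r
  f_diff : DifferentiableOn ℂ f (Metric.ball 0 r)
  f_zero : f 0 = 0
  f_der : ∀ z ∈ Metric.ball (0 : ℂ) r, ‖deriv f z - ρ‖ ≤ ρ / 10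

/-- The conditions which exclude discs. -/
structure Nd (f : ℂ → ℂ) : Prop where
  sym : ∃ ω : ℂ, ‖ω‖ = 1 ∧ ω ≠ 1 ∧ ∀ z : ℂ, ‖z‖ ≤ 1 → f (ω * z) = ω * f z
  nc : ∃ z₁ z₂ : ℂ, ‖z₁‖ = 1 ∧ ‖z₂‖ = 1 ∧ ‖f z₁‖ ≠ ‖f z₂‖

/-- The functions `Q_i`. -/
structure Str (ρ r : ℝ) (f : ℂ → ℂ) (Q : ℕ → ℂ → ℂ) : Prop where
  conf : Conf ρ r f
  Q_diff : ∀ i, DifferentiableOn ℂ (Q i) (Metric.ball 0 r)
  Q_bd : ∃ C, ∀ i, ∀ z ∈ Metric.ball (0 : ℂ) r, ‖Q i z‖ ≤ C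
  rel : ∀ i : ℕ, ∀ z ∈ Metric.ball (0 : ℂ) r, f z * deriv (Q (i + 1)) z +
    (i + 1) * (deriv f z * Q (i + 1) z) = ρ / 2 * (deriv f z * (Q i z + Q (i + 2) z))
  bdry : ∀ z : ℂ, ‖z‖ = 1 → SS ρ f Q z = 0
  ne : ∃ z : ℂ, ‖z‖ = 1 ∧ UU ρ f Q z ≠ 0

section
variable (P : Par) (X : ℝ) (h v : W) (y : ℕ → A)

/-- The conformal map. -/
noncomputable def fF (z : ℂ) : ℂ := P.ρ * z * Complex.exp (evh (Phi P h) (z ^ P.n) / P.n)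

/-- The functions `Q_i`. -/
noncomputable def QF : ℕ → ℂ → ℂ
  | 0 => fun z => (2 / P.ρ * P.b 0 - P.b 1 : ℝ) + (X * P.a 0 : ℝ) * (fF P h z / P.ρ) ^ P.n +
      evh (qq P h v y 0) (z ^ P.n)
  | i + 1 => fun z => (P.b i : ℝ) + (X * P.a (i + 1) : ℝ) * (fF P h z / P.ρ) ^ P.n +
      evh (qq P h v y (i + 1)) (z ^ P.n)

/-- The radius of the disc of definition. -/
noncomputable def rF : ℝ := Rad ^ ((P.n : ℝ)⁻¹)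

/-- A solution of all equations. -/
structure Full : Prop where
  good : Good P
  bd : ∃ C, ∀ i, |P.a i| ≤ C ∧ |P.b i| ≤ C
  X_pos : 0 < X
  X_le : X ≤ 3 / 10 ^ 4
  sol : IsSol P X h v y
  eO : OO P X h v y = 0
  hX : ‖h - X • cc‖ ≤ 15 * X ^ 2

end

/-- SC-FN1: the conformal map. -/
def S_FN1 : Prop :=
  ∀ (P : Par) (X : ℝ) (h v : W) (y : ℕ → A), Full P X h v y →
    Conf P.ρ (rF P) (fF P h) ∧ Nd (fF P h)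

/-- SC-FN2: the functions `Q_i`. -/
def S_FN2 : Prop :=
  ∀ (P : Par) (X : ℝ) (h v : W) (y : ℕ → A), Full P X h v y →
    (∀ i, DifferentiableOn ℂ (QF P X h v y i) (Metric.ball 0 (rF P))) ∧
    (∃ C, ∀ i, ∀ z ∈ Metric.ball (0 : ℂ) (rF P), ‖QF P X h v y i z‖ ≤ C)

/-- SC-FN3: the relation between the functions `Q_i`. -/
def S_FN3 : Prop :=
  ∀ (P : Par) (X : ℝ) (h v : W) (y : ℕ → A), Full P X h v y →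
    ∀ i : ℕ, ∀ z ∈ Metric.ball (0 : ℂ) (rF P), fF P h z * deriv (QF P X h v y (i + 1)) z +
      (i + 1) * (deriv (fF P h) z * QF P X h v y (i + 1) z) =
      P.ρ / 2 * (deriv (fF P h) z * (QF P X h v y i z + QF P X h v y (i + 2) z))

/-- SC-FN4: the boundary condition. -/
def S_FN4 : Prop :=
  ∀ (P : Par) (X : ℝ) (h v : W) (y : ℕ → A), Full P X h v y →
    ∀ z : ℂ, ‖z‖ = 1 → SS P.ρ (fF P h) (QF P X h v y) z = 0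

/-- SC-FN5: the boundary value is not zero. -/
def S_FN5 : Prop :=
  ∀ (P : Par) (X : ℝ) (h v : W) (y : ℕ → A), Full P X h v y →
    ∃ z : ℂ, ‖z‖ = 1 ∧ UU P.ρ (fF P h) (QF P X h v y) z ≠ 0

/-- The classical solution `U = u ∘ f` (`λ = 1`), `S = 2 ∂ U`. -/
structure Cl (r c : ℝ) (f : ℂ → ℂ) (U : ℂ → ℝ) (S : ℂ → ℂ) : Prop where
  U_der : ∀ z ∈ Metric.ball (0 : ℂ) r,
    HasFDerivAt U (Complex.reCLM.comp (ContinuousLinearMap.mul ℝ ℂ (S z))) z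
  S_smooth : ContDiffOn ℝ 1 S (Metric.ball 0 r)
  lap : ∀ z ∈ Metric.ball (0 : ℂ) r,
    (fderiv ℝ S z 1).re - (fderiv ℝ S z Complex.I).im = -(‖deriv f z‖ ^ 2 * U z)
  S_bd : ∀ z : ℂ, ‖z‖ = 1 → S z = 0
  U_bd : ∀ z : ℂ, ‖z‖ = 1 → U z = c
  c_ne : c ≠ 0

/-- SC-PSM: differentiability of `PP`. -/
def S_PSM : Prop :=
  ∀ (r : ℝ) (Q : ℕ → ℂ → ℂ), 0 < r → (∀ i, DifferentiableOn ℂ (Q i) (Metric.ball 0 r)) →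
    (∃ C, ∀ i, ∀ z ∈ Metric.ball (0 : ℂ) r, ‖Q i z‖ ≤ C) →
    (∀ (e : ℝ), ∀ z ∈ Metric.ball (0 : ℂ) r,
      HasFDerivAt (fun p : ℝ × ℂ => PP Q p.1 p.2)
        ((ContinuousLinearMap.fst ℝ ℝ ℂ).smulRight (PP (fun i => Q (i + 1)) e z) +
          (ContinuousLinearMap.mul ℝ ℂ (PP (fun i => deriv (Q i)) e z)).comp
            (ContinuousLinearMap.snd ℝ ℝ ℂ)) (e, z)) ∧
    ContDiffOn ℝ 2 (fun p : ℝ × ℂ => PP Q p.1 p.2) (Set.univ ×ˢ Metric.ball 0 r)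

/-- SC-PDE: the classical solution. -/
def S_PDE : Prop :=
  ∀ (ρ r : ℝ) (f : ℂ → ℂ) (Q : ℕ → ℂ → ℂ), Str ρ r f Q →
    ∃ (r' c : ℝ) (U : ℂ → ℝ) (S : ℂ → ℂ), 1 < r' ∧ r' ≤ r ∧ Cl r' c f U S

/-! ### Topology -/

/-- The domain. -/
def Om (f : ℂ → ℂ) : Set ℂ := f '' Metric.ball 0 1

/-- SC-INJ: the map `f` is bi-Lipschitz. -/
def S_INJ : Prop :=
  ∀ (ρ r : ℝ) (f : ℂ → ℂ), Conf ρ r f →
    (∀ z ∈ Metric.ball (0 : ℂ) r, ∀ w ∈ Metric.ball (0 : ℂ) r,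
      ‖f z - f w - ρ * (z - w)‖ ≤ ρ / 10 * ‖z - w‖) ∧ InjOn f (Metric.ball 0 r)

/-- SC-TOP: topology of the domain. -/
def S_TOP : Prop :=
  ∀ (ρ r : ℝ) (f : ℂ → ℂ), Conf ρ r f →
    IsOpen (Om f) ∧ Bornology.IsBounded (Om f) ∧ IsConnected (Om f) ∧
    SimplyConnectedSpace (Om f) ∧ frontier (Om f) = f '' Metric.sphere 0 1 ∧
    Nonempty (frontier (Om f) ≃ₜ Metric.sphere (0 : ℂ) 1)

/-- SC-LIP: the domain is a Lipschitz domain. -/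
def S_LIP : Prop :=
  ∀ (ρ r : ℝ) (f : ℂ → ℂ), Conf ρ r f → ∀ z : ℂ, ‖z‖ = 1 →
    ∃ e g : ℂ, ‖e‖ = 1 ∧ ‖g‖ = 1 ∧ @inner ℝ ℂ _ e g = 0 ∧
      ∃ s : ℝ, 0 < s ∧ ∃ K : NNReal, ∃ γ : ℝ → ℝ, LipschitzWith K γ ∧
        ∀ x ∈ Metric.ball (f z) s, (x ∈ Om f ↔ γ (@inner ℝ ℂ _ x e) < @inner ℝ ℂ _ x g)

/-- SC-NB: the domain is not a disc. -/
def S_NB : Prop :=
  ∀ (ρ r : ℝ) (f : ℂ → ℂ), Conf ρ r f → Nd f → ∀ (a : ℂ) (s : ℝ), Om f ≠ Metric.ball a s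

/-! ### The weak formulation -/

/-- SC-DIV: the integral of a derivative. -/
def S_DIV : Prop :=
  ∀ (F : ℂ → ℝ) (B : ℝ), Continuous F → (∀ z : ℂ, 1 ≤ ‖z‖ → F z = 0) →
    ContDiffOn ℝ 1 F (Metric.ball 0 1) → (∀ z ∈ Metric.ball (0 : ℂ) 1, ‖fderiv ℝ F z‖ ≤ B) →
    ∀ v : ℂ, ∫ z in Metric.ball (0 : ℂ) 1, fderiv ℝ F z v = 0

/-- SC-CV: change of variables. -/
def S_CV : Prop :=
  ∀ (ρ r : ℝ) (f : ℂ → ℂ), Conf ρ r f → ∀ ψ : ℂ → ℝ,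
    ∫ x in Om f, ψ x = ∫ z in Metric.ball (0 : ℂ) 1, ‖deriv f z‖ ^ 2 * ψ (f z)

/-- The weak solution on `Ω` in the plane `ℂ`. -/
def Weak (Ω : Set ℂ) (lam c : ℝ) (u : ℂ → ℝ) (G : ℂ → ℂ) : Prop :=
  MemLp u 2 (volume.restrict Ω) ∧ MemLp G 2 (volume.restrict Ω) ∧
  (∀ φ : ℂ → ℝ, ContDiff ℝ 1 φ → HasCompactSupport φ → ∀ v : ℂ,
    ∫ x in Ω, (u x - c) * (fderiv ℝ φ x v) = - ∫ x in Ω, @inner ℝ ℂ _ (G x) v * φ x) ∧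
  (∀ φ : ℂ → ℝ, ContDiff ℝ 1 φ → HasCompactSupport φ →
    ∫ x in Ω, fderiv ℝ φ x (G x) = lam * ∫ x in Ω, u x * φ x) ∧
  ¬ (u =ᵐ[volume.restrict Ω] 0)

/-- The function `u = U ∘ f⁻¹`. -/
noncomputable def uF (f : ℂ → ℂ) (U : ℂ → ℝ) (x : ℂ) : ℝ :=
  U (Function.invFunOn f (Metric.ball 0 1) x)

/-- The gradient of `u = U ∘ f⁻¹`. -/
noncomputable def GF (f : ℂ → ℂ) (S : ℂ → ℂ) (x : ℂ) : ℂ :=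
  starRingEnd ℂ (S (Function.invFunOn f (Metric.ball 0 1) x) /
    deriv f (Function.invFunOn f (Metric.ball 0 1) x))

/-- SC-WK1: integrability. -/
def S_WK1 : Prop :=
  ∀ (ρ r r' c : ℝ) (f : ℂ → ℂ) (U : ℂ → ℝ) (S : ℂ → ℂ), Conf ρ r f → 1 < r' → r' ≤ r →
    Cl r' c f U S → MemLp (uF f U) 2 (volume.restrict (Om f)) ∧
      MemLp (GF f S) 2 (volume.restrict (Om f)) ∧ ¬ (uF f U =ᵐ[volume.restrict (Om f)] 0)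

/-- SC-WK2: the first identity. -/
def S_WK2 : Prop :=
  ∀ (ρ r r' c : ℝ) (f : ℂ → ℂ) (U : ℂ → ℝ) (S : ℂ → ℂ), Conf ρ r f → 1 < r' → r' ≤ r →
    Cl r' c f U S → ∀ φ : ℂ → ℝ, ContDiff ℝ 1 φ → HasCompactSupport φ → ∀ v : ℂ,
      ∫ x in Om f, (uF f U x - c) * (fderiv ℝ φ x v) =
        - ∫ x in Om f, @inner ℝ ℂ _ (GF f S x) v * φ x

/-- SC-WK3: the second identity. -/
def S_WK3 : Prop :=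
  ∀ (ρ r r' c : ℝ) (f : ℂ → ℂ) (U : ℂ → ℝ) (S : ℂ → ℂ), Conf ρ r f → 1 < r' → r' ≤ r →
    Cl r' c f U S → ∀ φ : ℂ → ℝ, ContDiff ℝ 1 φ → HasCompactSupport φ →
      ∫ x in Om f, fderiv ℝ φ x (GF f S x) = 1 * ∫ x in Om f, uF f U x * φ x

/-- The final statement in the plane `ℂ`. -/
def FinalC : Prop :=
  ∃ Ω : Set ℂ, IsOpen Ω ∧ Bornology.IsBounded Ω ∧ IsConnected Ω ∧ SimplyConnectedSpace Ω ∧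
    Nonempty (frontier Ω ≃ₜ Metric.sphere (0 : ℂ) 1) ∧
    (∀ p ∈ frontier Ω, ∃ e g : ℂ, ‖e‖ = 1 ∧ ‖g‖ = 1 ∧ @inner ℝ ℂ _ e g = 0 ∧
      ∃ s : ℝ, 0 < s ∧ ∃ K : NNReal, ∃ γ : ℝ → ℝ, LipschitzWith K γ ∧
        ∀ x ∈ Metric.ball p s, (x ∈ Ω ↔ γ (@inner ℝ ℂ _ x e) < @inner ℝ ℂ _ x g)) ∧
    (∀ (a : ℂ) (s : ℝ), Ω ≠ Metric.ball a s) ∧
    ∃ (lam c : ℝ) (u : ℂ → ℝ) (G : ℂ → ℂ), 0 < lam ∧ Weak Ω lam c u G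

/-- SC-TR: transfer to the frozen statement. -/
def S_TR : Prop := FinalC →
    ¬ (∀ Ω : Set (EuclideanSpace ℝ (Fin 2)),
    IsOpen Ω → Bornology.IsBounded Ω → IsConnected Ω → SimplyConnectedSpace Ω →
    Nonempty (frontier Ω ≃ₜ Metric.sphere (0 : EuclideanSpace ℝ (Fin 2)) 1) →
    (∀ p ∈ frontier Ω, ∃ e f : EuclideanSpace ℝ (Fin 2), ‖e‖ = 1 ∧ ‖f‖ = 1 ∧
        @inner ℝ (EuclideanSpace ℝ (Fin 2)) _ e f = 0 ∧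
        ∃ r : ℝ, 0 < r ∧ ∃ K : NNReal, ∃ g : ℝ → ℝ, LipschitzWith K g ∧
          ∀ x ∈ Metric.ball p r,
            (x ∈ Ω ↔ g (@inner ℝ (EuclideanSpace ℝ (Fin 2)) _ x e)
              < @inner ℝ (EuclideanSpace ℝ (Fin 2)) _ x f)) →
    ∀ (lam c : ℝ) (u : EuclideanSpace ℝ (Fin 2) → ℝ)
      (G : EuclideanSpace ℝ (Fin 2) → EuclideanSpace ℝ (Fin 2)),
      0 < lam →
      MeasureTheory.MemLp u 2 (MeasureTheory.volume.restrict Ω) →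
      MeasureTheory.MemLp G 2 (MeasureTheory.volume.restrict Ω) →
      (∀ φ : EuclideanSpace ℝ (Fin 2) → ℝ, ContDiff ℝ 1 φ → HasCompactSupport φ →
        ∀ v : EuclideanSpace ℝ (Fin 2),
          ∫ x in Ω, (u x - c) * (fderiv ℝ φ x v)
            = - ∫ x in Ω, @inner ℝ (EuclideanSpace ℝ (Fin 2)) _ (G x) v * φ x) →
      (∀ φ : EuclideanSpace ℝ (Fin 2) → ℝ, ContDiff ℝ 1 φ → HasCompactSupport φ →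
          ∫ x in Ω, fderiv ℝ φ x (G x) = lam * ∫ x in Ω, u x * φ x) →
      ¬ (u =ᵐ[MeasureTheory.volume.restrict Ω] 0) →
      ∃ (a : EuclideanSpace ℝ (Fin 2)) (r : ℝ), Ω = Metric.ball a r)

end Pool.Agent.N229.SC
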