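import Pool.Agent.N229.SC.Stm

/-!
Project SC (helper229), problem MP_83fd13_an, part SC-TOP (helper697): topology of the domain
`f (disc)`. The map `f` extends to a homeomorphism of the plane, a Lipschitz perturbation of `ρ id`.
-/

set_option autoImplicit false

open Set Filter Topology MeasureTheory
open scoped NNReal

namespace Pool.Agent.N229.SC

/-- The radial retraction onto the closed unit disc. -/
private noncomputable def top_R (z : ℂ) : ℂ := ((max 1 ‖z‖)⁻¹ : ℝ) • z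

private theorem top_R_of_le {z : ℂ} (hz : ‖z‖ ≤ 1) : top_R z = z := by
  unfold top_R
  rw [max_eq_left hz, inv_one, one_smul]

private theorem top_norm_R_le (z : ℂ) : ‖top_R z‖ ≤ 1 := by
  unfold top_R
  have h1 : (0 : ℝ) < max 1 ‖z‖ := zero_lt_one.trans_le (le_max_left _ _)
  rw [norm_smul, Real.norm_eq_abs, abs_of_pos (inv_pos.2 h1), inv_mul_le_iff₀ h1, mul_one]
  exact le_max_right _ _

private theorem top_R_lip (z w : ℂ) : ‖top_R z - top_R w‖ ≤ 2 * ‖z - w‖ := by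
  obtain ⟨a, ha⟩ : ∃ a : ℝ, a = max 1 ‖z‖ := ⟨_, rfl⟩
  obtain ⟨b, hb⟩ : ∃ b : ℝ, b = max 1 ‖w‖ := ⟨_, rfl⟩
  have ha1 : 1 ≤ a := by rw [ha]; exact le_max_left _ _
  have hb1 : 1 ≤ b := by rw [hb]; exact le_max_left _ _
  have ha0 : 0 < a := by linarith
  have hb0 : 0 < b := by linarith
  have hwb : ‖w‖ ≤ b := by rw [hb]; exact le_max_right _ _
  have hab : |b - a| ≤ ‖z - w‖ := by
    have h1 := abs_max_sub_max_le_max 1 ‖w‖ 1 ‖z‖
    rw [← ha, ← hb, sub_self, abs_zero, max_eq_right (abs_nonneg _)] at h1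
    refine h1.trans ?_
    rw [norm_sub_rev]
    exact abs_norm_sub_norm_le w z
  have e1 : top_R z - top_R w = (a⁻¹ : ℝ) • (z - w) + ((b - a) * (a⁻¹ * b⁻¹) : ℝ) • w := by
    unfold top_R
    rw [← ha, ← hb]
    have h2 : (b - a) * (a⁻¹ * b⁻¹) = a⁻¹ - b⁻¹ := by field_simp
    rw [h2]
    module
  have hi : a⁻¹ ≤ 1 := inv_le_one_of_one_le₀ ha1
  have hi0 : 0 < a⁻¹ := inv_pos.2 ha0
  rw [e1]
  refine (norm_add_le _ _).trans ?_
  rw [norm_smul, norm_smul, Real.norm_eq_abs, Real.norm_eq_abs, abs_of_pos hi0, abs_mul,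
    abs_of_pos (mul_pos hi0 (inv_pos.2 hb0))]
  have h3 : b⁻¹ * ‖w‖ ≤ 1 := by
    rw [inv_mul_le_iff₀ hb0, mul_one]
    exact hwb
  have h4 : a⁻¹ * ‖z - w‖ ≤ 1 * ‖z - w‖ := mul_le_mul_of_nonneg_right hi (norm_nonneg _)
  have h5 : |b - a| * (a⁻¹ * b⁻¹) * ‖w‖ = |b - a| * (a⁻¹ * (b⁻¹ * ‖w‖)) := by ring
  have h6 : a⁻¹ * (b⁻¹ * ‖w‖) ≤ 1 * 1 :=
    mul_le_mul hi h3 (mul_nonneg (inv_pos.2 hb0).le (norm_nonneg _)) zero_le_one
  have h7 : |b - a| * (a⁻¹ * (b⁻¹ * ‖w‖)) ≤ ‖z - w‖ * (1 * 1) :=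
    mul_le_mul hab h6 (by positivity) (norm_nonneg _)
  rw [h5]
  linarith

/-- The perturbation. -/
private noncomputable def top_G (ρ : ℝ) (f : ℂ → ℂ) (z : ℂ) : ℂ := f (top_R z) / ρ - top_R z

private theorem top_G_lip (hINJ : S_INJ) (ρ r : ℝ) (f : ℂ → ℂ) (hf : Conf ρ r f) (z w : ℂ) :
    ‖top_G ρ f z - top_G ρ f w‖ ≤ 1 / 2 * ‖z - w‖ := by
  have hρ := hf.rho_pos
  have hr := hf.r_gt
  have hρ0 : (ρ : ℂ) ≠ 0 := by exact_mod_cast hρ.ne'
  have hmem : ∀ u : ℂ, top_R u ∈ Metric.ball (0 : ℂ) r := by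
    intro u
    rw [Metric.mem_ball, dist_zero_right]
    exact (top_norm_R_le u).trans_lt hr
  have h1 := (hINJ ρ r f hf).1 (top_R z) (hmem z) (top_R w) (hmem w)
  have e1 : top_G ρ f z - top_G ρ f w =
      (f (top_R z) - f (top_R w) - ρ * (top_R z - top_R w)) / ρ := by
    unfold top_G
    field_simp
    ring
  rw [e1, norm_div, Complex.norm_real, Real.norm_eq_abs, abs_of_pos hρ, div_le_iff₀ hρ]
  refine h1.trans ?_
  have h2 := top_R_lip z w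
  have h3 : ρ / 10 * ‖top_R z - top_R w‖ ≤ ρ / 10 * (2 * ‖z - w‖) :=
    mul_le_mul_of_nonneg_left h2 (by positivity)
  have h4 : 0 ≤ ρ * ‖z - w‖ := by positivity
  nlinarith

/-- The extension to the plane. -/
private theorem top_hom (hINJ : S_INJ) (ρ r : ℝ) (f : ℂ → ℂ) (hf : Conf ρ r f) :
    ∃ Φ : ℂ ≃ₜ ℂ, ∀ z : ℂ, ‖z‖ ≤ 1 → Φ z = f z := by
  have hlip := top_G_lip hINJ ρ r f hf
  have happ : ApproximatesLinearOn (fun z : ℂ => z + top_G ρ f z)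
      ((ContinuousLinearEquiv.refl ℂ ℂ : ℂ ≃L[ℂ] ℂ) : ℂ →L[ℂ] ℂ) univ (1 / 2 : ℝ≥0) := by
    intro x _ y _
    have e : (fun z : ℂ => z + top_G ρ f z) x - (fun z : ℂ => z + top_G ρ f z) y -
        ((ContinuousLinearEquiv.refl ℂ ℂ : ℂ ≃L[ℂ] ℂ) : ℂ →L[ℂ] ℂ) (x - y) =
        top_G ρ f x - top_G ρ f y := by
      simp only [ContinuousLinearEquiv.coe_coe, ContinuousLinearEquiv.refl_apply]
      ring
    rw [e]
    have := hlip x y
    simpa using this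
  have hN : ‖(((ContinuousLinearEquiv.refl ℂ ℂ : ℂ ≃L[ℂ] ℂ).symm : ℂ ≃L[ℂ] ℂ) : ℂ →L[ℂ] ℂ)‖₊ =
      1 := by
    have : (((ContinuousLinearEquiv.refl ℂ ℂ : ℂ ≃L[ℂ] ℂ).symm : ℂ ≃L[ℂ] ℂ) : ℂ →L[ℂ] ℂ) =
        ContinuousLinearMap.id ℂ ℂ := by
      ext; simp
    rw [this]
    ext
    simp
  have hc : Subsingleton ℂ ∨ (1 / 2 : ℝ≥0) <
      ‖(((ContinuousLinearEquiv.refl ℂ ℂ : ℂ ≃L[ℂ] ℂ).symm : ℂ ≃L[ℂ] ℂ) : ℂ →L[ℂ] ℂ)‖₊⁻¹ := by
    right
    rw [hN, inv_one]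
    norm_num
  have hρ0 : (ρ : ℂ) ≠ 0 := by exact_mod_cast hf.rho_pos.ne'
  refine ⟨(happ.toHomeomorph _ hc).trans (Homeomorph.mulLeft₀ (ρ : ℂ) hρ0), ?_⟩
  intro z hz
  show (ρ : ℂ) * (z + top_G ρ f z) = f z
  unfold top_G
  rw [top_R_of_le hz]
  field_simp
  ring

/-- SC-TOP. -/
theorem proof_TOP (hINJ : S_INJ) : S_TOP := by
  intro ρ r f hf
  obtain ⟨Φ, hΦ⟩ := top_hom hINJ ρ r f hf
  have hO : Om f = Φ '' Metric.ball 0 1 := by
    unfold Om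
    refine image_congr fun z hz => (hΦ z ?_).symm
    rw [Metric.mem_ball, dist_zero_right] at hz
    exact hz.le
  have hS : f '' Metric.sphere 0 1 = Φ '' Metric.sphere 0 1 := by
    refine image_congr fun z hz => (hΦ z ?_).symm
    rw [mem_sphere_zero_iff_norm] at hz
    exact hz.le
  have hfr : frontier (Om f) = Φ '' Metric.sphere 0 1 := by
    rw [hO, ← Φ.image_frontier, frontier_ball (0 : ℂ) one_ne_zero]
  have hcon : ContractibleSpace (Metric.ball (0 : ℂ) 1) :=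
    (convex_ball (0 : ℂ) 1).contractibleSpace ⟨0, Metric.mem_ball_self one_pos⟩
  refine ⟨?_, ?_, ?_, ?_, ?_, ?_⟩
  · rw [hO, Φ.isOpen_image]
    exact Metric.isOpen_ball
  · rw [hO]
    exact ((isCompact_closedBall (0 : ℂ) 1).image Φ.continuous).isBounded.subset
      (image_mono Metric.ball_subset_closedBall)
  · rw [hO]
    exact IsConnected.image ⟨⟨0, Metric.mem_ball_self one_pos⟩,
      (convex_ball (0 : ℂ) 1).isPreconnected⟩ _ Φ.continuous.continuousOn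
  · rw [hO]
    have h1 : ContractibleSpace (Φ '' Metric.ball (0 : ℂ) 1) :=
      (Φ.image (Metric.ball (0 : ℂ) 1)).symm.contractibleSpace
    infer_instance
  · rw [hfr, hS]
  · rw [hfr]
    exact ⟨(Φ.image (Metric.sphere (0 : ℂ) 1)).symm⟩

end Pool.Agent.N229.SC
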