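import Pool.Agent.N229.SC.Stm

/-!
SC/TR (helper50): transfer from `ℂ` to the Euclidean plane.
-/

open MeasureTheory Set Filter Topology

set_option autoImplicit false

namespace Pool.Agent.N229.SC

/-- the plane -/
private abbrev E2 := EuclideanSpace ℝ (Fin 2)

/-- the isometry -/
private noncomputable def tr_J : ℂ ≃ₗᵢ[ℝ] E2 := Complex.orthonormalBasisOneI.repr

private lemma tr_mp : MeasurePreserving tr_J volume volume := tr_J.measurePreserving

private lemma tr_me : MeasurableEmbedding tr_J := tr_J.toHomeomorph.measurableEmbedding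

private lemma tr_fd {φ : E2 → ℝ} (h : ContDiff ℝ 1 φ) (y v : ℂ) :
    fderiv ℝ (fun z => φ (tr_J z)) y v = fderiv ℝ φ (tr_J y) (tr_J v) := by
  have h1 : HasFDerivAt φ (fderiv ℝ φ (tr_J y)) (tr_J y) :=
    (h.differentiable (by norm_num) _).hasFDerivAt
  have h2 : HasFDerivAt (fun z : ℂ => tr_J z) (tr_J.toContinuousLinearEquiv : ℂ →L[ℝ] E2) y :=
    (tr_J.toContinuousLinearEquiv : ℂ →L[ℝ] E2).hasFDerivAt
  have h3 : HasFDerivAt (fun z => φ (tr_J z))
      ((fderiv ℝ φ (tr_J y)).comp (tr_J.toContinuousLinearEquiv : ℂ →L[ℝ] E2)) y := h1.comp y h2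
  rw [h3.fderiv]
  rfl

/-- **SC/TR** -/
theorem proof_TR : S_TR := by
  rintro ⟨Om, hO, hb, hc, hs, ⟨hf⟩, hL, hnb, lam, c, u, G, hlam, hu, hG, w1, w2, hne⟩ H
  have pre : tr_J.symm ⁻¹' Om = tr_J '' Om := (tr_J.image_eq_preimage_symm Om).symm
  have mps : MeasurePreserving tr_J.symm (volume.restrict (tr_J '' Om)) (volume.restrict Om) := by
    have h1 : MeasurePreserving tr_J.symm (volume : Measure E2) (volume : Measure ℂ) :=
      tr_J.symm.measurePreserving
    have h2 := h1.restrict_preimage_emb tr_J.symm.toHomeomorph.measurableEmbedding Om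
    rwa [pre] at h2
  suffices hk : ∃ (a : E2) (r : ℝ), tr_J '' Om = Metric.ball a r by
    obtain ⟨a, r, har⟩ := hk
    refine hnb (tr_J.symm a) r ?_
    have h1 := congrArg (fun s => tr_J.symm '' s) har
    simp only [tr_J.symm.image_ball] at h1
    rw [← h1, image_image]
    simp only [tr_J.symm_apply_apply, image_id']
  refine H (tr_J '' Om) (tr_J.toHomeomorph.isOpenMap _ hO)
    (tr_J.lipschitz.isBounded_image hb) (hc.image _ tr_J.continuous.continuousOn) ?_ ?_ ?_ lam c
    (fun x => u (tr_J.symm x)) (fun x => tr_J (G (tr_J.symm x))) hlam ?_ ?_ ?_ ?_ ?_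
  · have h1 : Om ≃ₜ (tr_J '' Om) := tr_J.toHomeomorph.image Om
    exact h1.symm.toHomotopyEquiv.simplyConnectedSpace
  · have e1 : tr_J '' frontier Om = frontier (tr_J '' Om) := tr_J.toHomeomorph.image_frontier Om
    have e2 : tr_J '' Metric.sphere 0 1 = Metric.sphere 0 1 := by
      rw [tr_J.image_sphere, map_zero]
    have h1 : frontier Om ≃ₜ (tr_J '' frontier Om) := tr_J.toHomeomorph.image (frontier Om)
    have h2 : Metric.sphere (0 : ℂ) 1 ≃ₜ (tr_J '' Metric.sphere (0 : ℂ) 1) :=
      tr_J.toHomeomorph.image (Metric.sphere (0 : ℂ) 1)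
    exact ⟨((Homeomorph.setCongr e1).symm.trans h1.symm).trans
      (hf.trans (h2.trans (Homeomorph.setCongr e2)))⟩
  · intro p hp
    have e1 : tr_J '' frontier Om = frontier (tr_J '' Om) := tr_J.toHomeomorph.image_frontier Om
    rw [← e1] at hp
    obtain ⟨q, hq, rfl⟩ := hp
    obtain ⟨e, g, he, hg, heg, s, hs, K, γ, hγ, h⟩ := hL q hq
    refine ⟨tr_J e, tr_J g, by rwa [tr_J.norm_map], by rwa [tr_J.norm_map],
      by rwa [tr_J.inner_map_map], s, hs, K, γ, hγ, fun x hx => ?_⟩
    obtain ⟨y, rfl⟩ := tr_J.surjective x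
    rw [tr_J.inner_map_map, tr_J.inner_map_map, tr_J.injective.mem_set_image]
    refine h y ?_
    rw [Metric.mem_ball, tr_J.dist_map] at hx
    exact hx
  · exact hu.comp_measurePreserving mps
  · have h1 := hG.comp_measurePreserving mps
    exact (tr_J.toContinuousLinearEquiv : ℂ →L[ℝ] E2).comp_memLp' h1
  · intro φ hφ hφ' v
    rw [tr_mp.setIntegral_image_emb tr_me, tr_mp.setIntegral_image_emb tr_me]
    have h1 : ContDiff ℝ 1 (fun z => φ (tr_J z)) := hφ.comp tr_J.contDiff
    have h2 : HasCompactSupport (fun z => φ (tr_J z)) :=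
      hφ'.comp_homeomorph tr_J.toHomeomorph
    have h3 := w1 _ h1 h2 (tr_J.symm v)
    simp only [tr_fd hφ, tr_J.apply_symm_apply] at h3
    simp only [tr_J.symm_apply_apply]
    rw [h3]
    congr 1
    refine integral_congr_ae (Eventually.of_forall fun x => ?_)
    simp only
    rw [← tr_J.inner_map_map, tr_J.apply_symm_apply]
  · intro φ hφ hφ'
    rw [tr_mp.setIntegral_image_emb tr_me, tr_mp.setIntegral_image_emb tr_me]
    have h1 : ContDiff ℝ 1 (fun z => φ (tr_J z)) := hφ.comp tr_J.contDiff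
    have h2 : HasCompactSupport (fun z => φ (tr_J z)) :=
      hφ'.comp_homeomorph tr_J.toHomeomorph
    have h3 := w2 _ h1 h2
    simp only [tr_fd hφ] at h3
    simp only [tr_J.symm_apply_apply]
    exact h3
  · intro h1
    refine hne ?_
    have h2 : MeasurePreserving tr_J (volume.restrict Om) (volume.restrict (tr_J '' Om)) :=
      tr_mp.restrict_image_emb tr_me Om
    have h3 := h2.quasiMeasurePreserving.ae h1
    filter_upwards [h3] with x hx
    simpa using hx

end Pool.Agent.N229.SC
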