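import Pool.Agent.N229.SC.Stm

/-!
Project SC (helper229), problem MP_83fd13_an: the second order of `v` (SC-VG).
-/

set_option autoImplicit false

open Set Filter Topology

namespace Pool.Agent.N229.SC

private lemma vg_alg {R : Type*} [CommRing R] [Algebra ℝ R] (x a : ℝ)
    (ξ τ τc t tc v vc V1 V1c V2 V2c E Ec c : R) :
    ((x * a) • τ + v - ξ * ((-x) • τ + V1) + (1 / 2 : ℝ) • (ξ ^ 2 * V2) + E) -
      ((x * a) • τc + vc - ξ * ((-x) • τc + V1c) + (1 / 2 : ℝ) • (ξ ^ 2 * V2c) + Ec) =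
    ((x * a) • ((τ - t) - (τc - tc)) + x • ((ξ - x • c) * (τ - τc)) +
      (x ^ 2) • (c * ((τ - t) - (τc - tc))) - ξ * (V1 - V1c) +
      (1 / 2 : ℝ) • (ξ ^ 2 * (V2 - V2c)) + (E - Ec)) +
      (v - vc) + (x * a) • (t - tc) + (x ^ 2) • (c * (t - tc)) := by
  simp only [Algebra.smul_def, map_mul, map_pow, map_neg]
  ring

private lemma vg_num {X H V M K N a₀ : ℝ} (hX0 : 0 < X) (hX : X ≤ 28 / 10 ^ 5) (hH0 : 0 ≤ H)
    (hH2 : H ≤ 2) (hV0 : 0 ≤ V) (hV5 : V ≤ 5) (hM0 : 0 ≤ M) (hM5 : M ≤ 5) (hK0 : 0 ≤ K)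
    (ha : a₀ ≤ X ^ 2) (hN0 : 0 ≤ N) (hN : N ≤ (1 + 1 / 10 ^ 7) * (H * X)) :
    X * a₀ * (2 * (93 / 100 * (H * X))) + X * (K * X ^ 2 * (2 * (1128 / 1000))) +
      X ^ 2 * (1126125 / 1000000 * (2 * (93 / 100 * (H * X)))) +
      N * (2 * ((8 / 25 * V + 2 / 5 * M) * X ^ 2)) +
      1 / 2 * (N ^ 2 * (2 * (X * (16403 / 10000) * (1128 / 1000) +
        (8 / 25 * V + 4 / 5 * M) * 2 * X ^ 2))) +
      2 * (10 / 9 * (3 / 5 * X) * (3 * N) ^ 3) ≤
    (23 / 10 * K + 11 / 5 * H + H * (2 / 3 * V + 4 / 5 * M) + 19 / 10 * H ^ 2 + 1 / 10) *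
      X ^ 3 := by
  have hX3 : 0 < X ^ 3 := by positivity
  have e1 : X * a₀ * (2 * (93 / 100 * (H * X))) ≤ 1 / 1000 * H * X ^ 3 := by
    calc X * a₀ * (2 * (93 / 100 * (H * X))) ≤ X * X ^ 2 * (2 * (93 / 100 * (H * X))) := by
          gcongr
      _ = 186 / 100 * X * (H * X ^ 3) := by ring
      _ ≤ 186 / 100 * (28 / 10 ^ 5) * (H * X ^ 3) := by gcongr
      _ ≤ 1 / 1000 * H * X ^ 3 := by
          have : 0 ≤ H * X ^ 3 := by positivity
          linarith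
  have e2 : X * (K * X ^ 2 * (2 * (1128 / 1000))) ≤ 23 / 10 * K * X ^ 3 := by
    have : 0 ≤ K * X ^ 3 := by positivity
    have h : X * (K * X ^ 2 * (2 * (1128 / 1000))) = 2256 / 1000 * (K * X ^ 3) := by ring
    rw [h]
    linarith
  have e3 : X ^ 2 * (1126125 / 1000000 * (2 * (93 / 100 * (H * X)))) ≤ 21 / 10 * H * X ^ 3 := by
    have : 0 ≤ H * X ^ 3 := by positivity
    have h : X ^ 2 * (1126125 / 1000000 * (2 * (93 / 100 * (H * X)))) =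
        1126125 / 1000000 * (186 / 100) * (H * X ^ 3) := by ring
    rw [h]
    linarith
  have e4 : N * (2 * ((8 / 25 * V + 2 / 5 * M) * X ^ 2)) ≤
      (H * (2 / 3 * V + 4 / 5 * M) + 1 / 20) * X ^ 3 := by
    have h0 : 0 ≤ 2 * ((8 / 25 * V + 2 / 5 * M) * X ^ 2) := by positivity
    have h1 : N * (2 * ((8 / 25 * V + 2 / 5 * M) * X ^ 2)) ≤
        (1 + 1 / 10 ^ 7) * (H * X) * (2 * ((8 / 25 * V + 2 / 5 * M) * X ^ 2)) :=
      mul_le_mul_of_nonneg_right hN h0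
    have h2 : (1 + 1 / 10 ^ 7) * (H * X) * (2 * ((8 / 25 * V + 2 / 5 * M) * X ^ 2)) =
        ((1 + 1 / 10 ^ 7) * (H * (16 / 25 * V + 4 / 5 * M))) * X ^ 3 := by ring
    rw [h2] at h1
    refine h1.trans (mul_le_mul_of_nonneg_right ?_ hX3.le)
    have h3 : H * V ≤ 10 := by nlinarith
    have h4 : H * M ≤ 10 := by nlinarith
    have h5 : 0 ≤ H * V := by positivity
    have h6 : 0 ≤ H * M := by positivity
    nlinarith
  have hNN : N ^ 2 ≤ 10001 / 10000 * (H ^ 2 * X ^ 2) := by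
    have h1 : N ^ 2 ≤ ((1 + 1 / 10 ^ 7) * (H * X)) ^ 2 := pow_le_pow_left₀ hN0 hN 2
    refine h1.trans ?_
    have h2 : ((1 + 1 / 10 ^ 7) * (H * X)) ^ 2 = (1 + 1 / 10 ^ 7) ^ 2 * (H ^ 2 * X ^ 2) := by ring
    rw [h2]
    refine mul_le_mul_of_nonneg_right (by norm_num) (by positivity)
  have hN3 : N ^ 3 ≤ 10001 / 10000 * (H ^ 3 * X ^ 3) := by
    have h1 : N ^ 3 ≤ ((1 + 1 / 10 ^ 7) * (H * X)) ^ 3 := pow_le_pow_left₀ hN0 hN 3
    refine h1.trans ?_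
    have h2 : ((1 + 1 / 10 ^ 7) * (H * X)) ^ 3 = (1 + 1 / 10 ^ 7) ^ 3 * (H ^ 3 * X ^ 3) := by ring
    rw [h2]
    refine mul_le_mul_of_nonneg_right (by norm_num) (by positivity)
  have e5 : 1 / 2 * (N ^ 2 * (2 * (X * (16403 / 10000) * (1128 / 1000) +
        (8 / 25 * V + 4 / 5 * M) * 2 * X ^ 2))) ≤ 186 / 100 * H ^ 2 * X ^ 3 := by
    have h1 : X * (16403 / 10000) * (1128 / 1000) + (8 / 25 * V + 4 / 5 * M) * 2 * X ^ 2 ≤
        18540 / 10000 * X := by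
      have h2 : (8 / 25 * V + 4 / 5 * M) * 2 ≤ 112 / 10 := by linarith
      have h3 : (8 / 25 * V + 4 / 5 * M) * 2 * X ^ 2 ≤ 112 / 10 * X ^ 2 :=
        mul_le_mul_of_nonneg_right h2 (by positivity)
      have h4 : X ^ 2 ≤ 28 / 10 ^ 5 * X := by nlinarith
      linarith
    have h0 : 0 ≤ X * (16403 / 10000) * (1128 / 1000) + (8 / 25 * V + 4 / 5 * M) * 2 * X ^ 2 := by
      positivity
    calc 1 / 2 * (N ^ 2 * (2 * (X * (16403 / 10000) * (1128 / 1000) +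
        (8 / 25 * V + 4 / 5 * M) * 2 * X ^ 2))) =
        N ^ 2 * (X * (16403 / 10000) * (1128 / 1000) +
          (8 / 25 * V + 4 / 5 * M) * 2 * X ^ 2) := by ring
      _ ≤ (10001 / 10000 * (H ^ 2 * X ^ 2)) * (18540 / 10000 * X) :=
          mul_le_mul hNN h1 h0 (by positivity)
      _ = 10001 / 10000 * (18540 / 10000) * (H ^ 2 * X ^ 3) := by ring
      _ ≤ 186 / 100 * H ^ 2 * X ^ 3 := by
          have : 0 ≤ H ^ 2 * X ^ 3 := by positivity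
          linarith
  have e6 : 2 * (10 / 9 * (3 / 5 * X) * (3 * N) ^ 3) ≤ 3 / 100 * H ^ 2 * X ^ 3 := by
    calc 2 * (10 / 9 * (3 / 5 * X) * (3 * N) ^ 3) = 36 * X * N ^ 3 := by ring
      _ ≤ 36 * X * (10001 / 10000 * (H ^ 3 * X ^ 3)) := by gcongr
      _ = 36 * (10001 / 10000) * X * H * (H ^ 2 * X ^ 3) := by ring
      _ ≤ 36 * (10001 / 10000) * (28 / 10 ^ 5) * 2 * (H ^ 2 * X ^ 3) := by gcongr
      _ ≤ 3 / 100 * H ^ 2 * X ^ 3 := by
          have : 0 ≤ H ^ 2 * X ^ 3 := by positivity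
          linarith
  have e7 : 0 ≤ H * X ^ 3 := by positivity
  have e8 : 0 ≤ H ^ 2 * X ^ 3 := by positivity
  have e9 : (23 / 10 * K + 11 / 5 * H + H * (2 / 3 * V + 4 / 5 * M) + 19 / 10 * H ^ 2 + 1 / 10) *
      X ^ 3 = 23 / 10 * K * X ^ 3 + 11 / 5 * (H * X ^ 3) +
      H * (2 / 3 * V + 4 / 5 * M) * X ^ 3 + 19 / 10 * (H ^ 2 * X ^ 3) + 1 / 10 * X ^ 3 := by ring
  rw [e9]
  have e10 : (H * (2 / 3 * V + 4 / 5 * M) + 1 / 20) * X ^ 3 =
      H * (2 / 3 * V + 4 / 5 * M) * X ^ 3 + 1 / 20 * X ^ 3 := by ring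
  rw [e10] at e4
  nlinarith

theorem proof_VG (hA1 : S_A1) (hA2 : S_A2) (hA3 : S_A3) (hAB : S_AB) (hB1 : S_B1)
    (hB2 : S_B2) : S_VG := by
  intro P X h v y hyp H V M K hH0 hH2 hV0 hV5 hM0 hM5 hK0 hK20 hh hv hy hxi
  have G := hyp.good
  have hs := hyp.sol
  -- the size of `X`
  have ha0 : 0 < P.a 0 := lt_of_lt_of_le (by norm_num) G.a0
  have hs0 : 0 < Real.sqrt (P.a 0) := Real.sqrt_pos.2 ha0
  have hX0 : 0 < X := lt_of_lt_of_le hs0 hyp.X1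
  have hX : X ≤ 28 / 10 ^ 5 := by
    refine hyp.X2.trans ?_
    have h1 : Real.sqrt (P.a 0) ≤ 56 / 10 ^ 6 := by
      rw [Real.sqrt_le_left (by norm_num)]
      exact G.a0'.trans (by norm_num)
    linarith
  have haX : P.a 0 ≤ X ^ 2 := by
    rw [← Real.sq_sqrt ha0.le]
    exact pow_le_pow_left₀ hs0.le hyp.X1 2
  have hD : Dom X h v y := ⟨hs.hc, hs.hv, hs.hy, hs.nh, hs.nv, hs.ny⟩
  have hh3 : ‖h‖ ≤ 1 / 1000 := by
    have := hs.nh
    linarith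
  have hX' : X ≤ 3 / 10 ^ 4 := by linarith
  obtain ⟨⟨-, -, bτ', bτ, -, bξ⟩, bc, -, -⟩ := hB1 P G h hh3
  obtain ⟨hcξ, -⟩ := bc hs.hc
  obtain ⟨-, -, bV, -, bq⟩ := hB2 P G X h v y hX0 hX' hD
  obtain ⟨-, -, -, -, bv1, bvi⟩ := bq V M hV0 hV5 hM0 hM5 hv hy
  obtain ⟨-, -, ba2, -, -, -, -⟩ := hAB P G
  obtain ⟨-, ⟨conj_cf, conj_mul, -, conj_norm, -⟩, -, -, ⟨Pi2_cf, Pi2_norm⟩, -⟩ := hA2
  obtain ⟨-, cf_sub, -, cf_zero, cf_smul, cf_mon, -, -, -, cf_ext, -, -, -⟩ := hA1 wW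
  -- names
  obtain ⟨ξ, hξ⟩ : ∃ ξ, ξ = xi P h := ⟨_, rfl⟩
  obtain ⟨τ, hτ⟩ : ∃ τ, τ = tau P h := ⟨_, rfl⟩
  obtain ⟨V1, hV1⟩ : ∃ V1, V1 = vv P h v y 1 := ⟨_, rfl⟩
  obtain ⟨V2, hV2⟩ : ∃ V2, V2 = Vh P X h v y 2 := ⟨_, rfl⟩
  rw [← hξ] at bξ hcξ hxi
  rw [← hτ] at bτ bτ'
  rw [← hV1] at bv1
  -- the norm of `ξ`
  have hN : ‖ξ‖ ≤ (1 + 1 / 10 ^ 7) * (H * X) := by
    have h1 : ‖ξ‖ ≤ ‖ξ - h‖ + ‖h‖ := by
      have := norm_add_le (ξ - h) h
      rwa [sub_add_cancel] at this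
    have h2 : ‖h‖ ^ 2 / 9000 ≤ 1 / 10 ^ 7 * ‖h‖ := by
      have h3 := hs.nh
      have h4 : ‖h‖ ≤ 56 / 10 ^ 5 := by linarith
      have h5 := norm_nonneg h
      nlinarith
    calc ‖ξ‖ ≤ (1 + 1 / 10 ^ 7) * ‖h‖ := by linarith
      _ ≤ (1 + 1 / 10 ^ 7) * (H * X) := by gcongr
  have hξ30 : ‖ξ‖ ≤ 1 / 30 := by
    refine hN.trans ?_
    have : H * X ≤ 2 * (28 / 10 ^ 5) := by gcongr
    linarith
  -- the expansion
  obtain ⟨-, hT⟩ := hA3.2.1 ξ (Vh P X h v y) (3 / 5 * X) bV hξ30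
  have hT3 := hT 3
  obtain ⟨E, hE⟩ : ∃ E, E = TT ξ (Vh P X h v y) -
      ((X * P.a 0) • τ + v - ξ * ((-X) • τ + V1) + (1 / 2 : ℝ) • (ξ ^ 2 * V2)) := ⟨_, rfl⟩
  have hV0e : Vh P X h v y 0 = (X * P.a 0) • τ + v := by rw [hτ]; rfl
  have hV1e : Vh P X h v y 1 = (-X) • τ + V1 := by
    rw [hτ, hV1, Vh, G.a1, mul_neg, mul_one]
  have hE3 : ‖E‖ ≤ 10 / 9 * (3 / 5 * X) * (3 * ‖ξ‖) ^ 3 := by
    refine le_trans (le_of_eq ?_) hT3
    congr 1
    rw [hE, Finset.sum_range_succ, Finset.sum_range_succ, Finset.sum_range_one, hV0e, hV1e,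
      ← hV2]
    simp only [pow_zero, pow_one, Nat.factorial_zero, Nat.factorial_one, Nat.factorial_two,
      Nat.cast_one, Nat.cast_ofNat, inv_one, mul_one, one_smul, one_mul, even_two, Even.neg_pow,
      one_pow, neg_smul, one_div]
    abel
  have hTe : TT ξ (Vh P X h v y) =
      (X * P.a 0) • τ + v - ξ * ((-X) • τ + V1) + (1 / 2 : ℝ) • (ξ ^ 2 * V2) + E := by
    rw [hE]; abel
  -- the conjugate
  have hTc : conj (TT ξ (Vh P X h v y)) =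
      (X * P.a 0) • conj τ + conj v - ξ * ((-X) • conj τ + conj V1) +
        (1 / 2 : ℝ) • (ξ ^ 2 * conj V2) + conj E := by
    rw [hTe]
    simp only [map_add, map_sub, map_smul, conj_mul, hcξ, pow_two]
  obtain ⟨t, ht⟩ : ∃ t, t = mon wW 1 := ⟨_, rfl⟩
  have hid := vg_alg X (P.a 0) ξ τ (conj τ) t (conj t) v (conj v) V1 (conj V1) V2 (conj V2) E
    (conj E) cc
  obtain ⟨Z, hZ⟩ : ∃ Z, Z = (X * P.a 0) • ((τ - t) - (conj τ - conj t)) +
      X • ((ξ - X • cc) * (τ - conj τ)) +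
      (X ^ 2) • (cc * ((τ - t) - (conj τ - conj t))) - ξ * (V1 - conj V1) +
      (1 / 2 : ℝ) • (ξ ^ 2 * (V2 - conj V2)) + (E - conj E) := ⟨_, rfl⟩
  rw [← hTe, ← hTc, ← hZ] at hid
  -- the projection
  have hOO : Pi2 (TT ξ (Vh P X h v y) - conj (TT ξ (Vh P X h v y))) = 0 := by
    have := hs.eO
    rwa [OO, ← hξ] at this
  have hct : conj t = mon wW (-1) := by
    apply cf_ext
    intro j
    rw [conj_cf, ht, cf_mon, cf_mon]
    congr 1
    apply propext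
    constructor <;> intro h <;> omega
  have hp1 : Pi2 v = v := by
    apply cf_ext
    intro j
    rw [Pi2_cf]
    split_ifs with hj
    · rfl
    · rw [hs.hv j (by omega)]
  have hp2 : Pi2 (conj v) = 0 := by
    apply cf_ext
    intro j
    rw [Pi2_cf, cf_zero]
    split_ifs with hj
    · rw [conj_cf, hs.hv (-j) (by omega)]
    · rfl
  have hp3 : Pi2 (t - conj t) = 0 := by
    apply cf_ext
    intro j
    rw [Pi2_cf, cf_zero]
    split_ifs with hj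
    · rw [cf_sub, hct, ht, cf_mon, cf_mon, if_neg (by omega), if_neg (by omega), sub_zero]
    · rfl
  have hp4 : cc * (t - conj t) = (1 / 2 : ℝ) • (mon wW 2 - mon wW (-2)) := by
    rw [hct, ht, cc, smul_mul_assoc]
    congr 1
    have e1 : (mon wW 1 + mon wW (-1)) * (mon wW 1 - mon wW (-1)) =
        mon wW 1 * mon wW 1 - mon wW (-1) * mon wW (-1) := by ring
    rw [e1, mon_mul_mon, mon_mul_mon]
    norm_num
  have hp5 : Pi2 (cc * (t - conj t)) = (1 / 2 : ℝ) • mon wW 2 := by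
    rw [hp4]
    apply cf_ext
    intro j
    rw [Pi2_cf, cf_smul, cf_smul, cf_sub, cf_mon, cf_mon]
    by_cases hj : 2 ≤ j
    · rw [if_pos hj, if_neg (by omega : ¬ (-2 : ℤ) = j), sub_zero]
    · rw [if_neg hj, if_neg (by omega : ¬ (2 : ℤ) = j), mul_zero]
  have hkey : v + (X ^ 2 / 2) • mon wW 2 = -Pi2 Z := by
    rw [hid, map_add, map_add, map_add, map_smul, map_smul, hp3, hp5, map_sub, hp1, hp2,
      smul_zero, smul_smul, sub_zero, add_zero] at hOO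
    rw [show X ^ 2 / 2 = X ^ 2 * (1 / 2) by ring]
    rw [eq_neg_iff_add_eq_zero, ← hOO]
    abel
  rw [hkey, norm_neg]
  refine (Pi2_norm Z).trans ?_
  -- the bounds
  have hcn : ∀ a : W, ‖a - conj a‖ ≤ 2 * ‖a‖ := by
    intro a
    have h1 := norm_sub_le a (conj a)
    rw [conj_norm] at h1
    linarith
  have hτt : ‖(τ - t) - (conj τ - conj t)‖ ≤ 2 * (93 / 100 * (H * X)) := by
    rw [← map_sub]
    refine (hcn _).trans ?_
    rw [← ht] at bτ'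
    have h1 : (93 : ℝ) / 100 * ‖h‖ ≤ 93 / 100 * (H * X) := by gcongr
    linarith
  have hcc : ‖cc‖ ≤ 1126125 / 1000000 := by
    have h1 : ‖mon wW 1‖ = 1126125 / 1000000 := by
      rw [norm_mon]
      norm_num [wW, Rad]
    have h2 : ‖mon wW (-1)‖ = 1126125 / 1000000 := by
      rw [norm_mon]
      norm_num [wW, Rad]
    rw [cc, norm_smul]
    have h3 := norm_add_le (mon wW 1) (mon wW (-1))
    rw [h1, h2] at h3
    have h4 : ‖(1 / 2 : ℝ)‖ = 1 / 2 := by norm_num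
    rw [h4]
    linarith
  have t1 : ‖(X * P.a 0) • ((τ - t) - (conj τ - conj t))‖ ≤
      X * P.a 0 * (2 * (93 / 100 * (H * X))) := by
    rw [norm_smul, Real.norm_eq_abs, abs_of_pos (by positivity)]
    gcongr
  have t2 : ‖X • ((ξ - X • cc) * (τ - conj τ))‖ ≤ X * (K * X ^ 2 * (2 * (1128 / 1000))) := by
    rw [norm_smul, Real.norm_eq_abs, abs_of_pos hX0]
    refine mul_le_mul_of_nonneg_left ?_ hX0.le
    refine (norm_mul_le _ _).trans ?_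
    refine mul_le_mul hxi ?_ (norm_nonneg _) (by positivity)
    refine (hcn _).trans ?_
    linarith
  have t3 : ‖(X ^ 2) • (cc * ((τ - t) - (conj τ - conj t)))‖ ≤
      X ^ 2 * (1126125 / 1000000 * (2 * (93 / 100 * (H * X)))) := by
    rw [norm_smul, Real.norm_eq_abs, abs_of_pos (by positivity)]
    refine mul_le_mul_of_nonneg_left ?_ (by positivity)
    exact (norm_mul_le _ _).trans (mul_le_mul hcc hτt (norm_nonneg _) (by norm_num))
  have t4 : ‖ξ * (V1 - conj V1)‖ ≤ ‖ξ‖ * (2 * ((8 / 25 * V + 2 / 5 * M) * X ^ 2)) := by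
    refine (norm_mul_le _ _).trans ?_
    refine mul_le_mul_of_nonneg_left ?_ (norm_nonneg _)
    refine (hcn _).trans ?_
    linarith
  have hV2n : ‖V2‖ ≤ X * (16403 / 10000) * (1128 / 1000) + (8 / 25 * V + 4 / 5 * M) * 2 * X ^ 2 := by
    rw [hV2, Vh, ← hτ]
    refine (norm_add_le _ _).trans ?_
    refine add_le_add ?_ ?_
    · rw [norm_smul, Real.norm_eq_abs, abs_mul, abs_of_pos hX0]
      have h1 : |P.a 2| ≤ 16403 / 10000 := by
        have h2 := G.nu2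
        have h3 := G.nu1
        rw [abs_le] at ba2 ⊢
        constructor <;> linarith [ba2.1, ba2.2]
      gcongr
    · have h1 := bvi 1
      have h2 : ((1 : ℕ) : ℝ) + 1 = 2 := by norm_num
      rw [h2] at h1
      exact h1
  have t5 : ‖(1 / 2 : ℝ) • (ξ ^ 2 * (V2 - conj V2))‖ ≤
      1 / 2 * (‖ξ‖ ^ 2 * (2 * (X * (16403 / 10000) * (1128 / 1000) +
        (8 / 25 * V + 4 / 5 * M) * 2 * X ^ 2))) := by
    rw [norm_smul]
    have h4 : ‖(1 / 2 : ℝ)‖ = 1 / 2 := by norm_num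
    rw [h4]
    refine mul_le_mul_of_nonneg_left ?_ (by norm_num)
    refine (norm_mul_le _ _).trans ?_
    refine mul_le_mul ?_ ?_ (norm_nonneg _) (by positivity)
    · rw [pow_two, pow_two]
      exact norm_mul_le _ _
    · refine (hcn _).trans ?_
      linarith
  have t6 : ‖E - conj E‖ ≤ 2 * (10 / 9 * (3 / 5 * X) * (3 * ‖ξ‖) ^ 3) := by
    refine (hcn _).trans ?_
    linarith
  have hnum := vg_num hX0 hX hH0 hH2 hV0 hV5 hM0 hM5 hK0 haX (norm_nonneg ξ) hN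
  refine le_trans ?_ hnum
  rw [hZ]
  refine (norm_add_le _ _).trans (add_le_add ?_ t6)
  refine (norm_add_le _ _).trans (add_le_add ?_ t5)
  refine (norm_sub_le _ _).trans (add_le_add ?_ t4)
  refine (norm_add_le _ _).trans (add_le_add ?_ t3)
  exact (norm_add_le _ _).trans (add_le_add t1 t2)

end Pool.Agent.N229.SC
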