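import Pool.Agent.N229.SC.Stm

/-!
Project SC (helper229), problem MP_83fd13_an: part WK1, integrability of `u` and `G`, and `u` is not
almost everywhere zero (helper68).
-/

set_option autoImplicit false

open Set Filter Topology MeasureTheory

namespace Pool.Agent.N229.SC

private theorem wk1_anti {ρ r : ℝ} {f : ℂ → ℂ} (hC : Conf ρ r f)
    (h : ∀ z ∈ Metric.ball (0 : ℂ) r, ∀ w ∈ Metric.ball (0 : ℂ) r,
      ‖f z - f w - ρ * (z - w)‖ ≤ ρ / 10 * ‖z - w‖)
    {z w : ℂ} (hz : z ∈ Metric.ball (0 : ℂ) r) (hw : w ∈ Metric.ball (0 : ℂ) r) :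
    9 / 10 * ρ * ‖z - w‖ ≤ ‖f z - f w‖ := by
  have h1 := h z hz w hw
  have hρ := hC.rho_pos
  have h2 : ‖(ρ : ℂ) * (z - w)‖ = ρ * ‖z - w‖ := by
    rw [norm_mul, Complex.norm_real, Real.norm_eq_abs, abs_of_pos hρ]
  have h3 : ‖(ρ : ℂ) * (z - w)‖ ≤ ‖f z - f w‖ + ‖f z - f w - ρ * (z - w)‖ := by
    have : (ρ : ℂ) * (z - w) = (f z - f w) - (f z - f w - ρ * (z - w)) := by ring
    calc ‖(ρ : ℂ) * (z - w)‖ = ‖(f z - f w) - (f z - f w - ρ * (z - w))‖ := by rw [← this]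
      _ ≤ _ := norm_sub_le _ _
  rw [h2] at h3
  linarith

private theorem wk1_ball {r : ℝ} (hr : 1 < r) :
    Metric.ball (0 : ℂ) 1 ⊆ Metric.ball (0 : ℂ) r := Metric.ball_subset_ball hr.le

private theorem wk1_finv_mem {f : ℂ → ℂ} {x : ℂ} (hx : x ∈ Om f) :
    Function.invFunOn f (Metric.ball 0 1) x ∈ Metric.ball (0 : ℂ) 1 :=
  Function.invFunOn_mem hx

private theorem wk1_finv_eq {f : ℂ → ℂ} {x : ℂ} (hx : x ∈ Om f) :
    f (Function.invFunOn f (Metric.ball 0 1) x) = x :=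
  Function.invFunOn_eq hx

private theorem wk1_finv_cont {ρ r : ℝ} {f : ℂ → ℂ} (hC : Conf ρ r f)
    (h : ∀ z ∈ Metric.ball (0 : ℂ) r, ∀ w ∈ Metric.ball (0 : ℂ) r,
      ‖f z - f w - ρ * (z - w)‖ ≤ ρ / 10 * ‖z - w‖) :
    ContinuousOn (Function.invFunOn f (Metric.ball 0 1)) (Om f) := by
  have hρ := hC.rho_pos
  have h1 : LipschitzOnWith (Real.toNNReal (10 / 9 / ρ))
      (Function.invFunOn f (Metric.ball 0 1)) (Om f) := by
    refine LipschitzOnWith.of_dist_le_mul fun x hx y hy => ?_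
    rw [Real.coe_toNNReal _ (by positivity), dist_eq_norm, dist_eq_norm]
    have h2 := wk1_anti hC h (wk1_ball hC.r_gt (wk1_finv_mem hx))
      (wk1_ball hC.r_gt (wk1_finv_mem hy))
    rw [wk1_finv_eq hx, wk1_finv_eq hy] at h2
    rw [div_div, div_mul_eq_mul_div, le_div_iff₀ (by positivity)]
    nlinarith
  exact h1.continuousOn

private theorem wk1_deriv_cont {ρ r : ℝ} {f : ℂ → ℂ} (hC : Conf ρ r f) :
    ContinuousOn (deriv f) (Metric.ball 0 r) :=
  (hC.f_diff.deriv Metric.isOpen_ball).continuousOn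

private theorem wk1_deriv_lower {ρ r : ℝ} {f : ℂ → ℂ} (hC : Conf ρ r f) {z : ℂ}
    (hz : z ∈ Metric.ball (0 : ℂ) r) : 9 / 10 * ρ ≤ ‖deriv f z‖ := by
  have h1 := hC.f_der z hz
  have hρ := hC.rho_pos
  have h2 : ‖(ρ : ℂ)‖ = ρ := by
    rw [Complex.norm_real, Real.norm_eq_abs, abs_of_pos hρ]
  have h3 : ‖(ρ : ℂ)‖ ≤ ‖deriv f z‖ + ‖deriv f z - ρ‖ := by
    have : (ρ : ℂ) = deriv f z - (deriv f z - ρ) := by ring
    calc ‖(ρ : ℂ)‖ = ‖deriv f z - (deriv f z - ρ)‖ := by rw [← this]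
      _ ≤ _ := norm_sub_le _ _
  rw [h2] at h3
  linarith

private theorem wk1_closed {r : ℝ} (hr : 1 < r) :
    Metric.closedBall (0 : ℂ) 1 ⊆ Metric.ball (0 : ℂ) r :=
  Metric.closedBall_subset_ball hr

theorem proof_WK1 (hINJ : S_INJ) (hTOP : S_TOP) (hCV : S_CV) : S_WK1 := by
  have _ := hCV
  intro ρ r r' c f U S hC hr' hrr hCl
  obtain ⟨hLip, -⟩ := hINJ ρ r f hC
  obtain ⟨hopen, hbdd, -⟩ := hTOP ρ r f hC
  have hρ := hC.rho_pos
  have hmaps : MapsTo (Function.invFunOn f (Metric.ball 0 1)) (Om f) (Metric.ball (0 : ℂ) 1) :=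
    fun x hx => wk1_finv_mem hx
  have hmaps' : MapsTo (Function.invFunOn f (Metric.ball 0 1)) (Om f)
      (Metric.closedBall (0 : ℂ) 1) := fun x hx => Metric.ball_subset_closedBall (hmaps hx)
  have hfc := wk1_finv_cont hC hLip
  -- continuity of `U` and `S / f'` on the closed disc
  have hUc : ContinuousOn U (Metric.closedBall (0 : ℂ) 1) := fun z hz =>
    ((hCl.U_der z (wk1_closed hr' hz)).continuousAt).continuousWithinAt
  have hSc : ContinuousOn S (Metric.closedBall (0 : ℂ) 1) :=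
    hCl.S_smooth.continuousOn.mono (wk1_closed hr')
  have hdc : ContinuousOn (deriv f) (Metric.closedBall (0 : ℂ) 1) :=
    (wk1_deriv_cont hC).mono (wk1_closed hC.r_gt)
  have hne : ∀ z ∈ Metric.closedBall (0 : ℂ) 1, deriv f z ≠ 0 := by
    intro z hz h0
    have := wk1_deriv_lower hC (wk1_closed hC.r_gt hz)
    rw [h0, norm_zero] at this
    linarith
  have hqc : ContinuousOn (fun z => starRingEnd ℂ (S z / deriv f z))
      (Metric.closedBall (0 : ℂ) 1) :=
    Complex.continuous_conj.comp_continuousOn (hSc.div hdc hne)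
  have huc : ContinuousOn (uF f U) (Om f) := hUc.comp hfc hmaps'
  have hGc : ContinuousOn (GF f S) (Om f) := hqc.comp hfc hmaps'
  have hmeas : MeasurableSet (Om f) := hopen.measurableSet
  have hfin : IsFiniteMeasure ((volume : Measure ℂ).restrict (Om f)) :=
    ⟨by rw [Measure.restrict_apply_univ]; exact hbdd.measure_lt_top⟩
  obtain ⟨C1, hC1⟩ := (isCompact_closedBall (0 : ℂ) 1).exists_bound_of_continuousOn hUc
  obtain ⟨C2, hC2⟩ := (isCompact_closedBall (0 : ℂ) 1).exists_bound_of_continuousOn hqc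
  refine ⟨?_, ?_, ?_⟩
  · refine MemLp.of_bound (huc.aestronglyMeasurable hmeas) C1 ?_
    refine (ae_restrict_mem hmeas).mono fun x hx => ?_
    exact hC1 _ (hmaps' hx)
  · refine MemLp.of_bound (hGc.aestronglyMeasurable hmeas) C2 ?_
    refine (ae_restrict_mem hmeas).mono fun x hx => ?_
    exact hC2 _ (hmaps' hx)
  · intro h0
    have hEq : EqOn (uF f U) 0 (Om f) :=
      Measure.eqOn_open_of_ae_eq h0 hopen huc continuousOn_const
    -- a point of the open disc near `1` where `U` is not zero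
    have h1 : (1 : ℂ) ∈ Metric.closedBall (0 : ℂ) 1 := by simp
    have hU1 : U 1 ≠ 0 := by
      rw [hCl.U_bd 1 (by simp)]
      exact hCl.c_ne
    have hcont : ContinuousAt U 1 := (hCl.U_der 1 (wk1_closed hr' h1)).continuousAt
    have hev : ∀ᶠ z in 𝓝 (1 : ℂ), U z ≠ 0 := hcont.eventually_ne hU1
    have hcl : (1 : ℂ) ∈ closure (Metric.ball (0 : ℂ) 1) := by
      rw [closure_ball (0 : ℂ) one_ne_zero]
      exact h1
    obtain ⟨z, hz, hzb⟩ := (mem_closure_iff_frequently.mp hcl).and_eventually hev |>.exists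
    have hx : f z ∈ Om f := ⟨z, hz, rfl⟩
    have hinj := (hINJ ρ r f hC).2.mono (wk1_ball hC.r_gt)
    have h2 : Function.invFunOn f (Metric.ball 0 1) (f z) = z :=
      hinj.leftInvOn_invFunOn hz
    have h3 := hEq hx
    simp only [uF, h2, Pi.zero_apply] at h3
    exact hzb h3

end Pool.Agent.N229.SC
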