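import Pool.Agent.N229.SC.Stm
import Pool.Agent.N738.SC.Wk

/-!
Project SC (helper229), part WK2: the first weak identity.
-/

set_option autoImplicit false

open Set Filter Topology MeasureTheory

namespace Pool.Agent.N229.SC

theorem proof_WK2 (hINJ : S_INJ) (hTOP : S_TOP) (hCV : S_CV) (hDIV : S_DIV) : S_WK2 := by
  intro ρ r r' c f U S hf hr' hrr hcl φ hφ _ v
  have hsubr : Metric.ball (0 : ℂ) r' ⊆ Metric.ball 0 r := Metric.ball_subset_ball hrr
  have hsub1 : Metric.ball (0 : ℂ) 1 ⊆ Metric.ball 0 r' := Metric.ball_subset_ball hr'.le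
  -- regularity
  have hU : ContDiffOn ℝ 1 U (Metric.ball 0 r') := Pool.Agent.N738.SC.regU hcl
  have hfC : ContDiffOn ℝ 1 f (Metric.ball 0 r') := (Pool.Agent.N738.SC.regf hf).mono hsubr
  have hf'C : ContDiffOn ℝ 1 (deriv f) (Metric.ball 0 r') :=
    (Pool.Agent.N738.SC.regf' hf).mono hsubr
  have hφf : ContDiffOn ℝ 1 (fun z => φ (f z)) (Metric.ball 0 r') := hφ.comp_contDiffOn hfC
  have hH : ContDiffOn ℝ 1 (fun z => (U z - c) * φ (f z)) (Metric.ball 0 r') :=
    (hU.sub contDiffOn_const).mul hφf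
  have hK : ContDiffOn ℝ 1 (fun z => v * starRingEnd ℂ (deriv f z)) (Metric.ball 0 r') :=
    contDiffOn_const.mul (Complex.conjCLE.contDiff.comp_contDiffOn hf'C)
  have hkey := Pool.Agent.N738.SC.key hDIV hr' hH hK (fun z hz => Or.inl (by
    rw [hcl.U_bd z hz, sub_self, zero_mul]))
  -- change of variables
  have hL : ∫ x in Om f, (uF f U x - c) * (fderiv ℝ φ x v) =
      ∫ z in Metric.ball (0 : ℂ) 1, ‖deriv f z‖ ^ 2 * ((U z - c) * fderiv ℝ φ (f z) v) := by
    rw [hCV ρ r f hf]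
    refine setIntegral_congr_fun measurableSet_ball fun z hz => ?_
    show ‖deriv f z‖ ^ 2 * ((uF f U (f z) - c) * (fderiv ℝ φ (f z) v)) = _
    unfold uF
    rw [Pool.Agent.N738.SC.inv_f hINJ hf hz]
  have hR : ∫ x in Om f, @inner ℝ ℂ _ (GF f S x) v * φ x =
      ∫ z in Metric.ball (0 : ℂ) 1, (S z * (v * starRingEnd ℂ (deriv f z))).re * φ (f z) := by
    rw [hCV ρ r f hf]
    refine setIntegral_congr_fun measurableSet_ball fun z hz => ?_
    show ‖deriv f z‖ ^ 2 * (@inner ℝ ℂ _ (GF f S (f z)) v * φ (f z)) =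
      (S z * (v * starRingEnd ℂ (deriv f z))).re * φ (f z)
    unfold GF
    rw [Pool.Agent.N738.SC.inv_f hINJ hf hz, Complex.inner, Complex.conj_conj, ← mul_assoc]
    congr 1
    have hne := Pool.Agent.N738.SC.der_ne hf (hsubr (hsub1 hz))
    have e1 : S z * (v * starRingEnd ℂ (deriv f z)) =
        ((‖deriv f z‖ ^ 2 : ℝ) : ℂ) * (S z / deriv f z * v) := by
      have e2 : ((‖deriv f z‖ ^ 2 : ℝ) : ℂ) = deriv f z * starRingEnd ℂ (deriv f z) := by
        rw [Complex.mul_conj, Complex.normSq_eq_norm_sq]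
      rw [e2]
      field_simp
    rw [e1, Complex.re_ofReal_mul, mul_comm (S z / deriv f z) v]
  have hA : IntegrableOn (fun z => ‖deriv f z‖ ^ 2 * ((U z - c) * fderiv ℝ φ (f z) v))
      (Metric.ball (0 : ℂ) 1) := by
    refine Pool.Agent.N738.SC.integ hr' ?_
    refine (hf'C.continuousOn.norm.pow 2).mul ((hU.continuousOn.sub continuousOn_const).mul ?_)
    exact (((hφ.continuous_fderiv one_ne_zero).comp_continuousOn hfC.continuousOn)).clm_apply
      continuousOn_const
  have hB : IntegrableOn (fun z => (S z * (v * starRingEnd ℂ (deriv f z))).re * φ (f z))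
      (Metric.ball (0 : ℂ) 1) := by
    refine Pool.Agent.N738.SC.integ hr' ?_
    refine ContinuousOn.mul ?_ hφf.continuousOn
    exact Complex.continuous_re.comp_continuousOn (hcl.S_smooth.continuousOn.mul hK.continuousOn)
  have hAB := integral_add hA hB
  rw [hL, hR, eq_neg_iff_add_eq_zero, ← hAB, ← hkey]
  refine setIntegral_congr_fun measurableSet_ball fun z hz => ?_
  have hz' : z ∈ Metric.ball (0 : ℂ) r' := hsub1 hz
  have hz'' : z ∈ Metric.ball (0 : ℂ) r := hsubr hz'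
  have dU := hcl.U_der z hz'
  have df := Pool.Agent.N738.SC.derf hf hz''
  have df' := Pool.Agent.N738.SC.derf' hf hz''
  have dφ : HasFDerivAt φ (fderiv ℝ φ (f z)) (f z) :=
    (hφ.differentiable (by norm_num)).differentiableAt.hasFDerivAt
  have dφf : HasFDerivAt (fun z => φ (f z))
      ((fderiv ℝ φ (f z)).comp (ContinuousLinearMap.mul ℝ ℂ (deriv f z))) z := dφ.comp z df
  have dH := ((dU.sub_const c).mul dφf).fderiv
  have dH' : fderiv ℝ (fun z => (U z - c) * φ (f z)) z =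
      (U z - c) • ((fderiv ℝ φ (f z)).comp (ContinuousLinearMap.mul ℝ ℂ (deriv f z))) +
        φ (f z) • (Complex.reCLM.comp (ContinuousLinearMap.mul ℝ ℂ (S z))) := dH
  have dK : fderiv ℝ (fun z => v * starRingEnd ℂ (deriv f z)) z =
      (ContinuousLinearMap.mul ℝ ℂ v).comp ((Complex.conjCLE : ℂ →L[ℝ] ℂ).comp
        (ContinuousLinearMap.mul ℝ ℂ (deriv (deriv f) z))) := by
    have h1 : HasFDerivAt (fun z => starRingEnd ℂ (deriv f z))
        ((Complex.conjCLE : ℂ →L[ℝ] ℂ).comp (ContinuousLinearMap.mul ℝ ℂ (deriv (deriv f) z))) z :=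
      (Complex.conjCLE : ℂ →L[ℝ] ℂ).hasFDerivAt.comp z df'
    exact ((ContinuousLinearMap.mul ℝ ℂ v).hasFDerivAt.comp z h1).fderiv
  have k1 : fderiv ℝ (fun z => v * starRingEnd ℂ (deriv f z)) z 1 =
      v * starRingEnd ℂ (deriv (deriv f) z) := by
    rw [dK]
    simp
  have k2 : fderiv ℝ (fun z => v * starRingEnd ℂ (deriv f z)) z Complex.I =
      -(v * starRingEnd ℂ (deriv (deriv f) z)) * Complex.I := by
    rw [dK]
    simp only [ContinuousLinearMap.comp_apply, ContinuousLinearMap.mul_apply']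
    show v * starRingEnd ℂ (deriv (deriv f) z * Complex.I) = _
    rw [map_mul, Complex.conj_I]
    ring
  have k3 : (fderiv ℝ (fun z => v * starRingEnd ℂ (deriv f z)) z 1).re +
      (fderiv ℝ (fun z => v * starRingEnd ℂ (deriv f z)) z Complex.I).im = 0 := by
    rw [k1, k2]
    simp
  have k4 : fderiv ℝ (fun z => (U z - c) * φ (f z)) z (v * starRingEnd ℂ (deriv f z)) =
      (U z - c) * fderiv ℝ φ (f z) (deriv f z * (v * starRingEnd ℂ (deriv f z))) +
        φ (f z) * (S z * (v * starRingEnd ℂ (deriv f z))).re := by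
    rw [dH']
    rfl
  have k5 : deriv f z * (v * starRingEnd ℂ (deriv f z)) = (‖deriv f z‖ ^ 2 : ℝ) • v := by
    rw [Complex.real_smul]
    have e2 : ((‖deriv f z‖ ^ 2 : ℝ) : ℂ) = deriv f z * starRingEnd ℂ (deriv f z) := by
      rw [Complex.mul_conj, Complex.normSq_eq_norm_sq]
    rw [e2]
    ring
  show ‖deriv f z‖ ^ 2 * ((U z - c) * fderiv ℝ φ (f z) v) +
      (S z * (v * starRingEnd ℂ (deriv f z))).re * φ (f z) =
    fderiv ℝ (fun z => (U z - c) * φ (f z)) z (v * starRingEnd ℂ (deriv f z)) +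
      (U z - c) * φ (f z) * ((fderiv ℝ (fun z => v * starRingEnd ℂ (deriv f z)) z 1).re +
        (fderiv ℝ (fun z => v * starRingEnd ℂ (deriv f z)) z Complex.I).im)
  rw [k3, k4, k5, map_smul, smul_eq_mul]
  ring

end Pool.Agent.N229.SC
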