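import Pool.Agent.N229.SC.Stm
import Pool.Agent.N738.SC.Wk

/-!
Project SC (helper229), part WK3: the second weak identity.
-/

set_option autoImplicit false

open Set Filter Topology MeasureTheory

namespace Pool.Agent.N229.SC

theorem proof_WK3 (hINJ : S_INJ) (hTOP : S_TOP) (hCV : S_CV) (hDIV : S_DIV) : S_WK3 := by
  intro ρ r r' c f U S hf hr' hrr hcl φ hφ _
  have hsubr : Metric.ball (0 : ℂ) r' ⊆ Metric.ball 0 r := Metric.ball_subset_ball hrr
  have hsub1 : Metric.ball (0 : ℂ) 1 ⊆ Metric.ball 0 r' := Metric.ball_subset_ball hr'.le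
  -- regularity
  have hU : ContDiffOn ℝ 1 U (Metric.ball 0 r') := Pool.Agent.N738.SC.regU hcl
  have hfC : ContDiffOn ℝ 1 f (Metric.ball 0 r') := (Pool.Agent.N738.SC.regf hf).mono hsubr
  have hf'C : ContDiffOn ℝ 1 (deriv f) (Metric.ball 0 r') :=
    (Pool.Agent.N738.SC.regf' hf).mono hsubr
  have hφf : ContDiffOn ℝ 1 (fun z => φ (f z)) (Metric.ball 0 r') := hφ.comp_contDiffOn hfC
  have hK : ContDiffOn ℝ 1 (fun z => starRingEnd ℂ (S z)) (Metric.ball 0 r') :=
    Complex.conjCLE.contDiff.comp_contDiffOn hcl.S_smooth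
  have hkey := Pool.Agent.N738.SC.key hDIV hr' hφf hK (fun z hz => Or.inr (by
    rw [hcl.S_bd z hz, map_zero]))
  -- change of variables
  have hL : ∫ x in Om f, fderiv ℝ φ x (GF f S x) =
      ∫ z in Metric.ball (0 : ℂ) 1, fderiv ℝ φ (f z) (deriv f z * starRingEnd ℂ (S z)) := by
    rw [hCV ρ r f hf]
    refine setIntegral_congr_fun measurableSet_ball fun z hz => ?_
    show ‖deriv f z‖ ^ 2 * fderiv ℝ φ (f z) (GF f S (f z)) = _
    unfold GF
    rw [Pool.Agent.N738.SC.inv_f hINJ hf hz]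
    have hne := Pool.Agent.N738.SC.der_ne hf (hsubr (hsub1 hz))
    have e1 : deriv f z * starRingEnd ℂ (S z) =
        (‖deriv f z‖ ^ 2 : ℝ) • starRingEnd ℂ (S z / deriv f z) := by
      have e2 : ((‖deriv f z‖ ^ 2 : ℝ) : ℂ) = deriv f z * starRingEnd ℂ (deriv f z) := by
        rw [Complex.mul_conj, Complex.normSq_eq_norm_sq]
      have e3 : starRingEnd ℂ (deriv f z) ≠ 0 := by
        intro h
        exact hne ((map_eq_zero _).1 h)
      rw [Complex.real_smul, e2, map_div₀]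
      field_simp
    show ‖deriv f z‖ ^ 2 * fderiv ℝ φ (f z) (starRingEnd ℂ (S z / deriv f z)) =
      fderiv ℝ φ (f z) (deriv f z * starRingEnd ℂ (S z))
    rw [e1, map_smul, smul_eq_mul]
  have hR : ∫ x in Om f, uF f U x * φ x =
      ∫ z in Metric.ball (0 : ℂ) 1, ‖deriv f z‖ ^ 2 * (U z * φ (f z)) := by
    rw [hCV ρ r f hf]
    refine setIntegral_congr_fun measurableSet_ball fun z hz => ?_
    show ‖deriv f z‖ ^ 2 * (uF f U (f z) * φ (f z)) = _
    unfold uF
    rw [Pool.Agent.N738.SC.inv_f hINJ hf hz]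
  have hA : IntegrableOn (fun z => fderiv ℝ φ (f z) (deriv f z * starRingEnd ℂ (S z)))
      (Metric.ball (0 : ℂ) 1) := by
    refine Pool.Agent.N738.SC.integ hr' ?_
    exact ((hφ.continuous_fderiv one_ne_zero).comp_continuousOn hfC.continuousOn).clm_apply
      (hf'C.continuousOn.mul hK.continuousOn)
  have hB : IntegrableOn (fun z => ‖deriv f z‖ ^ 2 * (U z * φ (f z)))
      (Metric.ball (0 : ℂ) 1) := by
    refine Pool.Agent.N738.SC.integ hr' ?_
    exact (hf'C.continuousOn.norm.pow 2).mul (hU.continuousOn.mul hφf.continuousOn)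
  have hAB := integral_sub hA hB
  rw [hL, hR, one_mul, ← sub_eq_zero, ← hAB, ← hkey]
  refine setIntegral_congr_fun measurableSet_ball fun z hz => ?_
  have hz' : z ∈ Metric.ball (0 : ℂ) r' := hsub1 hz
  have hz'' : z ∈ Metric.ball (0 : ℂ) r := hsubr hz'
  have df := Pool.Agent.N738.SC.derf hf hz''
  have dφ : HasFDerivAt φ (fderiv ℝ φ (f z)) (f z) :=
    (hφ.differentiable (by norm_num)).differentiableAt.hasFDerivAt
  have dφf : HasFDerivAt (fun z => φ (f z))
      ((fderiv ℝ φ (f z)).comp (ContinuousLinearMap.mul ℝ ℂ (deriv f z))) z := dφ.comp z df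
  have dS : HasFDerivAt S (fderiv ℝ S z) z :=
    ((hcl.S_smooth.contDiffAt (Metric.isOpen_ball.mem_nhds hz')).differentiableAt
      (by norm_num)).hasFDerivAt
  have dK : fderiv ℝ (fun z => starRingEnd ℂ (S z)) z =
      (Complex.conjCLE : ℂ →L[ℝ] ℂ).comp (fderiv ℝ S z) :=
    ((Complex.conjCLE : ℂ →L[ℝ] ℂ).hasFDerivAt.comp z dS).fderiv
  have k3 : (fderiv ℝ (fun z => starRingEnd ℂ (S z)) z 1).re +
      (fderiv ℝ (fun z => starRingEnd ℂ (S z)) z Complex.I).im =
      -(‖deriv f z‖ ^ 2 * U z) := by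
    rw [dK, ← hcl.lap z hz']
    show (starRingEnd ℂ (fderiv ℝ S z 1)).re + (starRingEnd ℂ (fderiv ℝ S z Complex.I)).im = _
    rw [Complex.conj_re, Complex.conj_im]
    ring
  have k4 : fderiv ℝ (fun z => φ (f z)) z (starRingEnd ℂ (S z)) =
      fderiv ℝ φ (f z) (deriv f z * starRingEnd ℂ (S z)) := by
    rw [dφf.fderiv]
    rfl
  show fderiv ℝ φ (f z) (deriv f z * starRingEnd ℂ (S z)) - ‖deriv f z‖ ^ 2 * (U z * φ (f z)) =
    fderiv ℝ (fun z => φ (f z)) z (starRingEnd ℂ (S z)) +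
      φ (f z) * ((fderiv ℝ (fun z => starRingEnd ℂ (S z)) z 1).re +
        (fderiv ℝ (fun z => starRingEnd ℂ (S z)) z Complex.I).im)
  rw [k3, k4]
  ring

end Pool.Agent.N229.SC
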